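import Pool.Agent.Lib.MP_ec260d_ntB.Defs

/-!
# Y/SPDef: definitions for the moments of the prime sums
-/

namespace Pool.Agent.Lib.MP_ec260d_ntB.Y

open Complex

/-- the primes of all blocks -/
noncomputable def SP (δ T : ℝ) : Finset ℕ := (Finset.range (JJ T)).biUnion (Pr δ T)

/-- their squares -/
noncomputable def S2 (δ T : ℝ) : Finset ℕ := (SP δ T).image (fun p => p ^ 2)

/-- Dirichlet polynomial at `1/2 + W/log T + it` -/
noncomputable def DP (S : Finset ℕ) (c : ℕ → ℂ) (W T t : ℝ) : ℂ :=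
  ∑ n ∈ S, c n * (n : ℂ) ^ (-(sW W T t))

end Pool.Agent.Lib.MP_ec260d_ntB.Y
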