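import Pool.Agent.Lib.MP_ec260d_ntB.BA0
import Pool.Agent.Lib.MP_ec260d_ntB.Y.SPDef

/-!
# Y/SPa: the primes of all blocks

PROOF (complete). `mem_Pr` (BA0): `p ∈ Pr δ T j ↔ p.Prime ∧ 10000 < p ∧ xs δ T (j+1) < p ∧ p ≤ xs δ T j`, `xs_eq`, `log_xs`: `log (xs δ T j) = log T * bet δ j`, `bet δ j = δ exp (-j)`.
* `sum_SP`: `Finset.sum_biUnion`; pairwise disjoint: for `i < j` and `p` in both, `p ≤ xs j ≤ xs (i+1) < p` (`xs` is antitone in `j` because `log T ≥ 0`, `δ ≥ 0`).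
* `mem_SP`: `→`: `log p ≤ log (xs j) ≤ δ log T` (`bet_le`). `←`: `p ≤ xs 0` (`log (xs 0) = δ log T`, take `exp`). `xs (JJ T) = exp (log T * δ * exp (-JJ T)) ≤ exp δ ≤ exp 1 < p`
  because `JJ T ≥ log (log T)` (`Nat.le_ceil`), so `exp (-JJ T) ≤ 1 / log T` (`log T > 0`). Let `m` be the least `m` with `xs m < p` (`Nat.find`, `Nat.find_min`): `0 < m ≤ JJ T`, and `j = m - 1` works.
* `SP_mono`: from `mem_SP`. `DP_sum`: `sum_SP` and `Finset.sum_sdiff` etc.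
-/

namespace Pool.Agent.Lib.MP_ec260d_ntB.Y

open Complex

private theorem SPa_xs_anti {δ T : ℝ} (hδ : 0 < δ) (hT : 1 ≤ T) {i j : ℕ} (h : i ≤ j) :
    xs δ T j ≤ xs δ T i := by
  unfold xs
  have hl : 0 ≤ Real.log T := Real.log_nonneg hT
  refine Real.exp_le_exp.2 (mul_le_mul_of_nonneg_left ?_ hl)
  refine mul_le_mul_of_nonneg_left (Real.exp_le_exp.2 ?_) hδ.le
  have : (i : ℝ) ≤ j := by exact_mod_cast h
  linarith

private theorem SPa_disj {δ T : ℝ} (hδ : 0 < δ) (hT : 1 ≤ T) {i j : ℕ} (h : i < j) :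
    Disjoint (Pr δ T i) (Pr δ T j) := by
  rw [Finset.disjoint_left]
  intro p hi hj
  rw [mem_Pr] at hi hj
  have h1 := SPa_xs_anti hδ hT (Nat.succ_le_of_lt h)
  have h2 : (p : ℝ) < p := hj.2.2.2.trans_lt (h1.trans_lt hi.2.2.1)
  exact lt_irrefl _ h2

private theorem SPa_xs_zero (δ T : ℝ) : xs δ T 0 = Real.exp (δ * Real.log T) := by
  unfold xs
  rw [Nat.cast_zero, neg_zero, Real.exp_zero, mul_one, mul_comm]

private theorem SPa_xs_JJ {δ T : ℝ} (hδ : 0 < δ) (hδ1 : δ ≤ 1) (hT : 3 ≤ T) :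
    xs δ T (JJ T) < 10000 := by
  have hl : 0 < Real.log T := Real.log_pos (by linarith)
  have h1 : Real.log (Real.log T) ≤ (JJ T : ℝ) := Nat.le_ceil _
  have h2 : Real.exp (-(JJ T : ℝ)) ≤ (Real.log T)⁻¹ := by
    calc Real.exp (-(JJ T : ℝ)) ≤ Real.exp (-Real.log (Real.log T)) :=
          Real.exp_le_exp.2 (by linarith)
      _ = (Real.log T)⁻¹ := by rw [Real.exp_neg, Real.exp_log hl]
  have h3 : Real.log T * (δ * Real.exp (-(JJ T : ℝ))) ≤ 1 := by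
    calc Real.log T * (δ * Real.exp (-(JJ T : ℝ)))
        ≤ Real.log T * (δ * (Real.log T)⁻¹) :=
          mul_le_mul_of_nonneg_left (mul_le_mul_of_nonneg_left h2 hδ.le) hl.le
      _ = δ := by field_simp
      _ ≤ 1 := hδ1
  have he2 : Real.exp 1 < 2.7182818286 := Real.exp_one_lt_d9
  calc xs δ T (JJ T) = Real.exp (Real.log T * (δ * Real.exp (-(JJ T : ℝ)))) := rfl
    _ ≤ Real.exp 1 := Real.exp_le_exp.2 h3
    _ < 10000 := by linarith

theorem sum_SP {M : Type*} [AddCommMonoid M] {δ T : ℝ} (hδ : 0 < δ) (hT : 1 ≤ T) (f : ℕ → M) :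
    ∑ j ∈ Finset.range (JJ T), ∑ p ∈ Pr δ T j, f p = ∑ p ∈ SP δ T, f p := by
  unfold SP
  rw [Finset.sum_biUnion]
  intro i _ j _ hij
  rcases lt_or_gt_of_ne hij with h | h
  · exact SPa_disj hδ hT h
  · exact (SPa_disj hδ hT h).symm

theorem mem_SP {δ T : ℝ} (hδ : 0 < δ) (hδ1 : δ ≤ 1) (hT : 3 ≤ T) {p : ℕ} :
    p ∈ SP δ T ↔ p.Prime ∧ 10000 < p ∧ Real.log p ≤ δ * Real.log T := by
  have hl : 0 ≤ Real.log T := Real.log_nonneg (by linarith)
  unfold SP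
  rw [Finset.mem_biUnion]
  constructor
  · rintro ⟨j, _, hp⟩
    rw [mem_Pr] at hp
    obtain ⟨h1, h2, _, h4⟩ := hp
    refine ⟨h1, h2, ?_⟩
    have hp0 : (0 : ℝ) < p := by exact_mod_cast h1.pos
    have h5 := h4.trans (SPa_xs_anti (T := T) hδ (by linarith) (Nat.zero_le j))
    rw [SPa_xs_zero] at h5
    have h6 := Real.log_le_log hp0 h5
    rwa [Real.log_exp] at h6
  · rintro ⟨h1, h2, h3⟩
    have hp0 : (0 : ℝ) < p := by exact_mod_cast h1.pos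
    have h4 : (p : ℝ) ≤ xs δ T 0 := by
      rw [SPa_xs_zero, ← Real.exp_log hp0]
      exact Real.exp_le_exp.2 h3
    have h5 : xs δ T (JJ T) < p := by
      have h6 := SPa_xs_JJ hδ hδ1 hT
      have h7 : (10000 : ℝ) < p := by exact_mod_cast h2
      linarith
    classical
    have hex : ∃ m, xs δ T m < p := ⟨JJ T, h5⟩
    have hm1 : xs δ T (Nat.find hex) < p := Nat.find_spec hex
    have hm2 : Nat.find hex ≤ JJ T := Nat.find_min' hex h5
    have hm0 : Nat.find hex ≠ 0 := by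
      intro h0
      rw [h0] at hm1
      exact absurd h4 (not_le.2 hm1)
    obtain ⟨k, hk⟩ := Nat.exists_eq_succ_of_ne_zero hm0
    have hk1 : k < Nat.find hex := by rw [hk]; exact Nat.lt_succ_self k
    have hk2 : ¬ xs δ T k < p := Nat.find_min hex hk1
    refine ⟨k, Finset.mem_range.2 (lt_of_lt_of_le hk1 hm2), ?_⟩
    rw [mem_Pr]
    refine ⟨h1, h2, ?_, not_lt.1 hk2⟩
    rw [hk] at hm1
    exact hm1

theorem SP_mono {δ δ' T : ℝ} (hδ' : 0 < δ') (h : δ' ≤ δ) (hδ : δ ≤ 1) (hT : 3 ≤ T) :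
    SP δ' T ⊆ SP δ T := by
  intro p hp
  rw [mem_SP hδ' (h.trans hδ) hT] at hp
  rw [mem_SP (hδ'.trans_le h) hδ hT]
  refine ⟨hp.1, hp.2.1, hp.2.2.trans (mul_le_mul_of_nonneg_right h ?_)⟩
  exact Real.log_nonneg (by linarith)

/-- the block sums add up to the sum over all primes -/
theorem YB_sum {δ T : ℝ} (hδ : 0 < δ) (hT : 1 ≤ T) (W t : ℝ) :
    ∑ j ∈ Finset.range (JJ T), YB δ W T j t = (1 / Real.pi) * (DP (SP δ T) (fun _ => 1) W T t).im := by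
  unfold YB DP Pj
  rw [← Finset.mul_sum, ← Complex.im_sum, sum_SP hδ hT (fun p => (p : ℂ) ^ (-(sW W T t)))]
  simp only [one_mul]

end Pool.Agent.Lib.MP_ec260d_ntB.Y
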