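import Mathlib

/-!
# Y/MV: mean value of a short Dirichlet polynomial

PROOF of `mv` (complete). Write `c n * n^(-(t I)) = c n * exp (-(t * log n) * I)` (`n ≥ 1`: `Complex.cpow_def_of_ne_zero`, `Complex.natCast_log` or `Complex.ofReal_log`). Expand
`‖∑ c n e_n(t)‖^2 = ∑_m ∑_n Re (c m * conj (c n) * exp (-(t * (log m - log n)) * I))` (or as a complex number), integrate term by term (everything is continuous).
Diagonal: `(b - a) ‖c n‖^2`. Off diagonal, `m ≠ n`: `|∫_a^b exp (-(t w) I) dt| ≤ 2 / |w|` with `w = log m - log n`, and `|w| ≥ 1 / N`: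
for `m > n`, `log (m / n) ≥ 1 - n / m ≥ 1 / m ≥ 1 / N` (`Real.one_sub_inv_le_log_of_pos`). So the off diagonal part is at most
`∑_(m ≠ n) ‖c m‖ ‖c n‖ 2 N ≤ 2 N (∑ ‖c n‖)^2 ≤ 2 N |S| ∑ ‖c n‖^2` (`sq_sum_le_card_mul_sum_sq` or `Finset.inner_mul_le_norm_mul_norm`) and `|S| ≤ N`
(`S ⊆ Finset.Icc 1 ⌊N⌋₊`). If `S` is empty the left side is `0`.
-/

namespace Pool.Agent.Lib.MP_ec260d_ntB.Y

open Complex MeasureTheory

private theorem MV_exp {n : ℕ} (hn : 1 ≤ n) (t : ℝ) :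
    (n : ℂ) ^ (-((t : ℂ) * I)) = cexp (-((Real.log n : ℝ) : ℂ) * I * t) := by
  have h0 : (n : ℂ) ≠ 0 := by exact_mod_cast (by omega : n ≠ 0)
  rw [Complex.cpow_def_of_ne_zero h0, ← Complex.natCast_log]
  congr 1
  ring

private theorem MV_K {w : ℝ} (hw : w ≠ 0) (a b : ℝ) : ‖∫ t in a..b, cexp (-(w : ℂ) * I * t)‖ ≤ 2 / |w| := by
  have hc : -(w : ℂ) * I ≠ 0 := by simp [hw]
  rw [integral_exp_mul_complex hc, norm_div]
  have h1 : ‖-(w : ℂ) * I‖ = |w| := by simp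
  rw [h1]
  have h2 : ∀ x : ℝ, ‖cexp (-(w : ℂ) * I * x)‖ = 1 := by
    intro x
    rw [Complex.norm_exp]
    simp
  have h3 : ‖cexp (-(w : ℂ) * I * b) - cexp (-(w : ℂ) * I * a)‖ ≤ 2 := by
    refine (norm_sub_le _ _).trans ?_
    rw [h2, h2]
    norm_num
  exact div_le_div_of_nonneg_right h3 (abs_nonneg w)

private theorem MV_sep {m n : ℕ} {N : ℝ} (hm : 1 ≤ m) (hn : 1 ≤ n) (hmN : (m : ℝ) ≤ N) (hnm : n < m) :
    1 / N ≤ Real.log m - Real.log n := by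
  have hm0 : (0 : ℝ) < m := by exact_mod_cast hm
  have hn0 : (0 : ℝ) < n := by exact_mod_cast hn
  rw [← Real.log_div hm0.ne' hn0.ne']
  have h1 := Real.one_sub_inv_le_log_of_pos (div_pos hm0 hn0)
  have h2 : 1 / (m : ℝ) ≤ 1 - ((m : ℝ) / n)⁻¹ := by
    rw [inv_div, div_le_iff₀ hm0, sub_mul, div_mul_cancel₀ _ hm0.ne', one_mul]
    have : (n : ℝ) + 1 ≤ m := by exact_mod_cast hnm
    linarith
  have h3 : 1 / N ≤ 1 / (m : ℝ) := one_div_le_one_div_of_le hm0 hmN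
  linarith

theorem mv (S : Finset ℕ) (N : ℝ) (hS : ∀ n ∈ S, 1 ≤ n ∧ (n : ℝ) ≤ N) (c : ℕ → ℂ) {a b : ℝ}
    (hab : a ≤ b) :
    ∫ t in a..b, ‖∑ n ∈ S, c n * (n : ℂ) ^ (-((t : ℂ) * I))‖ ^ 2 ≤
      ((b - a) + 2 * N ^ 2) * ∑ n ∈ S, ‖c n‖ ^ 2 := by
  rcases S.eq_empty_or_nonempty with rfl | hne
  · simp
  have hN1 : 1 ≤ N := by
    obtain ⟨n, hn⟩ := hne
    have h1 := hS n hn
    have h2 : (1 : ℝ) ≤ n := by exact_mod_cast h1.1
    exact h2.trans h1.2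
  have hN0 : 0 < N := by linarith
  have hcard : (S.card : ℝ) ≤ N := by
    have h1 : S ⊆ Finset.Icc 1 ⌊N⌋₊ := by
      intro n hn
      rw [Finset.mem_Icc]
      exact ⟨(hS n hn).1, Nat.le_floor (hS n hn).2⟩
    have h2 := Finset.card_le_card h1
    rw [Nat.card_Icc, Nat.add_sub_cancel] at h2
    have h3 : (S.card : ℝ) ≤ (⌊N⌋₊ : ℝ) := by exact_mod_cast h2
    exact h3.trans (Nat.floor_le hN0.le)
  have hf : ∀ t : ℝ, ∑ n ∈ S, c n * (n : ℂ) ^ (-((t : ℂ) * I)) =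
      ∑ n ∈ S, c n * cexp (-((Real.log n : ℝ) : ℂ) * I * t) := by
    intro t
    refine Finset.sum_congr rfl fun n hn => ?_
    rw [MV_exp (hS n hn).1]
  have hsq : ∀ t : ℝ, ((‖∑ n ∈ S, c n * (n : ℂ) ^ (-((t : ℂ) * I))‖ ^ 2 : ℝ) : ℂ) =
      ∑ m ∈ S, ∑ n ∈ S, (c m * (starRingEnd ℂ) (c n)) *
        cexp (-((Real.log m - Real.log n : ℝ) : ℂ) * I * t) := by
    intro t
    rw [hf t, Complex.ofReal_pow, ← Complex.mul_conj', map_sum, Finset.sum_mul_sum]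
    refine Finset.sum_congr rfl fun m _ => Finset.sum_congr rfl fun n _ => ?_
    rw [map_mul, ← Complex.exp_conj]
    have h1 : (starRingEnd ℂ) (-((Real.log n : ℝ) : ℂ) * I * t) = ((Real.log n : ℝ) : ℂ) * I * t := by
      rw [map_mul, map_mul, map_neg, Complex.conj_ofReal, Complex.conj_ofReal, Complex.conj_I]
      ring
    rw [h1]
    have h2 : cexp (-((Real.log m - Real.log n : ℝ) : ℂ) * I * t) =
        cexp (-((Real.log m : ℝ) : ℂ) * I * t) * cexp (((Real.log n : ℝ) : ℂ) * I * t) := by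
      rw [← Complex.exp_add]
      congr 1
      rw [Complex.ofReal_sub]
      ring
    rw [h2]
    ring
  set K : ℕ → ℕ → ℂ := fun m n => ∫ t in a..b, cexp (-((Real.log m - Real.log n : ℝ) : ℂ) * I * t) with hK
  have hKint : ∀ m n : ℕ, IntervalIntegrable
      (fun t : ℝ => (c m * (starRingEnd ℂ) (c n)) * cexp (-((Real.log m - Real.log n : ℝ) : ℂ) * I * t)) volume a b := by
    intro m n
    exact Continuous.intervalIntegrable (by fun_prop) a b
  have hint : ((∫ t in a..b, ‖∑ n ∈ S, c n * (n : ℂ) ^ (-((t : ℂ) * I))‖ ^ 2 : ℝ) : ℂ) =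
      ∑ m ∈ S, ∑ n ∈ S, (c m * (starRingEnd ℂ) (c n)) * K m n := by
    rw [← intervalIntegral.integral_ofReal]
    rw [intervalIntegral.integral_congr (g := fun t : ℝ => ∑ m ∈ S, ∑ n ∈ S, (c m * (starRingEnd ℂ) (c n)) *
        cexp (-((Real.log m - Real.log n : ℝ) : ℂ) * I * t)) (fun t _ => hsq t)]
    rw [intervalIntegral.integral_finsetSum (fun m _ => ?_)]
    · refine Finset.sum_congr rfl fun m _ => ?_
      rw [intervalIntegral.integral_finsetSum (fun n _ => hKint m n)]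
      refine Finset.sum_congr rfl fun n _ => ?_
      rw [intervalIntegral.integral_const_mul]
    · exact Continuous.intervalIntegrable (by fun_prop) a b
  have hKb : ∀ m ∈ S, ∀ n ∈ S, ‖K m n‖ ≤ (if m = n then b - a else 0) + 2 * N := by
    intro m hm n hn
    by_cases hmn : m = n
    · rw [if_pos hmn]
      have h1 : ‖K m n‖ ≤ 1 * |b - a| := by
        refine intervalIntegral.norm_integral_le_of_norm_le_const fun t _ => ?_
        rw [Complex.norm_exp, hmn]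
        simp
      rw [one_mul, abs_of_nonneg (by linarith)] at h1
      linarith
    · rw [if_neg hmn, zero_add]
      have hw : 1 / N ≤ |Real.log m - Real.log n| := by
        rcases lt_or_gt_of_ne hmn with h | h
        · have h1 := MV_sep (hS n hn).1 (hS m hm).1 (hS n hn).2 h
          rw [abs_sub_comm]
          exact h1.trans (le_abs_self _)
        · exact (MV_sep (hS m hm).1 (hS n hn).1 (hS m hm).2 h).trans (le_abs_self _)
      have hpos : 0 < 1 / N := by positivity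
      have hw0 : Real.log m - Real.log n ≠ 0 := by
        intro h
        rw [h, abs_zero] at hw
        linarith
      refine (MV_K hw0 a b).trans ?_
      rw [div_le_iff₀ (abs_pos.2 hw0)]
      calc (2 : ℝ) = 2 * N * (1 / N) := by field_simp
        _ ≤ 2 * N * |Real.log m - Real.log n| := by gcongr
  have hreal : 0 ≤ ∫ t in a..b, ‖∑ n ∈ S, c n * (n : ℂ) ^ (-((t : ℂ) * I))‖ ^ 2 :=
    intervalIntegral.integral_nonneg hab fun t _ => by positivity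
  have h1 : ∫ t in a..b, ‖∑ n ∈ S, c n * (n : ℂ) ^ (-((t : ℂ) * I))‖ ^ 2 =
      ‖∑ m ∈ S, ∑ n ∈ S, (c m * (starRingEnd ℂ) (c n)) * K m n‖ := by
    rw [← hint, Complex.norm_real, Real.norm_eq_abs, abs_of_nonneg hreal]
  rw [h1]
  have h2 : ‖∑ m ∈ S, ∑ n ∈ S, (c m * (starRingEnd ℂ) (c n)) * K m n‖ ≤
      ∑ m ∈ S, ∑ n ∈ S, (‖c m‖ * ‖c n‖) * ((if m = n then b - a else 0) + 2 * N) := by
    refine (norm_sum_le _ _).trans (Finset.sum_le_sum fun m hm => ?_)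
    refine (norm_sum_le _ _).trans (Finset.sum_le_sum fun n hn => ?_)
    rw [norm_mul, norm_mul, Complex.norm_conj]
    exact mul_le_mul_of_nonneg_left (hKb m hm n hn) (by positivity)
  refine h2.trans ?_
  have h3 : ∑ m ∈ S, ∑ n ∈ S, (‖c m‖ * ‖c n‖) * ((if m = n then b - a else 0) + 2 * N) =
      (b - a) * ∑ n ∈ S, ‖c n‖ ^ 2 + 2 * N * (∑ n ∈ S, ‖c n‖) ^ 2 := by
    have h4 : ∀ m ∈ S, ∑ n ∈ S, (‖c m‖ * ‖c n‖) * ((if m = n then b - a else 0) + 2 * N) =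
        (b - a) * ‖c m‖ ^ 2 + 2 * N * (‖c m‖ * ∑ n ∈ S, ‖c n‖) := by
      intro m hm
      have h5 : ∀ n ∈ S, (‖c m‖ * ‖c n‖) * ((if m = n then b - a else 0) + 2 * N) =
          (if m = n then (b - a) * (‖c m‖ * ‖c n‖) else 0) + 2 * N * (‖c m‖ * ‖c n‖) := by
        intro n _
        split_ifs <;> ring
      rw [Finset.sum_congr rfl h5, Finset.sum_add_distrib, Finset.sum_ite_eq, if_pos hm, ← Finset.mul_sum,
        ← Finset.mul_sum]
      ring
    rw [Finset.sum_congr rfl h4, Finset.sum_add_distrib, ← Finset.mul_sum, ← Finset.mul_sum, ← Finset.sum_mul]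
    ring
  rw [h3]
  have h6 : (∑ n ∈ S, ‖c n‖) ^ 2 ≤ N * ∑ n ∈ S, ‖c n‖ ^ 2 := by
    have h7 := sq_sum_le_card_mul_sum_sq (s := S) (f := fun n => ‖c n‖)
    refine h7.trans ?_
    have h8 : 0 ≤ ∑ n ∈ S, ‖c n‖ ^ 2 := Finset.sum_nonneg fun n _ => by positivity
    exact mul_le_mul_of_nonneg_right hcard h8
  calc (b - a) * ∑ n ∈ S, ‖c n‖ ^ 2 + 2 * N * (∑ n ∈ S, ‖c n‖) ^ 2
      ≤ (b - a) * ∑ n ∈ S, ‖c n‖ ^ 2 + 2 * N * (N * ∑ n ∈ S, ‖c n‖ ^ 2) := by gcongr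
    _ = ((b - a) + 2 * N ^ 2) * ∑ n ∈ S, ‖c n‖ ^ 2 := by ring

end Pool.Agent.Lib.MP_ec260d_ntB.Y
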