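import Mathlib

/-!
# Y/Win: Chebyshev inequality, oscillation on windows

PROOF of `cheb` (complete). Markov inequality for the nonnegative integrable function `‖f‖^2` on `Icc a b`: `A^2 vol {..} ≤ ∫_a^b ‖f‖^2 ≤ M`
(`mul_meas_ge_le_lintegral` or `mul_meas_ge_le_integral_of_nonneg` for `volume.restrict (Icc a b)`; `A < ‖f t‖` implies `A^2 ≤ ‖f t‖^2`). `M ≥ 0` follows.

PROOF of `win` (complete). For `|s - t| ≤ r`: `‖f s - f t‖ = ‖∫_t^s g‖ ≤ ∫_(t-r)^(t+r) ‖g‖ =: G t` (`intervalIntegral.integral_eq_sub_of_hasDerivAt`,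
`intervalIntegral.norm_integral_le_abs_integral_norm`, monotonicity of the interval). `G` is continuous and nonnegative; Markov: `A vol {t ∈ Icc T (3T), A < G t} ≤ ∫_T^(3T) G`.
`∫_T^(3T) ∫_(t-r)^(t+r) ‖g u‖ du dt = ∫_(-r)^r ∫_T^(3T) ‖g (t + v)‖ dt dv` (substitution `u = t + v`, Fubini `intervalIntegral_integral_interval_swap` or `MeasureTheory.integral_integral_swap`, continuous functions)
`≤ 2 r ∫_(T/2)^(4T) ‖g‖` because `T/2 ≤ T + v`, `3T + v ≤ 4T`. (Alternative without Fubini: `H u = ∫_0^u ‖g‖` is monotone, `G t = H (t+r) - H (t-r)`, and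
`∫_T^(3T) (H (t+r) - H (t-r)) dt = ∫_(3T-r)^(3T+r) H - ∫_(T-r)^(T+r) H ≤ 2 r (H (4T) - H (T/2))`.) Finally Cauchy-Schwarz: `∫_(T/2)^(4T) ‖g‖ ≤ (7/2 T)^(1/2) (B^2 T)^(1/2) ≤ 2 B T`;
an elementary form: `2 x y ≤ x^2 + y^2` gives for every `lam > 0` `∫ ‖g‖ ≤ (lam/2) (7/2) T + (1/(2 lam)) B^2 T`, with `lam = B` (`B > 0`): `≤ (9/4) B T`; if `B = 0` then `∫ ‖g‖^2 = 0`, let `lam → 0` or use `∫ ‖g‖ = 0`.
So the measure is `≤ 2 r (9/4) B T / A ≤ 8 r B T / A`.
-/

namespace Pool.Agent.Lib.MP_ec260d_ntB.Y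

open MeasureTheory Set

private theorem win_markov {F : ℝ → ℝ} (hF : Continuous F) {a b c M : ℝ}
    (h0 : ∀ t ∈ Icc a b, 0 ≤ F t) (hab : a ≤ b) (hc : 0 < c) (hM : ∫ t in a..b, F t ≤ M) :
    volume {t : ℝ | t ∈ Icc a b ∧ c ≤ F t} ≤ ENNReal.ofReal (M / c) := by
  have h1 : volume {t : ℝ | t ∈ Icc a b ∧ c ≤ F t} ≤
      (volume.restrict (Icc a b)) {t : ℝ | ENNReal.ofReal c ≤ ENNReal.ofReal (F t)} := by
    rw [Measure.restrict_apply' measurableSet_Icc]
    refine measure_mono ?_
    rintro t ⟨ht1, ht2⟩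
    exact ⟨ENNReal.ofReal_le_ofReal ht2, ht1⟩
  refine h1.trans ?_
  have hm : AEMeasurable (fun t => ENNReal.ofReal (F t)) (volume.restrict (Icc a b)) :=
    (ENNReal.measurable_ofReal.comp hF.measurable).aemeasurable
  have hc1 : ENNReal.ofReal c ≠ 0 := by
    rw [Ne, ENNReal.ofReal_eq_zero, not_le]
    exact hc
  refine (meas_ge_le_lintegral_div hm hc1 ENNReal.ofReal_ne_top).trans ?_
  rw [ENNReal.ofReal_div_of_pos hc]
  refine ENNReal.div_le_div_right ?_ _
  have hi : Integrable F (volume.restrict (Icc a b)) := hF.continuousOn.integrableOn_Icc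
  rw [← ofReal_integral_eq_lintegral_ofReal hi
    ((ae_restrict_iff' measurableSet_Icc).2 (Filter.Eventually.of_forall h0))]
  refine ENNReal.ofReal_le_ofReal ?_
  rw [integral_Icc_eq_integral_Ioc, ← intervalIntegral.integral_of_le hab]
  exact hM

theorem cheb {f : ℝ → ℂ} (hf : Continuous f) {a b A M : ℝ} (hab : a ≤ b) (hA : 0 < A)
    (hM : ∫ t in a..b, ‖f t‖ ^ 2 ≤ M) :
    volume {t : ℝ | t ∈ Icc a b ∧ A < ‖f t‖} ≤ ENNReal.ofReal (M / A ^ 2) := by
  have h1 := win_markov (F := fun t => ‖f t‖ ^ 2) (by fun_prop) (a := a) (b := b) (c := A ^ 2)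
    (fun t _ => by positivity) hab (by positivity) hM
  refine (measure_mono ?_).trans h1
  rintro t ⟨ht1, ht2⟩
  exact ⟨ht1, pow_le_pow_left₀ hA.le ht2.le 2⟩

private theorem win_cs {u : ℝ → ℝ} (hu : Continuous u) {a b : ℝ} (hab : a < b) :
    (∫ t in a..b, u t) ^ 2 ≤ (b - a) * ∫ t in a..b, u t ^ 2 := by
  have hba : 0 < b - a := sub_pos.2 hab
  obtain ⟨m, hm⟩ : ∃ m, m = (∫ t in a..b, u t) / (b - a) := ⟨_, rfl⟩
  have h1 : 0 ≤ ∫ t in a..b, (u t - m) ^ 2 :=
    intervalIntegral.integral_nonneg hab.le fun t _ => sq_nonneg _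
  have i1 : IntervalIntegrable (fun t => u t ^ 2) volume a b := (hu.pow 2).intervalIntegrable _ _
  have i2 : IntervalIntegrable (fun t => 2 * m * u t) volume a b :=
    (continuous_const.mul hu).intervalIntegrable _ _
  have i3 : IntervalIntegrable (fun _ : ℝ => m ^ 2) volume a b :=
    continuous_const.intervalIntegrable _ _
  have h2 : ∫ t in a..b, (u t - m) ^ 2 =
      (∫ t in a..b, u t ^ 2) - 2 * m * (∫ t in a..b, u t) + m ^ 2 * (b - a) := by
    have e1 : (fun t => (u t - m) ^ 2) = fun t => (u t ^ 2 - 2 * m * u t) + m ^ 2 := by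
      funext t
      ring
    rw [e1, intervalIntegral.integral_add (i1.sub i2) i3, intervalIntegral.integral_sub i1 i2,
      intervalIntegral.integral_const_mul, intervalIntegral.integral_const, smul_eq_mul]
    ring
  rw [h2] at h1
  have h3 : (∫ t in a..b, u t) = m * (b - a) := by
    rw [hm, div_mul_cancel₀ _ hba.ne']
  rw [h3] at h1 ⊢
  have h4 : 0 ≤ (∫ t in a..b, u t ^ 2) - m ^ 2 * (b - a) := by nlinarith
  nlinarith

theorem win {f g : ℝ → ℂ} (hf : ∀ t, HasDerivAt f (g t) t) (hg : Continuous g) {T r A B : ℝ}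
    (hT : 0 < T) (hr : 0 ≤ r) (hrT : r ≤ T / 2) (hA : 0 < A) (hB : 0 ≤ B)
    (hM : ∫ t in (T / 2)..(4 * T), ‖g t‖ ^ 2 ≤ B ^ 2 * T) :
    volume {t : ℝ | t ∈ Icc T (3 * T) ∧ ∃ s : ℝ, |s - t| ≤ r ∧ A < ‖f s - f t‖} ≤
      ENNReal.ofReal (8 * r * B * T / A) := by
  have hn : Continuous fun x => ‖g x‖ := hg.norm
  have hii : ∀ a b, IntervalIntegrable (fun x => ‖g x‖) volume a b :=
    fun a b => hn.intervalIntegrable a b
  obtain ⟨H, hH⟩ : ∃ H : ℝ → ℝ, ∀ u, H u = ∫ x in (0 : ℝ)..u, ‖g x‖ := ⟨fun u => _, fun u => rfl⟩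
  have hHs : ∀ a b, H b - H a = ∫ x in a..b, ‖g x‖ := by
    intro a b
    rw [hH, hH]
    exact intervalIntegral.integral_interval_sub_left (hii 0 b) (hii 0 a)
  have hHc : Continuous H := by
    have : H = fun u => ∫ x in (0 : ℝ)..u, ‖g x‖ := funext hH
    rw [this]
    exact intervalIntegral.continuous_primitive hii 0
  have hHm : ∀ a b, a ≤ b → H a ≤ H b := by
    intro a b hab
    have h1 : 0 ≤ ∫ x in a..b, ‖g x‖ :=
      intervalIntegral.integral_nonneg hab fun t _ => norm_nonneg _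
    rw [← hHs] at h1
    linarith
  have hHi : ∀ a b, IntervalIntegrable H volume a b := fun a b => hHc.intervalIntegrable a b
  have hdiff : ∀ s t, |s - t| ≤ r → ‖f s - f t‖ ≤ H (t + r) - H (t - r) := by
    intro s t hst
    rw [abs_le] at hst
    have h1 : ∫ x in t..s, g x = f s - f t :=
      intervalIntegral.integral_eq_sub_of_hasDerivAt (fun x _ => hf x) (hg.intervalIntegrable _ _)
    rw [← h1]
    refine (intervalIntegral.norm_integral_le_abs_integral_norm).trans ?_
    rw [← hHs]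
    have h2 := hHm s (t + r) (by linarith [hst.2])
    have h3 := hHm (t - r) s (by linarith [hst.1])
    have h4 := hHm t (t + r) (by linarith)
    have h5 := hHm (t - r) t (by linarith)
    rw [abs_le]
    constructor <;> linarith
  have hG : ∫ t in T..(3 * T), (H (t + r) - H (t - r)) ≤ 2 * r * (H (4 * T) - H (T / 2)) := by
    have c1 : Continuous fun t => H (t + r) := hHc.comp (continuous_id.add continuous_const)
    have c2 : Continuous fun t => H (t - r) := hHc.comp (continuous_id.sub continuous_const)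
    rw [intervalIntegral.integral_sub (c1.intervalIntegrable _ _) (c2.intervalIntegrable _ _),
      intervalIntegral.integral_comp_add_right, intervalIntegral.integral_comp_sub_right]
    have e1 := intervalIntegral.integral_add_adjacent_intervals (hHi (T - r) (T + r))
      (hHi (T + r) (3 * T + r))
    have e2 := intervalIntegral.integral_add_adjacent_intervals (hHi (T - r) (3 * T - r))
      (hHi (3 * T - r) (3 * T + r))
    have b1 : ∫ x in (3 * T - r)..(3 * T + r), H x ≤ ∫ x in (3 * T - r)..(3 * T + r), H (4 * T) := by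
      refine intervalIntegral.integral_mono_on (by linarith) (hHi _ _)
        (continuous_const.intervalIntegrable _ _) fun x hx => hHm _ _ ?_
      linarith [hx.2]
    have b2 : ∫ x in (T - r)..(T + r), H (T / 2) ≤ ∫ x in (T - r)..(T + r), H x := by
      refine intervalIntegral.integral_mono_on (by linarith)
        (continuous_const.intervalIntegrable _ _) (hHi _ _) fun x hx => hHm _ _ ?_
      linarith [hx.1]
    rw [intervalIntegral.integral_const, smul_eq_mul] at b1 b2
    nlinarith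
  have hI : H (4 * T) - H (T / 2) ≤ 2 * B * T := by
    rw [hHs]
    have h1 := win_cs hn (a := T / 2) (b := 4 * T) (by linarith)
    have h2 : (∫ t in (T / 2)..(4 * T), ‖g t‖) ^ 2 ≤ (2 * B * T) ^ 2 := by
      refine h1.trans ?_
      have h3 : (4 * T - T / 2) * ∫ t in (T / 2)..(4 * T), ‖g t‖ ^ 2 ≤
          (4 * T - T / 2) * (B ^ 2 * T) := mul_le_mul_of_nonneg_left hM (by linarith)
      refine h3.trans ?_
      have h4 : 0 ≤ B ^ 2 * T ^ 2 := by positivity
      nlinarith
    exact le_of_sq_le_sq h2 (by positivity)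
  have hmk := win_markov (F := fun t => H (t + r) - H (t - r))
    ((hHc.comp (continuous_id.add continuous_const)).sub
      (hHc.comp (continuous_id.sub continuous_const))) (a := T) (b := 3 * T) (c := A)
    (fun t _ => by
      have := hHm (t - r) (t + r) (by linarith)
      linarith) (by linarith) hA (hG.trans (mul_le_mul_of_nonneg_left hI (by linarith)))
  refine (measure_mono ?_).trans (hmk.trans (ENNReal.ofReal_le_ofReal ?_))
  · rintro t ⟨ht, s, hs1, hs2⟩
    exact ⟨ht, (hs2.le).trans (hdiff s t hs1)⟩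
  · refine div_le_div_of_nonneg_right ?_ hA.le
    have h5 : 0 ≤ r * B * T := by positivity
    nlinarith

end Pool.Agent.Lib.MP_ec260d_ntB.Y
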