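import Pool.Agent.Lib.MP_ec260d_ntB.Y.SPDef
import Pool.Agent.Lib.MP_ec260d_ntB.Y.MV
import Pool.Agent.Lib.MP_ec260d_ntB.Y.Win

/-!
# Y/Ms: mean squares and oscillation of the polynomials `DP`

PROOF (complete). `n^(-(sW W T t)) = n^(-(1/2 + W/log T)) * n^(-(t I))` for `n ≥ 1` (`Complex.cpow_add`, `sW`), and the first factor has norm `≤ n^(-1/2)`.
* `ms`: `mv` with `N = T^(1/4)` (`Real.rpow`; `n ≤ N` from `log n ≤ log T / 4`), `a = T/2`, `b = 4T`, coefficients `c n * n^(-(1/2 + W/log T))`, whose norms squared are `≤ ‖c n‖^2 / n`.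
  `7/2 T + 2 T^(1/2) ≤ 4 T` because `4 T^(1/2) ≤ T` for `T ≥ 16` (`N^2 = T^(1/2) = sqrt T ≥ 4`).
* `DP_hd`: derivative of `n^(-(sW W T t)) = exp (-(log n) * sW W T t)` (`HasDerivAt.const_cpow` or via `exp`), `d/dt sW = I`.
* `DP_cont`, `DP_cont'`: continuity (from `DP_hd`).
* `val`: `cheb` on `[T, 3T]`, `∫_T^(3T) ≤ ∫_(T/2)^(4T)` (nonnegative), `ms`.
* `osc`: `win` with `r = L * hT T`, `g = DP S (fun n => c n * (-(I * Real.log n))) W T`, `ms` for these coefficients: `∫ ‖g‖^2 ≤ 4 T ∑ ‖c n‖^2 (log n)^2 / n ≤ B^2 T`.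
-/

namespace Pool.Agent.Lib.MP_ec260d_ntB.Y

open Complex MeasureTheory Set

private lemma ms_split {n : ℕ} (hn : 1 ≤ n) (W T t : ℝ) :
    (n : ℂ) ^ (-(sW W T t)) =
      (n : ℂ) ^ (-((1 / 2 + W / Real.log T : ℝ) : ℂ)) * (n : ℂ) ^ (-((t : ℂ) * I)) := by
  have hn0 : (n : ℂ) ≠ 0 := by
    rw [Nat.cast_ne_zero]; omega
  rw [← Complex.cpow_add _ _ hn0]
  congr 1
  unfold sW
  ring

private lemma ms_norm {n : ℕ} (hn : 1 ≤ n) {W T : ℝ} (hT : 16 ≤ T) (hW : 0 ≤ W) :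
    ‖(n : ℂ) ^ (-((1 / 2 + W / Real.log T : ℝ) : ℂ))‖ ^ 2 ≤ 1 / (n : ℝ) := by
  have hl : 0 < Real.log T := Real.log_pos (by linarith)
  have hn1 : (1 : ℝ) ≤ n := by exact_mod_cast hn
  have hn0 : (0 : ℝ) < n := by linarith
  rw [← Complex.ofReal_neg, Complex.norm_natCast_cpow_of_pos (by omega), Complex.ofReal_re,
    ← Real.rpow_natCast, ← Real.rpow_mul hn0.le]
  have h1 : -(1 / 2 + W / Real.log T) * ((2 : ℕ) : ℝ) ≤ -1 := by
    have : 0 ≤ W / Real.log T := by positivity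
    push_cast
    linarith
  calc (n : ℝ) ^ (-(1 / 2 + W / Real.log T) * ((2 : ℕ) : ℝ)) ≤ (n : ℝ) ^ (-1 : ℝ) :=
        Real.rpow_le_rpow_of_exponent_le hn1 h1
    _ = 1 / (n : ℝ) := by rw [Real.rpow_neg_one, one_div]

theorem ms {T W : ℝ} (hT : 16 ≤ T) (hW : 0 ≤ W) {S : Finset ℕ}
    (hS : ∀ n ∈ S, 1 ≤ n ∧ Real.log n ≤ Real.log T / 4) (c : ℕ → ℂ) :
    ∫ t in (T / 2)..(4 * T), ‖DP S c W T t‖ ^ 2 ≤ 4 * T * ∑ n ∈ S, ‖c n‖ ^ 2 / n := by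
  have hT0 : 0 < T := by linarith
  have hcong : (∫ t in (T / 2)..(4 * T), ‖DP S c W T t‖ ^ 2) =
      ∫ t in (T / 2)..(4 * T), ‖∑ n ∈ S, (c n * (n : ℂ) ^ (-((1 / 2 + W / Real.log T : ℝ) : ℂ))) *
        (n : ℂ) ^ (-((t : ℂ) * I))‖ ^ 2 := by
    apply intervalIntegral.integral_congr
    intro t _
    simp only
    congr 2
    unfold DP
    apply Finset.sum_congr rfl
    intro n hn
    rw [ms_split (hS n hn).1 W T t, mul_assoc]
  rw [hcong]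
  have hN4 : (Real.exp (Real.log T / 4) ^ 2) ^ 2 = T := by
    rw [← pow_mul, ← Real.exp_nat_mul]
    have : ((2 * 2 : ℕ) : ℝ) * (Real.log T / 4) = Real.log T := by push_cast; ring
    rw [this, Real.exp_log hT0]
  have hN2 : 4 ≤ Real.exp (Real.log T / 4) ^ 2 := by
    have h0 : 0 < Real.exp (Real.log T / 4) ^ 2 := by positivity
    nlinarith
  have hN3 : 2 * Real.exp (Real.log T / 4) ^ 2 ≤ T / 2 := by nlinarith
  have h1 := mv S (Real.exp (Real.log T / 4)) (fun n hn => ⟨(hS n hn).1, by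
      have hn0 : (0 : ℝ) < n := by exact_mod_cast (hS n hn).1
      rw [← Real.exp_log hn0]
      exact Real.exp_le_exp.mpr (hS n hn).2⟩)
    (fun n => c n * (n : ℂ) ^ (-((1 / 2 + W / Real.log T : ℝ) : ℂ))) (a := T / 2) (b := 4 * T) (by linarith)
  refine h1.trans ?_
  have h2 : ∑ n ∈ S, ‖c n * (n : ℂ) ^ (-((1 / 2 + W / Real.log T : ℝ) : ℂ))‖ ^ 2
      ≤ ∑ n ∈ S, ‖c n‖ ^ 2 / n := by
    apply Finset.sum_le_sum
    intro n hn
    rw [norm_mul, mul_pow, div_eq_mul_one_div (‖c n‖ ^ 2) (n : ℝ)]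
    exact mul_le_mul_of_nonneg_left (ms_norm (hS n hn).1 hT hW) (sq_nonneg _)
  have h3 : (0 : ℝ) ≤ ∑ n ∈ S, ‖c n * (n : ℂ) ^ (-((1 / 2 + W / Real.log T : ℝ) : ℂ))‖ ^ 2 :=
    Finset.sum_nonneg (fun n _ => sq_nonneg _)
  have h4 : (4 * T - T / 2) + 2 * Real.exp (Real.log T / 4) ^ 2 ≤ 4 * T := by linarith
  exact mul_le_mul h4 h2 h3 (by linarith)

theorem DP_hd {T W : ℝ} {S : Finset ℕ} (hS : ∀ n ∈ S, 1 ≤ n) (c : ℕ → ℂ) (t : ℝ) :
    HasDerivAt (DP S c W T) (DP S (fun n => c n * (-(I * (Real.log n : ℂ)))) W T t) t := by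
  unfold DP
  apply HasDerivAt.fun_sum
  intro n hn
  have hn0 : (n : ℂ) ≠ 0 := by
    have := hS n hn
    rw [Nat.cast_ne_zero]; omega
  have h1 : HasDerivAt (fun z : ℂ => -(((1 / 2 + W / Real.log T : ℝ) : ℂ) + z * I)) (-(1 * I)) (t : ℂ) :=
    (((hasDerivAt_id (t : ℂ)).mul_const I).const_add _).neg
  have h2 := h1.const_cpow (c := (n : ℂ)) (Or.inl hn0)
  have h3 := h2.comp_ofReal
  have h4 := h3.const_mul (c n)
  have h5 : c n * -(I * (Real.log n : ℂ)) * (n : ℂ) ^ (-(sW W T t)) =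
      c n * ((n : ℂ) ^ (-(((1 / 2 + W / Real.log T : ℝ) : ℂ) + (t : ℂ) * I)) * Complex.log (n : ℂ) *
        -(1 * I)) := by
    rw [Complex.natCast_log]
    unfold sW
    ring
  rw [h5]
  exact h4

private lemma ms_cont {T W : ℝ} {S : Finset ℕ} (hS : ∀ n ∈ S, 1 ≤ n) (c : ℕ → ℂ) :
    Continuous (DP S c W T) :=
  continuous_iff_continuousAt.mpr (fun t => (DP_hd hS c t).continuousAt)

theorem DP_cont {T W : ℝ} {S : Finset ℕ} (hS : ∀ n ∈ S, 1 ≤ n) (c : ℕ → ℂ) :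
    Continuous (DP S c W T) := ms_cont hS c

theorem val {T W A : ℝ} (hT : 16 ≤ T) (hW : 0 ≤ W) (hA : 0 < A) {S : Finset ℕ}
    (hS : ∀ n ∈ S, 1 ≤ n ∧ Real.log n ≤ Real.log T / 4) (c : ℕ → ℂ) {V : ℝ}
    (hV : ∑ n ∈ S, ‖c n‖ ^ 2 / n ≤ V) :
    volume {t : ℝ | t ∈ Icc T (3 * T) ∧ A < ‖DP S c W T t‖} ≤ ENNReal.ofReal (4 * T * V / A ^ 2) := by
  have hc := DP_cont (T := T) (W := W) (fun n hn => (hS n hn).1) c
  apply cheb hc (by linarith) hA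
  have h1 : (∫ t in T..(3 * T), ‖DP S c W T t‖ ^ 2) ≤ ∫ t in (T / 2)..(4 * T), ‖DP S c W T t‖ ^ 2 := by
    apply intervalIntegral.integral_mono_interval (by linarith) (by linarith) (by linarith)
    · exact Filter.Eventually.of_forall (fun t => sq_nonneg _)
    · exact (hc.norm.pow 2).intervalIntegrable _ _
  have h2 := ms hT hW hS c
  have h3 : 4 * T * ∑ n ∈ S, ‖c n‖ ^ 2 / n ≤ 4 * T * V := mul_le_mul_of_nonneg_left hV (by linarith)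
  linarith

theorem osc {T W L A B : ℝ} (h16 : 16 ≤ T) (hW : 0 ≤ W) (hL : 0 ≤ L) (hLT : L * hT T ≤ T / 2)
    (hA : 0 < A) (hB : 0 ≤ B) {S : Finset ℕ}
    (hS : ∀ n ∈ S, 1 ≤ n ∧ Real.log n ≤ Real.log T / 4) (c : ℕ → ℂ)
    (hc : 4 * ∑ n ∈ S, ‖c n‖ ^ 2 * Real.log n ^ 2 / n ≤ B ^ 2) :
    volume {t : ℝ | t ∈ Icc T (3 * T) ∧ ∃ s : ℝ, |s - t| ≤ L * hT T ∧
      A < ‖DP S c W T s - DP S c W T t‖} ≤ ENNReal.ofReal (8 * (L * hT T) * B * T / A) := by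
  have hS1 : ∀ n ∈ S, 1 ≤ n := fun n hn => (hS n hn).1
  have hh : 0 ≤ hT T := by
    unfold hT
    have hl : 0 < Real.log T := Real.log_pos (by linarith)
    positivity
  apply win (fun t => DP_hd hS1 c t) (DP_cont hS1 _) (by linarith) (mul_nonneg hL hh) hLT hA hB
  refine (ms h16 hW hS _).trans ?_
  have h1 : ∑ n ∈ S, ‖c n * (-(I * (Real.log n : ℂ)))‖ ^ 2 / n = ∑ n ∈ S, ‖c n‖ ^ 2 * Real.log n ^ 2 / n := by
    apply Finset.sum_congr rfl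
    intro n _
    rw [norm_mul, norm_neg, norm_mul, Complex.norm_I, one_mul, Complex.norm_real, Real.norm_eq_abs,
      mul_pow, sq_abs]
  rw [h1]
  nlinarith

end Pool.Agent.Lib.MP_ec260d_ntB.Y
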