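import Pool.Agent.Lib.MP_ec260d_ntB.Y.YBlockA

/-!
# Y/YBlock: the block sums are small on windows

PROOF (complete). Let `b_j = bet δ j = δ exp (-j)`, `D_j = dd δ j / (100 (k+1)) ≥ b_j^(-3/4) / (100 (k+1))` (`Nat.le_ceil`), `T ≥ 16`, `L hT T ≤ T/2`. `YB δ W T j t = (1/π) Im (DP (Pr δ T j) 1 W T t)` (by definition), so `|YB| ≤ (1/3) ‖DP‖` and in particular `|YB| ≤ ‖DP‖`.
* one block (`block_one`): if `∃ s, |s - t| ≤ L hT T` with `D_j < |YB j s|` then `D_j / 2 < ‖DP (Pr j) 1 t‖` or `D_j / 2 < ‖DP (Pr j) 1 s - DP (Pr j) 1 t‖`. First event: `val` with `V = 3` (`a0_block`): `≤ 48 T / D_j^2`.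
  Second event: `osc` with `B = 4 b_j log T`: `4 ∑_(Pr j) (log p)^2/p ≤ 4 (b_j log T)^2 ∑ 1/p ≤ 12 (b_j log T)^2 ≤ B^2` (`log p ≤ b_j log T` by `mem_Pr`, `log_xs`): `≤ 8 L hT 4 b_j log T T 2 / D_j = 128 π L b_j T / D_j`.
  Members of `Pr δ T j`: `1 ≤ p`, `log p ≤ δ log T ≤ log T / 4` (`δ ≤ 1/100`).
  So the measure for the block `j` is `≤ T (48 · 10^4 (k+1)^2 b_j^(3/2) + 12800 π L (k+1) b_j^(7/4)) ≤ T (480000 (k+1)^2 + 50000 L (k+1)) b_j^(3/2)` (`b_j ≤ 1`).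
* sum over `j < JJ T` (`measure_biUnion_finset_le`): `∑_j b_j^(3/2) ≤ δ^(3/2) ∑_j exp (-3j/2) ≤ 2 δ^(3/2)` (geometric series, ratio `exp (-3/2) ≤ 1/4`... `≤ 1/2` is enough). Choose `δ₁ ≤ 1/100` with `(480000 (k+1)^2 + 50000 L (k+1)) 2 δ₁^(3/2) ≤ ε`
  (for instance `δ₁ = min (1/100) (ε / (2 (480000 (k+1)^2 + 50000 L (k+1))))`, as `δ^(3/2) ≤ δ`).
-/

namespace Pool.Agent.Lib.MP_ec260d_ntB.Y

open Complex MeasureTheory Set

private theorem yblock_bet {δ : ℝ} (hδ : 0 < δ) (hδ1 : δ ≤ 1) (j : ℕ) :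
    bet δ j ^ (3 / 2 : ℝ) ≤ δ * (1 / 2 : ℝ) ^ j := by
  have hb := bet_pos hδ j
  have hb1 := bet_le hδ j
  have h1 : bet δ j ^ (3 / 2 : ℝ) ≤ bet δ j ^ (1 : ℝ) :=
    Real.rpow_le_rpow_of_exponent_ge hb (hb1.trans hδ1) (by norm_num)
  rw [Real.rpow_one] at h1
  refine h1.trans ?_
  unfold bet
  apply mul_le_mul_of_nonneg_left _ hδ.le
  have h2 : Real.exp (-(j : ℝ)) = Real.exp (-1) ^ j := by
    rw [← Real.exp_nat_mul]; congr 1; ring
  rw [h2]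
  apply pow_le_pow_left₀ (Real.exp_pos _).le
  rw [Real.exp_neg, one_div]
  apply inv_anti₀ (by norm_num)
  have := Real.add_one_le_exp (1 : ℝ)
  linarith

theorem y_block (k : ℕ) (L ε : ℝ) (hL : 0 ≤ L) (hε : 0 < ε) :
    ∃ δ₁ : ℝ, 0 < δ₁ ∧ ∀ δ : ℝ, 0 < δ → δ ≤ δ₁ → ∀ W : ℝ, 1 ≤ W → ∃ T₀ : ℝ, 2 ≤ T₀ ∧ ∀ T : ℝ, T₀ ≤ T →
      volume {t : ℝ | t ∈ Icc T (3 * T) ∧ ∃ s : ℝ, |s - t| ≤ L * hT T ∧
        ∃ j ∈ Finset.range (JJ T), (dd δ j : ℝ) / (100 * ((k : ℝ) + 1)) < |YB δ W T j s|} ≤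
          ENNReal.ofReal (ε * T) := by
  set A : ℝ := 480000 * ((k : ℝ) + 1) ^ 2 + 50000 * L * ((k : ℝ) + 1) with hA
  have hk : (0 : ℝ) ≤ k := Nat.cast_nonneg k
  have hA0 : 0 < A := by positivity
  refine ⟨min (1 / 100) (ε / (2 * A)), lt_min (by norm_num) (by positivity), ?_⟩
  intro δ hδ hδ1 W hW
  have hδ100 : δ ≤ 1 / 100 := hδ1.trans (min_le_left _ _)
  have hδA : δ ≤ ε / (2 * A) := hδ1.trans (min_le_right _ _)
  refine ⟨max 16 (8 * L), le_trans (by norm_num) (le_max_left _ _), ?_⟩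
  intro T hTT
  have h16 : 16 ≤ T := (le_max_left _ _).trans hTT
  have h8L : 8 * L ≤ T := (le_max_right _ _).trans hTT
  have hT0 : 0 < T := by linarith
  have hlog : 2 ≤ Real.log T := by
    rw [Real.le_log_iff_exp_le hT0]
    have h1 : Real.exp 1 < 2.7182818286 := Real.exp_one_lt_d9
    have h0 := Real.exp_pos 1
    have h2 : Real.exp 2 = Real.exp 1 * Real.exp 1 := by
      rw [← Real.exp_add]; norm_num
    rw [h2]
    nlinarith
  have hh : hT T ≤ 4 := by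
    unfold hT
    rw [div_le_iff₀ (by linarith)]
    have := Real.pi_lt_d2
    linarith
  have hLT : L * hT T ≤ T / 2 := by
    have := mul_le_mul_of_nonneg_left hh hL
    linarith
  have hsub : {t : ℝ | t ∈ Icc T (3 * T) ∧ ∃ s : ℝ, |s - t| ≤ L * hT T ∧
        ∃ j ∈ Finset.range (JJ T), (dd δ j : ℝ) / (100 * ((k : ℝ) + 1)) < |YB δ W T j s|} ⊆
      ⋃ j ∈ Finset.range (JJ T), {t : ℝ | t ∈ Icc T (3 * T) ∧ ∃ s : ℝ, |s - t| ≤ L * hT T ∧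
        (dd δ j : ℝ) / (100 * ((k : ℝ) + 1)) < |YB δ W T j s|} := by
    rintro t ⟨ht, s, hs, j, hj, hlt⟩
    rw [Set.mem_iUnion₂]
    exact ⟨j, hj, ht, s, hs, hlt⟩
  refine (measure_mono hsub).trans ((measure_biUnion_finset_le _ _).trans ?_)
  refine (Finset.sum_le_sum (fun j _ => block_one k hδ hδ100 (by linarith) h16 hL hLT j)).trans ?_
  rw [← ENNReal.ofReal_sum_of_nonneg (fun j _ => by
    have := bet_pos hδ j
    positivity)]
  apply ENNReal.ofReal_le_ofReal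
  have hg : ∑ j ∈ Finset.range (JJ T), (1 / 2 : ℝ) ^ j ≤ 2 := sum_geometric_two_le _
  calc ∑ j ∈ Finset.range (JJ T), T * (A * bet δ j ^ (3 / 2 : ℝ))
      ≤ ∑ j ∈ Finset.range (JJ T), T * (A * (δ * (1 / 2 : ℝ) ^ j)) := by
        apply Finset.sum_le_sum
        intro j _
        apply mul_le_mul_of_nonneg_left _ hT0.le
        exact mul_le_mul_of_nonneg_left (yblock_bet hδ (by linarith) j) hA0.le
    _ = T * (A * δ) * ∑ j ∈ Finset.range (JJ T), (1 / 2 : ℝ) ^ j := by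
        rw [Finset.mul_sum]
        apply Finset.sum_congr rfl
        intro j _
        ring
    _ ≤ T * (A * δ) * 2 := mul_le_mul_of_nonneg_left hg (by positivity)
    _ ≤ ε * T := by
        rw [le_div_iff₀ (by positivity)] at hδA
        nlinarith

end Pool.Agent.Lib.MP_ec260d_ntB.Y
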