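import Pool.Agent.Lib.MP_ec260d_ntB.Y.Sq

/-!
# Y/YFlat: `YY` and the sum of the blocks (with another `δ'`)

PROOF (complete). `T₀` such that for `T ≥ T₀`: `T ≥ 16`, `L hT T ≤ T/2`, `δ' log T ≥ 1`. By `YB_sum` (for `δ'`) and `yy_dec` (for `δ`), with `S = SP δ T \ SP δ' T` (`SP_mono`: `DP (SP δ T) 1 = DP (SP δ' T) 1 + DP S 1`, `Finset.sum_sdiff`):
`|YY δ s - ∑_j YB δ' s| ≤ ‖DP S 1 s‖ + (1/2) ‖DP S2 1 s‖ + 20003`. For `|s - t| ≤ L hT T`: `‖DP S2 1 s‖ ≤ ‖DP S2 1 t‖ + 110 L` (`sq_osc`), `‖DP S 1 s‖ ≤ ‖DP S 1 t‖ + ‖DP S 1 s - DP S 1 t‖`.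
Let `A' = 1 + (3/ε) (16 π L + 4 (δ/δ' + 8) + 4)`, `A = 3 A' + 110 L + 20004`. The event is contained in the union of `{A' < ‖DP S 1 t‖}` (`val` with `V = δ/δ' + 8`, `SP_diff`: measure `≤ 4 T V / A'^2 ≤ 4 T V / A' ≤ ε T / 3`),
`{∃ s, A' < ‖DP S 1 s - DP S 1 t‖}` (`sp_osc`: `≤ 16 π L T / A' ≤ ε T / 3`) and `{A' < ‖DP S2 1 t‖}` (`sq_val`: `≤ 4 T / A'^2 ≤ ε T / 3`). `measure_union_le`, `ENNReal.ofReal_add`.
-/

namespace Pool.Agent.Lib.MP_ec260d_ntB.Y

open Complex MeasureTheory Set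

theorem y_flat (δ δ' W L ε : ℝ) (hδ : 0 < δ) (hδ1 : δ ≤ 1 / 100) (hδ' : 0 < δ') (hδδ : δ' ≤ δ)
    (hW : 1 ≤ W) (hL : 0 ≤ L) (hε : 0 < ε) :
    ∃ A T₀ : ℝ, 1 ≤ A ∧ 2 ≤ T₀ ∧ ∀ T : ℝ, T₀ ≤ T →
      volume {t : ℝ | t ∈ Icc T (3 * T) ∧ ∃ s : ℝ, |s - t| ≤ L * hT T ∧
        A < |YY δ W T s - ∑ j ∈ Finset.range (JJ T), YB δ' W T j s|} ≤ ENNReal.ofReal (ε * T) := by
  have hpi := Real.pi_pos
  set V : ℝ := δ / δ' + 8 with hV
  have hV0 : 0 ≤ V := by
    rw [hV]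
    positivity
  set A' : ℝ := 1 + (3 / ε) * (16 * Real.pi * L + 4 * V + 4) with hA'
  have hA'1 : 1 ≤ A' := by
    rw [hA']
    have : 0 ≤ (3 / ε) * (16 * Real.pi * L + 4 * V + 4) := by positivity
    linarith
  have hA'0 : 0 < A' := by linarith
  have hεA : 3 * (16 * Real.pi * L + 4 * V + 4) ≤ ε * A' := by
    have e1 : ε * A' = ε + 3 * (16 * Real.pi * L + 4 * V + 4) := by
      rw [hA']
      field_simp
    linarith
  refine ⟨3 * A' + 110 * L + 20004, max (max 16 (4 * Real.pi * L)) (Real.exp (1 / δ')),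
    by nlinarith, le_trans (by norm_num) ((le_max_left _ _).trans (le_max_left _ _)), ?_⟩
  intro T hTT
  have h16 : 16 ≤ T := ((le_max_left _ _).trans (le_max_left _ _)).trans hTT
  have h4 : 4 * Real.pi * L ≤ T := ((le_max_right _ _).trans (le_max_left _ _)).trans hTT
  have hexp : Real.exp (1 / δ') ≤ T := (le_max_right _ _).trans hTT
  have hT3 : 3 ≤ T := by linarith
  have hT0 : 0 < T := by linarith
  have hW0 : 0 ≤ W := by linarith
  have hδ1' : δ ≤ 1 := by linarith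
  have hlog : 1 ≤ Real.log T := by
    rw [Real.le_log_iff_exp_le (by linarith)]
    exact (Real.exp_one_lt_d9.le.trans (by norm_num)).trans hT3
  have hlog' : 1 ≤ δ' * Real.log T := by
    have h5 : 1 / δ' ≤ Real.log T := by
      rw [Real.le_log_iff_exp_le hT0]
      exact hexp
    rw [div_le_iff₀ hδ'] at h5
    linarith
  have hLT : L * hT T ≤ T / 2 := by
    have h5 : hT T ≤ 2 * Real.pi := by
      unfold hT
      exact div_le_self (by positivity) hlog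
    have h6 := mul_le_mul_of_nonneg_left h5 hL
    linarith
  set S : Finset ℕ := SP δ T \ SP δ' T with hS
  have hSsub : S ⊆ SP δ T := Finset.sdiff_subset
  have hSmem : ∀ n ∈ S, 1 ≤ n ∧ Real.log n ≤ Real.log T / 4 := by
    intro n hn
    obtain ⟨h1, h2, h3⟩ := (mem_SP hδ hδ1' hT3).1 (hSsub hn)
    refine ⟨by omega, h3.trans ?_⟩
    nlinarith
  have hsplit : ∀ s, DP (SP δ T) (fun _ => 1) W T s =
      DP S (fun _ => 1) W T s + DP (SP δ' T) (fun _ => 1) W T s := by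
    intro s
    unfold DP
    rw [hS, Finset.sum_sdiff (SP_mono hδ' hδδ hδ1' hT3)]
  have hsub : {t : ℝ | t ∈ Icc T (3 * T) ∧ ∃ s : ℝ, |s - t| ≤ L * hT T ∧
        3 * A' + 110 * L + 20004 < |YY δ W T s - ∑ j ∈ Finset.range (JJ T), YB δ' W T j s|} ⊆
      {t : ℝ | t ∈ Icc T (3 * T) ∧ A' < ‖DP S (fun _ => 1) W T t‖} ∪
      ({t : ℝ | t ∈ Icc T (3 * T) ∧ ∃ s : ℝ, |s - t| ≤ L * hT T ∧
        A' < ‖DP S (fun _ => 1) W T s - DP S (fun _ => 1) W T t‖} ∪
      {t : ℝ | t ∈ Icc T (3 * T) ∧ A' < ‖DP (S2 δ T) (fun _ => 1) W T t‖}) := by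
    rintro t ⟨ht, s, hs, hlt⟩
    by_contra hnot
    rw [mem_union, mem_union, not_or, not_or] at hnot
    obtain ⟨n1, n2, n3⟩ := hnot
    have b1 : ‖DP S (fun _ => 1) W T t‖ ≤ A' := by
      by_contra h
      exact n1 ⟨ht, not_le.1 h⟩
    have b2 : ‖DP S (fun _ => 1) W T s - DP S (fun _ => 1) W T t‖ ≤ A' := by
      by_contra h
      exact n2 ⟨ht, s, hs, not_le.1 h⟩
    have b3 : ‖DP (S2 δ T) (fun _ => 1) W T t‖ ≤ A' := by
      by_contra h
      exact n3 ⟨ht, not_le.1 h⟩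
    have h1 := yy_dec hδ hδ1' hW0 hT3 s
    have h3 := sq_osc hδ hδ1 hW0 h16 hL hs
    rw [YB_sum hδ' (by linarith : (1 : ℝ) ≤ T) W s] at hlt
    rw [hsplit s] at h1
    set P1 := DP S (fun _ => 1) W T s with hP1
    set P2 := DP S (fun _ => 1) W T t with hP2
    set R1 := DP (SP δ' T) (fun _ => 1) W T s with hR1
    set Q1 := DP (S2 δ T) (fun _ => 1) W T s with hQ1
    set Q2 := DP (S2 δ T) (fun _ => 1) W T t with hQ2
    have c1 : ‖P1‖ ≤ 2 * A' := by
      have h5 : P1 = (P1 - P2) + P2 := by ring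
      rw [h5]
      refine (norm_add_le _ _).trans ?_
      linarith
    have c2 : ‖Q1‖ ≤ A' + 110 * L := by
      have h5 : Q1 = (Q1 - Q2) + Q2 := by ring
      rw [h5]
      refine (norm_add_le _ _).trans ?_
      linarith
    have h8 : 1 / Real.pi ≤ 1 := by
      rw [div_le_one hpi]
      linarith [Real.pi_gt_three]
    have h6 : |(1 / Real.pi) * (P1 + R1 + (1 / 2) * Q1).im - (1 / Real.pi) * R1.im| ≤
        ‖P1‖ + (1 / 2) * ‖Q1‖ := by
      have h7 : (1 / Real.pi) * (P1 + R1 + (1 / 2) * Q1).im - (1 / Real.pi) * R1.im =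
          (1 / Real.pi) * (P1 + (1 / 2) * Q1).im := by
        rw [Complex.add_im, Complex.add_im, Complex.add_im]
        ring
      rw [h7, abs_mul, abs_of_pos (by positivity : (0 : ℝ) < 1 / Real.pi)]
      have h9 : |(P1 + (1 / 2) * Q1).im| ≤ ‖P1‖ + (1 / 2) * ‖Q1‖ := by
        refine (Complex.abs_im_le_norm _).trans ((norm_add_le _ _).trans ?_)
        rw [norm_mul]
        have h10 : ‖(1 / 2 : ℂ)‖ = 1 / 2 := by simp
        rw [h10]
      have h11 : 1 / Real.pi * |(P1 + (1 / 2) * Q1).im| ≤ 1 * |(P1 + (1 / 2) * Q1).im| :=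
        mul_le_mul_of_nonneg_right h8 (abs_nonneg _)
      linarith
    have h12 : |YY δ W T s - (1 / Real.pi) * R1.im| ≤
        |YY δ W T s - (1 / Real.pi) * (P1 + R1 + (1 / 2) * Q1).im| +
        |(1 / Real.pi) * (P1 + R1 + (1 / 2) * Q1).im - (1 / Real.pi) * R1.im| := by
      refine le_trans (le_of_eq ?_) (abs_add_le _ _)
      congr 1
      ring
    linarith
  -- the three measures
  have m1 := val (T := T) (W := W) (A := A') h16 hW0 hA'0 hSmem (fun _ => 1) (V := V) (by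
    have h5 := SP_diff hδ' hδδ hδ1' hT3 hlog'
    rw [← hS, ← hV] at h5
    refine le_trans (le_of_eq ?_) h5
    refine Finset.sum_congr rfl fun n _ => ?_
    rw [norm_one, one_pow])
  have m2 := sp_osc hδ hδ1 hW0 h16 hL hLT hA'0 hSsub
  have m3 := sq_val hδ hδ1 hW0 h16 hA'0
  have k0 : 0 ≤ ε * T / 3 := by positivity
  have k1 : 4 * T * V / A' ^ 2 ≤ ε * T / 3 := by
    have h5 : 4 * T * V / A' ^ 2 ≤ 4 * T * V / A' := by
      refine div_le_div_of_nonneg_left (by positivity) hA'0 ?_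
      nlinarith
    refine h5.trans ?_
    rw [div_le_iff₀ hA'0]
    have h6 : 12 * V ≤ ε * A' := by
      have : 0 ≤ 16 * Real.pi * L := by positivity
      linarith
    have h7 := mul_le_mul_of_nonneg_right h6 hT0.le
    linarith
  have k2 : 16 * Real.pi * L * T / A' ≤ ε * T / 3 := by
    rw [div_le_iff₀ hA'0]
    have h6 : 48 * Real.pi * L ≤ ε * A' := by linarith
    have h7 := mul_le_mul_of_nonneg_right h6 hT0.le
    linarith
  have k3 : 4 * T / A' ^ 2 ≤ ε * T / 3 := by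
    have h5 : 4 * T / A' ^ 2 ≤ 4 * T / A' := by
      refine div_le_div_of_nonneg_left (by positivity) hA'0 ?_
      nlinarith
    refine h5.trans ?_
    rw [div_le_iff₀ hA'0]
    have h6 : 12 ≤ ε * A' := by
      have : 0 ≤ 16 * Real.pi * L := by positivity
      linarith
    have h7 := mul_le_mul_of_nonneg_right h6 hT0.le
    linarith
  refine (measure_mono hsub).trans ((measure_union_le _ _).trans ?_)
  have hsum : ENNReal.ofReal (ε * T) = ENNReal.ofReal (ε * T / 3) +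
      (ENNReal.ofReal (ε * T / 3) + ENNReal.ofReal (ε * T / 3)) := by
    rw [← ENNReal.ofReal_add k0 k0, ← ENNReal.ofReal_add k0 (by positivity)]
    congr 1
    ring
  rw [hsum]
  refine add_le_add (m1.trans (ENNReal.ofReal_le_ofReal k1)) ((measure_union_le _ _).trans ?_)
  exact add_le_add (m2.trans (ENNReal.ofReal_le_ofReal k2)) (m3.trans (ENNReal.ofReal_le_ofReal k3))

end Pool.Agent.Lib.MP_ec260d_ntB.Y
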