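import Pool.Agent.Lib.MP_ec260d_ntB.Y.SPa

/-!
# Y/SPs: the variance of the increments

PROOF (complete). By `mem_SP` the primes of `SP δ T` satisfy `10000 < p`, `log p ≤ δ log T`.
* `SP_shift`: for `0 ≤ u`: `‖p^(-u I) - 1‖ ≤ min 2 (u log p)` (`|exp (i x) - 1| ≤ |x|`: `Real.norm_exp_I_mul_ofReal_sub_one_le` or `Complex.norm_exp_I_mul_ofReal_sub_one_le`... ). Split `SP δ T` into `log p ≤ a` and `log p > a`
  with `a = max (1/u) 1` (if `u = 0` all terms vanish). First part: if `1/u ≥ 1` (`a = 1/u`): `u^2 ∑ (log p)^2/p ≤ u^2 a (a + 8) = 1 + 8 u ≤ 9` (`a0_logsq`); if `1/u < 1` there is no prime `> 10000` with `log p ≤ 1` (`log10000`: `9 ≤ log 10000`).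
  Second part: if `a ≤ δ log T`: `4 ∑ 1/p ≤ 4 * 19 (2 + log (δ log T / a))` (`a0_inv_log`, `a ≥ 1/2`), `δ log T / a ≤ u log T` or (when `a = 1`, i.e. `u ≥ 1`) `≤ log T ≤ u log T`; if `δ log T < a` it is empty. Total `≤ 9 + 152 + 76 log (2 + u log T) ≤ 400 log (2 + u log T)` because `log 2 ≥ 0.69`.
-/

namespace Pool.Agent.Lib.MP_ec260d_ntB.Y

open Complex

private theorem SPs_norm {p : ℕ} (hp : 0 < p) (u : ℝ) (hu : 0 ≤ u) :
    ‖(p : ℂ) ^ (-((u : ℂ) * I)) - 1‖ ≤ u * Real.log p ∧ ‖(p : ℂ) ^ (-((u : ℂ) * I)) - 1‖ ≤ 2 := by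
  have hp0 : (p : ℂ) ≠ 0 := by exact_mod_cast hp.ne'
  have hl : 0 ≤ Real.log p := Real.log_natCast_nonneg p
  have h1 : (p : ℂ) ^ (-((u : ℂ) * I)) = Complex.exp (I * ((-(u * Real.log p) : ℝ) : ℂ)) := by
    rw [Complex.cpow_def_of_ne_zero hp0, ← Complex.natCast_log]
    congr 1
    push_cast
    ring
  have h2 : ‖Complex.exp (I * ((-(u * Real.log p) : ℝ) : ℂ))‖ = 1 := by
    rw [mul_comm]
    exact Complex.norm_exp_ofReal_mul_I _
  constructor
  · rw [h1]
    refine Real.norm_exp_I_mul_ofReal_sub_one_le.trans ?_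
    rw [norm_neg, Real.norm_eq_abs, abs_of_nonneg (mul_nonneg hu hl)]
  · rw [h1]
    refine (norm_sub_le _ _).trans ?_
    rw [h2, norm_one]
    norm_num

theorem SP_shift {δ T u : ℝ} (hδ : 0 < δ) (hδ1 : δ ≤ 1) (hT : 3 ≤ T) (hu : 0 ≤ u) :
    ∑ p ∈ SP δ T, ‖(p : ℂ) ^ (-((u : ℂ) * I)) - 1‖ ^ 2 / p ≤
      400 * Real.log (2 + u * Real.log T) := by
  have hL : 1 ≤ Real.log T := by
    rw [Real.le_log_iff_exp_le (by linarith)]
    have h := Real.exp_one_lt_d9
    linarith
  set L := Real.log T with hLdef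
  have hlog2 : 0.69 ≤ Real.log (2 + u * L) := by
    have h1 := Real.log_two_gt_d9
    have h2 : Real.log 2 ≤ Real.log (2 + u * L) :=
      Real.log_le_log (by norm_num) (by nlinarith [mul_nonneg hu (by linarith : (0 : ℝ) ≤ L)])
    linarith
  rcases hu.eq_or_lt with h0 | hu0
  · subst h0
    have h1 : ∑ p ∈ SP δ T, ‖(p : ℂ) ^ (-(((0 : ℝ) : ℂ) * I)) - 1‖ ^ 2 / p = 0 := by
      refine Finset.sum_eq_zero fun p hp => ?_
      simp
    rw [h1]
    linarith
  · have hmem : ∀ p ∈ SP δ T, p.Prime ∧ 10000 < p ∧ Real.log p ≤ δ * L :=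
      fun p hp => (mem_SP hδ hδ1 hT).1 hp
    have hlog9 : ∀ p ∈ SP δ T, 9 ≤ Real.log p := by
      intro p hp
      refine log10000.trans (Real.log_le_log (by norm_num) ?_)
      exact_mod_cast (hmem p hp).2.1.le
    set a : ℝ := max (1 / u) 1 with ha
    have ha1 : 1 ≤ a := le_max_right _ _
    have hau : 1 / u ≤ a := le_max_left _ _
    have hsplit := Finset.sum_filter_add_sum_filter_not (SP δ T) (fun p : ℕ => Real.log p ≤ a)
      (fun p => ‖(p : ℂ) ^ (-((u : ℂ) * I)) - 1‖ ^ 2 / p)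
    rw [← hsplit]
    have hA : ∑ p ∈ (SP δ T).filter (fun p : ℕ => Real.log p ≤ a),
        ‖(p : ℂ) ^ (-((u : ℂ) * I)) - 1‖ ^ 2 / p ≤ 9 := by
      rcases le_or_gt u 1 with h1 | h1
      · have ha' : a = 1 / u := max_eq_left (by rw [le_div_iff₀ hu0]; linarith)
        have h2 : ∑ p ∈ (SP δ T).filter (fun p : ℕ => Real.log p ≤ a),
            ‖(p : ℂ) ^ (-((u : ℂ) * I)) - 1‖ ^ 2 / p ≤
            u ^ 2 * ∑ p ∈ (SP δ T).filter (fun p : ℕ => Real.log p ≤ a), Real.log p ^ 2 / p := by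
          rw [Finset.mul_sum]
          refine Finset.sum_le_sum fun p hp => ?_
          have hp' := (Finset.mem_filter.1 hp).1
          have h3 := (SPs_norm (hmem p hp').1.pos u hu).1
          have h4 : ‖(p : ℂ) ^ (-((u : ℂ) * I)) - 1‖ ^ 2 ≤ u ^ 2 * Real.log p ^ 2 := by
            rw [← mul_pow]
            exact pow_le_pow_left₀ (norm_nonneg _) h3 2
          rw [← mul_div_assoc]
          exact div_le_div_of_nonneg_right h4 (Nat.cast_nonneg p)
        have h5 := a0_logsq ((SP δ T).filter (fun p : ℕ => Real.log p ≤ a)) a (by linarith)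
          (fun p hp => ⟨(hmem p (Finset.mem_filter.1 hp).1).1, (Finset.mem_filter.1 hp).2⟩)
        have h6 := mul_le_mul_of_nonneg_left h5 (sq_nonneg u)
        have h7 : u ^ 2 * (a * (a + 8)) = 1 + 8 * u := by
          rw [ha']
          field_simp
        linarith
      · have ha' : a = 1 := max_eq_right (by rw [div_le_iff₀ hu0]; linarith)
        have h2 : (SP δ T).filter (fun p : ℕ => Real.log p ≤ a) = ∅ := by
          refine Finset.filter_eq_empty_iff.2 fun p hp h3 => ?_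
          have h4 := hlog9 p hp
          linarith
        rw [h2, Finset.sum_empty]
        norm_num
    have hB : ∑ p ∈ (SP δ T).filter (fun p : ℕ => ¬ Real.log p ≤ a),
        ‖(p : ℂ) ^ (-((u : ℂ) * I)) - 1‖ ^ 2 / p ≤ 4 * (19 * (2 + Real.log (2 + u * L))) := by
      rcases le_or_gt a (δ * L) with h1 | h1
      · have h2 : ∑ p ∈ (SP δ T).filter (fun p : ℕ => ¬ Real.log p ≤ a),
            ‖(p : ℂ) ^ (-((u : ℂ) * I)) - 1‖ ^ 2 / p ≤
            4 * ∑ p ∈ (SP δ T).filter (fun p : ℕ => ¬ Real.log p ≤ a), 1 / (p : ℝ) := by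
          rw [Finset.mul_sum]
          refine Finset.sum_le_sum fun p hp => ?_
          have hp' := (Finset.mem_filter.1 hp).1
          have h3 := (SPs_norm (hmem p hp').1.pos u hu).2
          have h4 : ‖(p : ℂ) ^ (-((u : ℂ) * I)) - 1‖ ^ 2 ≤ 4 := by
            have h5 := pow_le_pow_left₀ (norm_nonneg _) h3 2
            linarith
          rw [mul_one_div]
          exact div_le_div_of_nonneg_right h4 (Nat.cast_nonneg p)
        have h5 := a0_inv_log ((SP δ T).filter (fun p : ℕ => ¬ Real.log p ≤ a)) a (δ * L)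
          (by linarith) h1 (fun p hp => ⟨(hmem p (Finset.mem_filter.1 hp).1).1,
            not_le.1 (Finset.mem_filter.1 hp).2, (hmem p (Finset.mem_filter.1 hp).1).2.2⟩)
        have h6 : Real.log (δ * L / a) ≤ Real.log (2 + u * L) := by
          have ha0 : 0 < a := by linarith
          refine Real.log_le_log (by positivity) ?_
          rw [div_le_iff₀ ha0]
          have h7 : 1 ≤ a * u := by
            rw [div_le_iff₀ hu0] at hau
            exact hau
          have h8 : δ * L ≤ L := by nlinarith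
          have h9 : L ≤ a * u * L := by nlinarith
          nlinarith
        linarith
      · have h2 : (SP δ T).filter (fun p : ℕ => ¬ Real.log p ≤ a) = ∅ := by
          refine Finset.filter_eq_empty_iff.2 fun p hp h3 => ?_
          have h4 := (hmem p hp).2.2
          exact h3 (by linarith)
        rw [h2, Finset.sum_empty]
        linarith
    linarith

end Pool.Agent.Lib.MP_ec260d_ntB.Y
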