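import Pool.Agent.Lib.MP_ec260d_ntB.Y.Sq

/-!
# Y/YOsc: oscillation of `YY` on windows

PROOF (complete). `T₀` such that `T ≥ 16` and `L * hT T ≤ T / 2` for `T ≥ T₀` (for instance `T₀ = 16 + 4 π L + ..`: `log T ≥ 1`, so `L hT T ≤ 2 π L ≤ T/2` if `T ≥ 4 π L`). Let `A' = 16 π L / ε + 1` and
`A = A' + 110 L + 40006`. If `|s - t| ≤ L hT T` and `A < |YY s - YY t|` then by `yy_dec` at `s` and `t` (`(1/π) |Im z| ≤ ‖z‖`) and `sq_osc`: `|YY s - YY t| ≤ ‖DP SP 1 s - DP SP 1 t‖ + (1/2) 110 L + 40006`, so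
`A' < ‖DP SP 1 s - DP SP 1 t‖`. `sp_osc` (with `S = SP δ T`): measure `≤ 16 π L T / A' ≤ ε T`.
-/

namespace Pool.Agent.Lib.MP_ec260d_ntB.Y

open Complex MeasureTheory Set

theorem y_osc (δ W L ε : ℝ) (hδ : 0 < δ) (hδ1 : δ ≤ 1 / 100) (hW : 1 ≤ W) (hL : 0 ≤ L) (hε : 0 < ε) :
    ∃ A T₀ : ℝ, 1 ≤ A ∧ 2 ≤ T₀ ∧ ∀ T : ℝ, T₀ ≤ T →
      volume {t : ℝ | t ∈ Icc T (3 * T) ∧ ∃ s : ℝ, |s - t| ≤ L * hT T ∧
        A < |YY δ W T s - YY δ W T t|} ≤ ENNReal.ofReal (ε * T) := by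
  have hpi := Real.pi_pos
  set A' : ℝ := 16 * Real.pi * L / ε + 1 with hA'
  have hA'0 : 0 < A' := by
    rw [hA']
    positivity
  have hA'1 : 1 ≤ A' := by
    rw [hA']
    have : 0 ≤ 16 * Real.pi * L / ε := by positivity
    linarith
  refine ⟨A' + 110 * L + 40006, max 16 (4 * Real.pi * L), by nlinarith,
    le_trans (by norm_num) (le_max_left _ _), ?_⟩
  intro T hTT
  have h16 : 16 ≤ T := (le_max_left _ _).trans hTT
  have h4 : 4 * Real.pi * L ≤ T := (le_max_right _ _).trans hTT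
  have hT3 : 3 ≤ T := by linarith
  have hW0 : 0 ≤ W := by linarith
  have hδ1' : δ ≤ 1 := by linarith
  have hlog : 1 ≤ Real.log T := by
    rw [Real.le_log_iff_exp_le (by linarith)]
    exact (Real.exp_one_lt_d9.le.trans (by norm_num)).trans hT3
  have hLT : L * hT T ≤ T / 2 := by
    have h5 : hT T ≤ 2 * Real.pi := by
      unfold hT
      exact div_le_self (by positivity) hlog
    have h6 := mul_le_mul_of_nonneg_left h5 hL
    linarith
  have hsub : {t : ℝ | t ∈ Icc T (3 * T) ∧ ∃ s : ℝ, |s - t| ≤ L * hT T ∧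
        A' + 110 * L + 40006 < |YY δ W T s - YY δ W T t|} ⊆
      {t : ℝ | t ∈ Icc T (3 * T) ∧ ∃ s : ℝ, |s - t| ≤ L * hT T ∧
        A' < ‖DP (SP δ T) (fun _ => 1) W T s - DP (SP δ T) (fun _ => 1) W T t‖} := by
    rintro t ⟨ht, s, hs, hlt⟩
    refine ⟨ht, s, hs, ?_⟩
    have h1 := yy_dec hδ hδ1' hW0 hT3 s
    have h2 := yy_dec hδ hδ1' hW0 hT3 t
    have h3 := sq_osc hδ hδ1 hW0 h16 hL hs
    set P1 := DP (SP δ T) (fun _ => 1) W T s with hP1
    set P2 := DP (SP δ T) (fun _ => 1) W T t with hP2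
    set Q1 := DP (S2 δ T) (fun _ => 1) W T s with hQ1
    set Q2 := DP (S2 δ T) (fun _ => 1) W T t with hQ2
    have h5 : |(1 / Real.pi) * (P1 + (1 / 2) * Q1).im - (1 / Real.pi) * (P2 + (1 / 2) * Q2).im| ≤
        ‖P1 - P2‖ + 110 * L := by
      have h6 : (1 / Real.pi) * (P1 + (1 / 2) * Q1).im - (1 / Real.pi) * (P2 + (1 / 2) * Q2).im =
          (1 / Real.pi) * ((P1 - P2) + (1 / 2) * (Q1 - Q2)).im := by
        have h7 : (P1 - P2) + (1 / 2) * (Q1 - Q2) = (P1 + (1 / 2) * Q1) - (P2 + (1 / 2) * Q2) := by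
          ring
        rw [h7, Complex.sub_im]
        ring
      rw [h6, abs_mul, abs_of_pos (by positivity : (0 : ℝ) < 1 / Real.pi)]
      have h8 : 1 / Real.pi ≤ 1 := by
        rw [div_le_one hpi]
        linarith [Real.pi_gt_three]
      have h9 : |((P1 - P2) + (1 / 2) * (Q1 - Q2)).im| ≤ ‖P1 - P2‖ + (1 / 2) * ‖Q1 - Q2‖ := by
        refine (Complex.abs_im_le_norm _).trans ((norm_add_le _ _).trans ?_)
        rw [norm_mul]
        have h10 : ‖(1 / 2 : ℂ)‖ = 1 / 2 := by simp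
        rw [h10]
      have h11 : 1 / Real.pi * |((P1 - P2) + (1 / 2) * (Q1 - Q2)).im| ≤
          1 * |((P1 - P2) + (1 / 2) * (Q1 - Q2)).im| :=
        mul_le_mul_of_nonneg_right h8 (abs_nonneg _)
      have h12 := norm_nonneg (Q1 - Q2)
      linarith
    have h13 : |YY δ W T s - YY δ W T t| ≤ ‖P1 - P2‖ + 110 * L + 40006 := by
      have h14 : YY δ W T s - YY δ W T t =
          (YY δ W T s - (1 / Real.pi) * (P1 + (1 / 2) * Q1).im) -
          (YY δ W T t - (1 / Real.pi) * (P2 + (1 / 2) * Q2).im) +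
          ((1 / Real.pi) * (P1 + (1 / 2) * Q1).im - (1 / Real.pi) * (P2 + (1 / 2) * Q2).im) := by
        ring
      rw [h14]
      refine (abs_add_le _ _).trans ?_
      have h15 := abs_sub (YY δ W T s - (1 / Real.pi) * (P1 + (1 / 2) * Q1).im)
        (YY δ W T t - (1 / Real.pi) * (P2 + (1 / 2) * Q2).im)
      linarith
    linarith
  refine (measure_mono hsub).trans ((sp_osc hδ hδ1 hW0 h16 hL hLT hA'0 subset_rfl).trans ?_)
  refine ENNReal.ofReal_le_ofReal ?_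
  rw [div_le_iff₀ hA'0]
  have h7 : 16 * Real.pi * L ≤ ε * A' := by
    rw [hA', mul_add, mul_div_cancel₀ _ hε.ne', mul_one]
    linarith
  have h8 := mul_le_mul_of_nonneg_right h7 (by linarith : (0 : ℝ) ≤ T)
  linarith

end Pool.Agent.Lib.MP_ec260d_ntB.Y
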