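import Pool.Agent.Lib.MP_ec260d_ntB.Y.Dec
import Pool.Agent.Lib.MP_ec260d_ntB.Y.Ms

/-!
# Y/Sq: the sum over the squares, simple consequences

PROOF (complete).
* `sq_osc`: `DP_S2`, `‖z_p(s)^2 - z_p(t)^2‖ = ‖z_p(t)‖^2 ‖exp (-2 I (s - t) log p) - 1‖ ≤ (1/p) 2 |s - t| log p` (`norm_z`; `‖exp (i x) - 1‖ ≤ |x|`), sum `≤ 2 |s - t| ∑ (log p)/p ≤ 2 L hT (δ log T + 8)` (`SP_log`), `hT T = 2 π / log T`,
  `log T ≥ 2` (`T ≥ 16`): `≤ 4 π L (1 + 4) ≤ 110 L`.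
* `sq_val`: `val` with `S2_mem`, `S2_sum`, `V = 1`.
* `sp_osc`: `osc` with `B = log T`: `4 ∑ (log p)^2/p ≤ 4 δ log T (δ log T + 8) ≤ (log T)^2` (`SP_logsq`; `δ ≤ 1/100`, `log T ≥ 2`; for a subset `S` of `SP δ T` use monotonicity of sums of nonnegative terms), `8 (L hT) (log T) T / A = 16 π L T / A`. Members of `SP`: `log p ≤ δ log T ≤ log T / 4` (`mem_SP`).
-/

namespace Pool.Agent.Lib.MP_ec260d_ntB.Y

open Complex MeasureTheory Set

private theorem Sq_log {T : ℝ} (h16 : 16 ≤ T) : 2 ≤ Real.log T := by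
  have h1 : Real.log 16 = 4 * Real.log 2 := by
    rw [show (16 : ℝ) = 2 ^ 4 by norm_num, Real.log_pow]
    norm_num
  have h2 := Real.log_two_gt_d9
  have h3 : Real.log 16 ≤ Real.log T := Real.log_le_log (by norm_num) h16
  linarith

private theorem Sq_term {W T : ℝ} (hT : 3 ≤ T) (hW : 0 ≤ W) {p : ℕ} (hp : 1 ≤ p) (s t : ℝ) :
    ‖((p : ℂ) ^ (-(sW W T s))) ^ 2 - ((p : ℂ) ^ (-(sW W T t))) ^ 2‖ ≤
      2 * |s - t| * (Real.log p / p) := by
  have hp0 : (p : ℂ) ≠ 0 := Nat.cast_ne_zero.mpr (by omega)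
  have hpr : (0 : ℝ) < p := Nat.cast_pos.mpr (by omega)
  have hlog : 0 ≤ Real.log p := Real.log_natCast_nonneg p
  have h1 : ((p : ℂ) ^ (-(sW W T s))) ^ 2 =
      ((p : ℂ) ^ (-(sW W T t))) ^ 2 * cexp (I * ((-(2 * (s - t) * Real.log p) : ℝ) : ℂ)) := by
    rw [Complex.cpow_def_of_ne_zero hp0, Complex.cpow_def_of_ne_zero hp0, ← Complex.exp_nat_mul,
      ← Complex.exp_nat_mul, ← Complex.exp_add, ← Complex.natCast_log]
    congr 1
    unfold sW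
    push_cast
    ring
  have h2 : ((p : ℂ) ^ (-(sW W T s))) ^ 2 - ((p : ℂ) ^ (-(sW W T t))) ^ 2 =
      ((p : ℂ) ^ (-(sW W T t))) ^ 2 * (cexp (I * ((-(2 * (s - t) * Real.log p) : ℝ) : ℂ)) - 1) := by
    rw [h1]
    ring
  have h3 : ‖cexp (I * ((-(2 * (s - t) * Real.log p) : ℝ) : ℂ)) - 1‖ ≤
      2 * |s - t| * Real.log p := by
    refine (Real.norm_exp_I_mul_ofReal_sub_one_le).trans (le_of_eq ?_)
    rw [Real.norm_eq_abs, abs_neg, abs_mul, abs_mul, abs_of_nonneg hlog, abs_two]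
  have h4 : ‖((p : ℂ) ^ (-(sW W T t))) ^ 2‖ ≤ 1 / p := by
    rw [norm_pow]
    have h5 := norm_z (t := t) hT hW hp
    have h6 : ((p : ℝ) ^ (-(1 / 2) : ℝ)) ^ 2 = 1 / p := by
      rw [← Real.rpow_natCast, ← Real.rpow_mul hpr.le]
      norm_num
      rw [Real.rpow_neg_one]
    rw [← h6]
    exact pow_le_pow_left₀ (norm_nonneg _) h5 2
  rw [h2, norm_mul]
  calc ‖((p : ℂ) ^ (-(sW W T t))) ^ 2‖ *
        ‖cexp (I * ((-(2 * (s - t) * Real.log p) : ℝ) : ℂ)) - 1‖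
      ≤ (1 / p) * (2 * |s - t| * Real.log p) :=
        mul_le_mul h4 h3 (norm_nonneg _) (by positivity)
    _ = 2 * |s - t| * (Real.log p / p) := by ring

theorem sq_osc {δ W T L : ℝ} (hδ : 0 < δ) (hδ1 : δ ≤ 1 / 100) (hW : 0 ≤ W) (h16 : 16 ≤ T) (hL : 0 ≤ L)
    {s t : ℝ} (hst : |s - t| ≤ L * hT T) :
    ‖DP (S2 δ T) (fun _ => 1) W T s - DP (S2 δ T) (fun _ => 1) W T t‖ ≤ 110 * L := by
  have hT3 : 3 ≤ T := by linarith
  have hl := Sq_log h16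
  have hl0 : 0 < Real.log T := by linarith
  have hh : 0 ≤ hT T := by
    unfold hT
    positivity
  rw [DP_S2, DP_S2, ← Finset.sum_sub_distrib]
  refine (norm_sum_le _ _).trans ?_
  have h1 : ∀ p ∈ SP δ T, ‖((p : ℂ) ^ (-(sW W T s))) ^ 2 - ((p : ℂ) ^ (-(sW W T t))) ^ 2‖ ≤
      2 * (L * hT T) * (Real.log p / p) := by
    intro p hp
    have hpp := ((mem_SP hδ (by linarith) hT3).mp hp).1
    refine (Sq_term hT3 hW hpp.one_lt.le s t).trans ?_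
    have h2 : 0 ≤ Real.log p / p := div_nonneg (Real.log_natCast_nonneg p) (Nat.cast_nonneg p)
    exact mul_le_mul_of_nonneg_right (by linarith) h2
  refine (Finset.sum_le_sum h1).trans ?_
  rw [← Finset.mul_sum]
  have h3 := SP_log hδ (by linarith : δ ≤ 1) hT3
  have h4 : 2 * (L * hT T) * ∑ p ∈ SP δ T, Real.log p / p ≤
      2 * (L * hT T) * (δ * Real.log T + 8) :=
    mul_le_mul_of_nonneg_left h3 (by positivity)
  refine h4.trans ?_
  have h5 : hT T * (δ * Real.log T + 8) ≤ 55 := by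
    unfold hT
    rw [div_mul_eq_mul_div, div_le_iff₀ hl0]
    have hpi := Real.pi_lt_d2
    have hpi0 := Real.pi_pos
    have h6 : δ * Real.log T + 8 ≤ 5 * Real.log T := by nlinarith
    nlinarith
  nlinarith

theorem sq_val {δ W T A : ℝ} (hδ : 0 < δ) (hδ1 : δ ≤ 1 / 100) (hW : 0 ≤ W) (h16 : 16 ≤ T) (hA : 0 < A) :
    volume {t : ℝ | t ∈ Icc T (3 * T) ∧ A < ‖DP (S2 δ T) (fun _ => 1) W T t‖} ≤
      ENNReal.ofReal (4 * T / A ^ 2) := by
  have hT3 : 3 ≤ T := by linarith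
  have h := val (A := A) h16 hW hA (fun n hn => S2_mem hδ hδ1 hT3 hn) (fun _ => (1 : ℂ)) (V := 1)
    (by
      refine le_trans (le_of_eq ?_) (S2_sum hδ (by linarith : δ ≤ 1) hT3)
      apply Finset.sum_congr rfl
      intro n _
      rw [norm_one, one_pow])
  rw [mul_one] at h
  exact h

theorem sp_osc {δ W T L A : ℝ} (hδ : 0 < δ) (hδ1 : δ ≤ 1 / 100) (hW : 0 ≤ W) (h16 : 16 ≤ T)
    (hL : 0 ≤ L) (hLT : L * hT T ≤ T / 2) (hA : 0 < A) {S : Finset ℕ} (hS : S ⊆ SP δ T) :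
    volume {t : ℝ | t ∈ Icc T (3 * T) ∧ ∃ s : ℝ, |s - t| ≤ L * hT T ∧
      A < ‖DP S (fun _ => 1) W T s - DP S (fun _ => 1) W T t‖} ≤
        ENNReal.ofReal (16 * Real.pi * L * T / A) := by
  have hT3 : 3 ≤ T := by linarith
  have hl := Sq_log h16
  have hl0 : 0 < Real.log T := by linarith
  have hmem : ∀ n ∈ S, 1 ≤ n ∧ Real.log n ≤ Real.log T / 4 := by
    intro n hn
    have h1 := (mem_SP hδ (by linarith) hT3).mp (hS hn)
    refine ⟨h1.1.one_lt.le, h1.2.2.trans ?_⟩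
    nlinarith
  have hc : 4 * ∑ n ∈ S, ‖(1 : ℂ)‖ ^ 2 * Real.log n ^ 2 / n ≤ Real.log T ^ 2 := by
    have h1 : ∑ n ∈ S, ‖(1 : ℂ)‖ ^ 2 * Real.log n ^ 2 / n ≤ ∑ p ∈ SP δ T, Real.log p ^ 2 / p := by
      have h2 : ∑ n ∈ S, ‖(1 : ℂ)‖ ^ 2 * Real.log n ^ 2 / (n : ℝ) =
          ∑ n ∈ S, Real.log n ^ 2 / (n : ℝ) := by
        apply Finset.sum_congr rfl
        intro n _
        rw [norm_one, one_pow, one_mul]
      rw [h2]
      exact Finset.sum_le_sum_of_subset_of_nonneg hS (fun i _ _ => by positivity)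
    have h3 := SP_logsq hδ (by linarith : δ ≤ 1) hT3
    have h4 : δ * Real.log T * (δ * Real.log T + 8) ≤ Real.log T ^ 2 / 4 := by
      have h5 : δ * Real.log T ≤ Real.log T / 100 := by nlinarith
      have h6 : 0 ≤ δ * Real.log T := by positivity
      nlinarith
    linarith
  have h := osc (B := Real.log T) h16 hW hL hLT hA hl0.le hmem (fun _ => (1 : ℂ)) hc
  have h7 : 8 * (L * hT T) * Real.log T * T / A = 16 * Real.pi * L * T / A := by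
    unfold hT
    field_simp
    ring
  rw [h7] at h
  exact h

end Pool.Agent.Lib.MP_ec260d_ntB.Y
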