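import Pool.Agent.Lib.MP_ec260d_ntB.Y.R1
import Pool.Agent.Lib.MP_ec260d_ntB.Y.Sq

/-!
# Y/R2: `Y/YOsc` and `Y/YFlat` on the longer intervals `[T, 3 ^ N T]`
-/

namespace Pool.Agent.Lib.MP_ec260d_ntB.Y

open Complex MeasureTheory Set

theorem y_oscR (N : ℕ) (δ W L ε : ℝ) (hδ : 0 < δ) (hδ1 : δ ≤ 1 / 100) (hW : 1 ≤ W) (hL : 0 ≤ L) (hε : 0 < ε) :
    ∃ A T₀ : ℝ, 1 ≤ A ∧ 2 ≤ T₀ ∧ ∀ T : ℝ, T₀ ≤ T →
      volume {t : ℝ | t ∈ Icc T (3 ^ N * T) ∧ ∃ s : ℝ, |s - t| ≤ L * hT T ∧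
        A < |YY δ W T s - YY δ W T t|} ≤ ENNReal.ofReal (ε * T) := by
  have hpi := Real.pi_pos
  set A' : ℝ := 16 * Real.pi * L * 3 ^ N / ε + 1 with hA'
  have hA'0 : 0 < A' := by
    rw [hA']
    positivity
  have hA'1 : 1 ≤ A' := by
    rw [hA']
    have : 0 ≤ 16 * Real.pi * L * 3 ^ N / ε := by positivity
    linarith
  refine ⟨A' + 110 * L + 40006, max 16 (4 * Real.pi * L), by nlinarith,
    le_trans (by norm_num) (le_max_left _ _), ?_⟩
  intro T hTT
  have h16 : 16 ≤ T := (le_max_left _ _).trans hTT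
  have h4 : 4 * Real.pi * L ≤ T := (le_max_right _ _).trans hTT
  have hT3 : 3 ≤ T := by linarith
  have hW0 : 0 ≤ W := by linarith
  have hδ1' : δ ≤ 1 := by linarith
  have hlog : 1 ≤ Real.log T := by
    rw [Real.le_log_iff_exp_le (by linarith)]
    exact (Real.exp_one_lt_d9.le.trans (by norm_num)).trans hT3
  have hLT : L * hT T ≤ T / 2 := by
    have h5 : hT T ≤ 2 * Real.pi := by
      unfold hT
      exact div_le_self (by positivity) hlog
    have h6 := mul_le_mul_of_nonneg_left h5 hL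
    linarith
  have hsub : {t : ℝ | t ∈ Icc T (3 ^ N * T) ∧ ∃ s : ℝ, |s - t| ≤ L * hT T ∧
        A' + 110 * L + 40006 < |YY δ W T s - YY δ W T t|} ⊆
      {t : ℝ | t ∈ Icc T (3 ^ N * T) ∧ ∃ s : ℝ, |s - t| ≤ L * hT T ∧
        A' < ‖DP (SP δ T) (fun _ => 1) W T s - DP (SP δ T) (fun _ => 1) W T t‖} := by
    rintro t ⟨ht, s, hs, hlt⟩
    refine ⟨ht, s, hs, ?_⟩
    have h1 := yy_dec hδ hδ1' hW0 hT3 s
    have h2 := yy_dec hδ hδ1' hW0 hT3 t
    have h3 := sq_osc hδ hδ1 hW0 h16 hL hs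
    set P1 := DP (SP δ T) (fun _ => 1) W T s with hP1
    set P2 := DP (SP δ T) (fun _ => 1) W T t with hP2
    set Q1 := DP (S2 δ T) (fun _ => 1) W T s with hQ1
    set Q2 := DP (S2 δ T) (fun _ => 1) W T t with hQ2
    have h5 : |(1 / Real.pi) * (P1 + (1 / 2) * Q1).im - (1 / Real.pi) * (P2 + (1 / 2) * Q2).im| ≤
        ‖P1 - P2‖ + 110 * L := by
      have h6 : (1 / Real.pi) * (P1 + (1 / 2) * Q1).im - (1 / Real.pi) * (P2 + (1 / 2) * Q2).im =
          (1 / Real.pi) * ((P1 - P2) + (1 / 2) * (Q1 - Q2)).im := by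
        have h7 : (P1 - P2) + (1 / 2) * (Q1 - Q2) = (P1 + (1 / 2) * Q1) - (P2 + (1 / 2) * Q2) := by
          ring
        rw [h7, Complex.sub_im]
        ring
      rw [h6, abs_mul, abs_of_pos (by positivity : (0 : ℝ) < 1 / Real.pi)]
      have h8 : 1 / Real.pi ≤ 1 := by
        rw [div_le_one hpi]
        linarith [Real.pi_gt_three]
      have h9 : |((P1 - P2) + (1 / 2) * (Q1 - Q2)).im| ≤ ‖P1 - P2‖ + (1 / 2) * ‖Q1 - Q2‖ := by
        refine (Complex.abs_im_le_norm _).trans ((norm_add_le _ _).trans ?_)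
        rw [norm_mul]
        have h10 : ‖(1 / 2 : ℂ)‖ = 1 / 2 := by simp
        rw [h10]
      have h11 : 1 / Real.pi * |((P1 - P2) + (1 / 2) * (Q1 - Q2)).im| ≤
          1 * |((P1 - P2) + (1 / 2) * (Q1 - Q2)).im| :=
        mul_le_mul_of_nonneg_right h8 (abs_nonneg _)
      have h12 := norm_nonneg (Q1 - Q2)
      linarith
    have h13 : |YY δ W T s - YY δ W T t| ≤ ‖P1 - P2‖ + 110 * L + 40006 := by
      have h14 : YY δ W T s - YY δ W T t =
          (YY δ W T s - (1 / Real.pi) * (P1 + (1 / 2) * Q1).im) -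
          (YY δ W T t - (1 / Real.pi) * (P2 + (1 / 2) * Q2).im) +
          ((1 / Real.pi) * (P1 + (1 / 2) * Q1).im - (1 / Real.pi) * (P2 + (1 / 2) * Q2).im) := by
        ring
      rw [h14]
      refine (abs_add_le _ _).trans ?_
      have h15 := abs_sub (YY δ W T s - (1 / Real.pi) * (P1 + (1 / 2) * Q1).im)
        (YY δ W T t - (1 / Real.pi) * (P2 + (1 / 2) * Q2).im)
      linarith
    linarith
  refine (measure_mono hsub).trans ((sp_oscR hδ hδ1 hW0 h16 hL hLT hA'0 subset_rfl N).trans ?_)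
  refine ENNReal.ofReal_le_ofReal ?_
  rw [div_le_iff₀ hA'0]
  have h7 : 16 * Real.pi * L * 3 ^ N ≤ ε * A' := by
    rw [hA', mul_add, mul_div_cancel₀ _ hε.ne', mul_one]
    linarith
  have h8 := mul_le_mul_of_nonneg_right h7 (by linarith : (0 : ℝ) ≤ T)
  linarith

theorem y_flatR (N : ℕ) (δ δ' W L ε : ℝ) (hδ : 0 < δ) (hδ1 : δ ≤ 1 / 100) (hδ' : 0 < δ') (hδδ : δ' ≤ δ)
    (hW : 1 ≤ W) (hL : 0 ≤ L) (hε : 0 < ε) :
    ∃ A T₀ : ℝ, 1 ≤ A ∧ 2 ≤ T₀ ∧ ∀ T : ℝ, T₀ ≤ T →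
      volume {t : ℝ | t ∈ Icc T (3 ^ N * T) ∧ ∃ s : ℝ, |s - t| ≤ L * hT T ∧
        A < |YY δ W T s - ∑ j ∈ Finset.range (JJ T), YB δ' W T j s|} ≤ ENNReal.ofReal (ε * T) := by
  have hpi := Real.pi_pos
  set V : ℝ := δ / δ' + 8 with hV
  have hV0 : 0 ≤ V := by
    rw [hV]
    positivity
  obtain ⟨R, hR⟩ : ∃ R : ℝ, R = 3 ^ N := ⟨_, rfl⟩
  have hR1 : 1 ≤ R := by
    rw [hR]
    exact one_le_pow₀ (by norm_num)
  set A' : ℝ := 1 + (3 / ε) * ((16 * Real.pi * L + 4 * V + 4) * R) with hA'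
  have hA'1 : 1 ≤ A' := by
    rw [hA']
    have : 0 ≤ (3 / ε) * ((16 * Real.pi * L + 4 * V + 4) * R) := by positivity
    linarith
  have hA'0 : 0 < A' := by linarith
  have hεA : 3 * ((16 * Real.pi * L + 4 * V + 4) * R) ≤ ε * A' := by
    have e1 : ε * A' = ε + 3 * ((16 * Real.pi * L + 4 * V + 4) * R) := by
      rw [hA']
      field_simp
    linarith
  refine ⟨3 * A' + 110 * L + 20004, max (max 16 (4 * Real.pi * L)) (Real.exp (1 / δ')),
    by nlinarith, le_trans (by norm_num) ((le_max_left _ _).trans (le_max_left _ _)), ?_⟩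
  intro T hTT
  have h16 : 16 ≤ T := ((le_max_left _ _).trans (le_max_left _ _)).trans hTT
  have h4 : 4 * Real.pi * L ≤ T := ((le_max_right _ _).trans (le_max_left _ _)).trans hTT
  have hexp : Real.exp (1 / δ') ≤ T := (le_max_right _ _).trans hTT
  have hT3 : 3 ≤ T := by linarith
  have hT0 : 0 < T := by linarith
  have hW0 : 0 ≤ W := by linarith
  have hδ1' : δ ≤ 1 := by linarith
  have hlog : 1 ≤ Real.log T := by
    rw [Real.le_log_iff_exp_le (by linarith)]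
    exact (Real.exp_one_lt_d9.le.trans (by norm_num)).trans hT3
  have hlog' : 1 ≤ δ' * Real.log T := by
    have h5 : 1 / δ' ≤ Real.log T := by
      rw [Real.le_log_iff_exp_le hT0]
      exact hexp
    rw [div_le_iff₀ hδ'] at h5
    linarith
  have hLT : L * hT T ≤ T / 2 := by
    have h5 : hT T ≤ 2 * Real.pi := by
      unfold hT
      exact div_le_self (by positivity) hlog
    have h6 := mul_le_mul_of_nonneg_left h5 hL
    linarith
  set S : Finset ℕ := SP δ T \ SP δ' T with hS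
  have hSsub : S ⊆ SP δ T := Finset.sdiff_subset
  have hSmem : ∀ n ∈ S, 1 ≤ n ∧ Real.log n ≤ Real.log T / 4 := by
    intro n hn
    obtain ⟨h1, h2, h3⟩ := (mem_SP hδ hδ1' hT3).1 (hSsub hn)
    refine ⟨by omega, h3.trans ?_⟩
    nlinarith
  have hsplit : ∀ s, DP (SP δ T) (fun _ => 1) W T s =
      DP S (fun _ => 1) W T s + DP (SP δ' T) (fun _ => 1) W T s := by
    intro s
    unfold DP
    rw [hS, Finset.sum_sdiff (SP_mono hδ' hδδ hδ1' hT3)]
  have hsub : {t : ℝ | t ∈ Icc T (3 ^ N * T) ∧ ∃ s : ℝ, |s - t| ≤ L * hT T ∧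
        3 * A' + 110 * L + 20004 < |YY δ W T s - ∑ j ∈ Finset.range (JJ T), YB δ' W T j s|} ⊆
      {t : ℝ | t ∈ Icc T (3 ^ N * T) ∧ A' < ‖DP S (fun _ => 1) W T t‖} ∪
      ({t : ℝ | t ∈ Icc T (3 ^ N * T) ∧ ∃ s : ℝ, |s - t| ≤ L * hT T ∧
        A' < ‖DP S (fun _ => 1) W T s - DP S (fun _ => 1) W T t‖} ∪
      {t : ℝ | t ∈ Icc T (3 ^ N * T) ∧ A' < ‖DP (S2 δ T) (fun _ => 1) W T t‖}) := by
    rintro t ⟨ht, s, hs, hlt⟩
    by_contra hnot
    rw [mem_union, mem_union, not_or, not_or] at hnot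
    obtain ⟨n1, n2, n3⟩ := hnot
    have b1 : ‖DP S (fun _ => 1) W T t‖ ≤ A' := by
      by_contra h
      exact n1 ⟨ht, not_le.1 h⟩
    have b2 : ‖DP S (fun _ => 1) W T s - DP S (fun _ => 1) W T t‖ ≤ A' := by
      by_contra h
      exact n2 ⟨ht, s, hs, not_le.1 h⟩
    have b3 : ‖DP (S2 δ T) (fun _ => 1) W T t‖ ≤ A' := by
      by_contra h
      exact n3 ⟨ht, not_le.1 h⟩
    have h1 := yy_dec hδ hδ1' hW0 hT3 s
    have h3 := sq_osc hδ hδ1 hW0 h16 hL hs
    rw [YB_sum hδ' (by linarith : (1 : ℝ) ≤ T) W s] at hlt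
    rw [hsplit s] at h1
    set P1 := DP S (fun _ => 1) W T s with hP1
    set P2 := DP S (fun _ => 1) W T t with hP2
    set R1 := DP (SP δ' T) (fun _ => 1) W T s with hR1
    set Q1 := DP (S2 δ T) (fun _ => 1) W T s with hQ1
    set Q2 := DP (S2 δ T) (fun _ => 1) W T t with hQ2
    have c1 : ‖P1‖ ≤ 2 * A' := by
      have h5 : P1 = (P1 - P2) + P2 := by ring
      rw [h5]
      refine (norm_add_le _ _).trans ?_
      linarith
    have c2 : ‖Q1‖ ≤ A' + 110 * L := by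
      have h5 : Q1 = (Q1 - Q2) + Q2 := by ring
      rw [h5]
      refine (norm_add_le _ _).trans ?_
      linarith
    have h8 : 1 / Real.pi ≤ 1 := by
      rw [div_le_one hpi]
      linarith [Real.pi_gt_three]
    have h6 : |(1 / Real.pi) * (P1 + R1 + (1 / 2) * Q1).im - (1 / Real.pi) * R1.im| ≤
        ‖P1‖ + (1 / 2) * ‖Q1‖ := by
      have h7 : (1 / Real.pi) * (P1 + R1 + (1 / 2) * Q1).im - (1 / Real.pi) * R1.im =
          (1 / Real.pi) * (P1 + (1 / 2) * Q1).im := by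
        rw [Complex.add_im, Complex.add_im, Complex.add_im]
        ring
      rw [h7, abs_mul, abs_of_pos (by positivity : (0 : ℝ) < 1 / Real.pi)]
      have h9 : |(P1 + (1 / 2) * Q1).im| ≤ ‖P1‖ + (1 / 2) * ‖Q1‖ := by
        refine (Complex.abs_im_le_norm _).trans ((norm_add_le _ _).trans ?_)
        rw [norm_mul]
        have h10 : ‖(1 / 2 : ℂ)‖ = 1 / 2 := by simp
        rw [h10]
      have h11 : 1 / Real.pi * |(P1 + (1 / 2) * Q1).im| ≤ 1 * |(P1 + (1 / 2) * Q1).im| :=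
        mul_le_mul_of_nonneg_right h8 (abs_nonneg _)
      linarith
    have h12 : |YY δ W T s - (1 / Real.pi) * R1.im| ≤
        |YY δ W T s - (1 / Real.pi) * (P1 + R1 + (1 / 2) * Q1).im| +
        |(1 / Real.pi) * (P1 + R1 + (1 / 2) * Q1).im - (1 / Real.pi) * R1.im| := by
      refine le_trans (le_of_eq ?_) (abs_add_le _ _)
      congr 1
      ring
    linarith
  -- the three measures
  have m1 := valR (T := T) (W := W) (A := A') h16 hW0 hA'0 hSmem (fun _ => 1) (V := V) (by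
    have h5 := SP_diff hδ' hδδ hδ1' hT3 hlog'
    rw [← hS, ← hV] at h5
    refine le_trans (le_of_eq ?_) h5
    refine Finset.sum_congr rfl fun n _ => ?_
    rw [norm_one, one_pow]) N
  have m2 := sp_oscR hδ hδ1 hW0 h16 hL hLT hA'0 hSsub N
  have m3 := sq_valR hδ hδ1 hW0 h16 hA'0 N
  have hp0 : 0 ≤ 16 * Real.pi * L * R := by positivity
  have hp1 : 0 ≤ V * R := by positivity
  have k0 : 0 ≤ ε * T / 3 := by positivity
  have k1 : 4 * (R * T) * V / A' ^ 2 ≤ ε * T / 3 := by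
    have h5 : 4 * (R * T) * V / A' ^ 2 ≤ 4 * (R * T) * V / A' := by
      refine div_le_div_of_nonneg_left (by positivity) hA'0 ?_
      nlinarith
    refine h5.trans ?_
    rw [div_le_iff₀ hA'0]
    have h6 : 12 * (V * R) ≤ ε * A' := by
      linarith
    have h7 := mul_le_mul_of_nonneg_right h6 hT0.le
    linarith
  have k2 : 16 * Real.pi * L * (R * T) / A' ≤ ε * T / 3 := by
    rw [div_le_iff₀ hA'0]
    have h6 : 48 * Real.pi * L * R ≤ ε * A' := by linarith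
    have h7 := mul_le_mul_of_nonneg_right h6 hT0.le
    linarith
  have k3 : 4 * (R * T) / A' ^ 2 ≤ ε * T / 3 := by
    have h5 : 4 * (R * T) / A' ^ 2 ≤ 4 * (R * T) / A' := by
      refine div_le_div_of_nonneg_left (by positivity) hA'0 ?_
      nlinarith
    refine h5.trans ?_
    rw [div_le_iff₀ hA'0]
    have h6 : 12 * R ≤ ε * A' := by
      linarith
    have h7 := mul_le_mul_of_nonneg_right h6 hT0.le
    linarith
  rw [hR] at k1 k2 k3
  refine (measure_mono hsub).trans ((measure_union_le _ _).trans ?_)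
  have hsum : ENNReal.ofReal (ε * T) = ENNReal.ofReal (ε * T / 3) +
      (ENNReal.ofReal (ε * T / 3) + ENNReal.ofReal (ε * T / 3)) := by
    rw [← ENNReal.ofReal_add k0 k0, ← ENNReal.ofReal_add k0 (by positivity)]
    congr 1
    ring
  rw [hsum]
  refine add_le_add (m1.trans (ENNReal.ofReal_le_ofReal k1)) ((measure_union_le _ _).trans ?_)
  exact add_le_add (m2.trans (ENNReal.ofReal_le_ofReal k2)) (m3.trans (ENNReal.ofReal_le_ofReal k3))

end Pool.Agent.Lib.MP_ec260d_ntB.Y
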