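import Pool.Agent.Lib.MP_ec260d_ntB.Y.R1

/-!
# Y/R3: `Y/YBlockA` and `Y/YBlock` on the longer intervals `[T, 3 ^ N T]`
-/

namespace Pool.Agent.Lib.MP_ec260d_ntB.Y

open Complex MeasureTheory Set

private theorem R3_yb (δ W T : ℝ) (j : ℕ) (t : ℝ) : |YB δ W T j t| ≤ ‖DP (Pr δ T j) (fun _ => 1) W T t‖ := by
  have h1 : YB δ W T j t = (1 / Real.pi) * (DP (Pr δ T j) (fun _ => 1) W T t).im := by
    unfold YB Pj DP
    simp only [one_mul]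
  rw [h1, abs_mul]
  have h2 := Complex.abs_im_le_norm (DP (Pr δ T j) (fun _ => 1) W T t)
  have h3 : |1 / Real.pi| ≤ 1 := by
    rw [abs_of_pos (by positivity), div_le_one Real.pi_pos]
    linarith [Real.pi_gt_three]
  calc |1 / Real.pi| * |(DP (Pr δ T j) (fun _ => 1) W T t).im|
      ≤ 1 * ‖DP (Pr δ T j) (fun _ => 1) W T t‖ := by gcongr
    _ = _ := one_mul _

private theorem R3_mem {δ T : ℝ} (hT : 0 < Real.log T) (hδ : 0 < δ) (hδ1 : δ ≤ 1 / 100) {j n : ℕ}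
    (hn : n ∈ Pr δ T j) : (1 ≤ n ∧ Real.log n ≤ Real.log T / 4) ∧ 0 ≤ Real.log n ∧ Real.log n ≤ bet δ j * Real.log T := by
  obtain ⟨h1, h2, h3, h4⟩ := mem_Pr.1 hn
  have h5 : 1 ≤ n := h1.one_lt.le
  have h6 : (0 : ℝ) < n := by exact_mod_cast h5
  have h7 : Real.log n ≤ Real.log T * bet δ j := by
    rw [← log_xs]
    exact Real.log_le_log h6 h4
  have h8 := bet_le hδ j
  refine ⟨⟨h5, ?_⟩, Real.log_natCast_nonneg n, by linarith⟩
  nlinarith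

theorem block_oneR (N k : ℕ) {δ W T L : ℝ} (hδ : 0 < δ) (hδ1 : δ ≤ 1 / 100) (hW : 0 ≤ W) (h16 : 16 ≤ T)
    (hL : 0 ≤ L) (hLT : L * hT T ≤ T / 2) (j : ℕ) :
    volume {t : ℝ | t ∈ Icc T (3 ^ N * T) ∧ ∃ s : ℝ, |s - t| ≤ L * hT T ∧
        (dd δ j : ℝ) / (100 * ((k : ℝ) + 1)) < |YB δ W T j s|} ≤
      ENNReal.ofReal (3 ^ N * T * ((480000 * ((k : ℝ) + 1) ^ 2 + 50000 * L * ((k : ℝ) + 1)) *
        bet δ j ^ (3 / 2 : ℝ))) := by
  have hl : 0 < Real.log T := Real.log_pos (by linarith)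
  have hT0 : 0 < T := by linarith
  set b := bet δ j with hb
  have hb0 : 0 < b := bet_pos hδ j
  have hb1 : b ≤ 1 := (bet_le hδ j).trans (by linarith)
  have hk : (0 : ℝ) < (k : ℝ) + 1 := by positivity
  set D : ℝ := (dd δ j : ℝ) / (100 * ((k : ℝ) + 1)) with hD
  have hdd : b ^ (-(3 / 4) : ℝ) ≤ (dd δ j : ℝ) := by
    unfold dd
    exact Nat.le_ceil _
  have hbp : 0 < b ^ (-(3 / 4) : ℝ) := Real.rpow_pos_of_pos hb0 _
  have hdd0 : (0 : ℝ) < (dd δ j : ℝ) := hbp.trans_le hdd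
  have hD0 : 0 < D := div_pos hdd0 (by positivity)
  have hDinv : 1 / D ≤ 100 * ((k : ℝ) + 1) * b ^ (3 / 4 : ℝ) := by
    rw [hD, one_div_div, div_le_iff₀ hdd0]
    have h1 : 1 ≤ b ^ (3 / 4 : ℝ) * (dd δ j : ℝ) := by
      have h2 : b ^ (3 / 4 : ℝ) * b ^ (-(3 / 4) : ℝ) = 1 := by
        rw [← Real.rpow_add hb0]
        norm_num
      rw [← h2]
      exact mul_le_mul_of_nonneg_left hdd (Real.rpow_nonneg hb0.le _)
    calc 100 * ((k : ℝ) + 1) = 100 * ((k : ℝ) + 1) * 1 := (mul_one _).symm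
      _ ≤ 100 * ((k : ℝ) + 1) * (b ^ (3 / 4 : ℝ) * (dd δ j : ℝ)) := by gcongr
      _ = 100 * ((k : ℝ) + 1) * b ^ (3 / 4 : ℝ) * (dd δ j : ℝ) := by ring
  have hD2 : 0 < D / 2 := by positivity
  have hmem : ∀ n ∈ Pr δ T j, 1 ≤ n ∧ Real.log n ≤ Real.log T / 4 := fun n hn => (R3_mem hl hδ hδ1 hn).1
  have hA := a0_block δ (by linarith : 1 ≤ T) j
  have hV : ∑ n ∈ Pr δ T j, ‖(fun _ : ℕ => (1 : ℂ)) n‖ ^ 2 / (n : ℝ) ≤ 3 := by
    refine le_trans (le_of_eq ?_) hA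
    refine Finset.sum_congr rfl fun n _ => ?_
    simp
  have hc : 4 * ∑ n ∈ Pr δ T j, ‖(fun _ : ℕ => (1 : ℂ)) n‖ ^ 2 * Real.log n ^ 2 / (n : ℝ) ≤ (4 * b * Real.log T) ^ 2 := by
    have h1 : ∑ n ∈ Pr δ T j, ‖(fun _ : ℕ => (1 : ℂ)) n‖ ^ 2 * Real.log n ^ 2 / (n : ℝ) ≤
        ∑ n ∈ Pr δ T j, (b * Real.log T) ^ 2 * (1 / (n : ℝ)) := by
      refine Finset.sum_le_sum fun n hn => ?_
      obtain ⟨h2, h3, h4⟩ := R3_mem hl hδ hδ1 hn
      have h5 : (0 : ℝ) < n := by exact_mod_cast h2.1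
      have h6 : Real.log n ^ 2 ≤ (b * Real.log T) ^ 2 := pow_le_pow_left₀ h3 h4 2
      rw [norm_one, one_pow, one_mul, div_eq_mul_one_div]
      exact mul_le_mul_of_nonneg_right h6 (by positivity)
    rw [← Finset.mul_sum] at h1
    have h7 : (b * Real.log T) ^ 2 * ∑ n ∈ Pr δ T j, (1 / (n : ℝ)) ≤ (b * Real.log T) ^ 2 * 3 :=
      mul_le_mul_of_nonneg_left hA (by positivity)
    nlinarith [sq_nonneg (b * Real.log T)]
  have hval := valR h16 hW hD2 hmem (fun _ => 1) hV N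
  have hosc := oscR h16 hW hL hLT hD2 (by positivity : (0 : ℝ) ≤ 4 * b * Real.log T) hmem (fun _ => 1) hc N
  obtain ⟨R, hR⟩ : ∃ R : ℝ, R = 3 ^ N * T := ⟨_, rfl⟩
  have hR0 : 0 < R := by
    rw [hR]
    positivity
  rw [← hR] at hval hosc ⊢
  have hsub : {t : ℝ | t ∈ Icc T R ∧ ∃ s : ℝ, |s - t| ≤ L * hT T ∧ D < |YB δ W T j s|} ⊆
      {t : ℝ | t ∈ Icc T R ∧ D / 2 < ‖DP (Pr δ T j) (fun _ => 1) W T t‖} ∪
      {t : ℝ | t ∈ Icc T R ∧ ∃ s : ℝ, |s - t| ≤ L * hT T ∧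
        D / 2 < ‖DP (Pr δ T j) (fun _ => 1) W T s - DP (Pr δ T j) (fun _ => 1) W T t‖} := by
    rintro t ⟨ht, s, hs, hs2⟩
    by_cases h1 : D / 2 < ‖DP (Pr δ T j) (fun _ => 1) W T t‖
    · exact Or.inl ⟨ht, h1⟩
    · right
      refine ⟨ht, s, hs, ?_⟩
      rw [not_lt] at h1
      have h2 := R3_yb δ W T j s
      have h3 : ‖DP (Pr δ T j) (fun _ => 1) W T s‖ ≤ ‖DP (Pr δ T j) (fun _ => 1) W T s - DP (Pr δ T j) (fun _ => 1) W T t‖ +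
          ‖DP (Pr δ T j) (fun _ => 1) W T t‖ := by
        have h4 := norm_add_le (DP (Pr δ T j) (fun _ => 1) W T s - DP (Pr δ T j) (fun _ => 1) W T t)
          (DP (Pr δ T j) (fun _ => 1) W T t)
        rw [sub_add_cancel] at h4
        exact h4
      linarith
  refine (measure_mono hsub).trans ((measure_union_le _ _).trans ((add_le_add hval hosc).trans ?_))
  rw [← ENNReal.ofReal_add (by positivity) (by
    have : 0 ≤ hT T := by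
      unfold hT
      positivity
    positivity)]
  refine ENNReal.ofReal_le_ofReal ?_
  have e1 : 4 * R * 3 / (D / 2) ^ 2 = 48 * R * (1 / D) ^ 2 := by
    field_simp
    ring
  have e2 : 8 * (L * hT T) * (4 * b * Real.log T) * R / (D / 2) = 128 * Real.pi * L * b * R * (1 / D) := by
    unfold hT
    field_simp
    ring
  rw [e1, e2]
  have hDp : 0 < 1 / D := by positivity
  have hb32 : (b ^ (3 / 4 : ℝ)) ^ 2 = b ^ (3 / 2 : ℝ) := by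
    rw [← Real.rpow_natCast, ← Real.rpow_mul hb0.le]
    norm_num
  have hq : (1 / D) ^ 2 ≤ 10000 * ((k : ℝ) + 1) ^ 2 * b ^ (3 / 2 : ℝ) := by
    calc (1 / D) ^ 2 ≤ (100 * ((k : ℝ) + 1) * b ^ (3 / 4 : ℝ)) ^ 2 := pow_le_pow_left₀ hDp.le hDinv 2
      _ = 10000 * ((k : ℝ) + 1) ^ 2 * (b ^ (3 / 4 : ℝ)) ^ 2 := by ring
      _ = _ := by rw [hb32]
  have hb74 : b * b ^ (3 / 4 : ℝ) ≤ b ^ (3 / 2 : ℝ) := by
    have h1 : b ≤ b ^ (3 / 4 : ℝ) := by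
      calc b = b ^ (1 : ℝ) := (Real.rpow_one b).symm
        _ ≤ b ^ (3 / 4 : ℝ) := Real.rpow_le_rpow_of_exponent_ge hb0 hb1 (by norm_num)
    rw [← hb32, sq]
    exact mul_le_mul_of_nonneg_right h1 (Real.rpow_nonneg hb0.le _)
  have hpi : Real.pi < 3.15 := Real.pi_lt_d2
  have hb32n : 0 ≤ b ^ (3 / 2 : ℝ) := Real.rpow_nonneg hb0.le _
  have hs : 128 * Real.pi * L * b * R * (1 / D) ≤ 50000 * L * ((k : ℝ) + 1) * b ^ (3 / 2 : ℝ) * R := by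
    calc 128 * Real.pi * L * b * R * (1 / D)
        ≤ 128 * Real.pi * L * b * R * (100 * ((k : ℝ) + 1) * b ^ (3 / 4 : ℝ)) := by gcongr
      _ = (12800 * Real.pi) * (L * ((k : ℝ) + 1) * R) * (b * b ^ (3 / 4 : ℝ)) := by ring
      _ ≤ (12800 * Real.pi) * (L * ((k : ℝ) + 1) * R) * b ^ (3 / 2 : ℝ) := by gcongr
      _ ≤ 50000 * (L * ((k : ℝ) + 1) * R) * b ^ (3 / 2 : ℝ) := by
        gcongr
        linarith
      _ = _ := by ring
  have hf : 48 * R * (1 / D) ^ 2 ≤ 480000 * ((k : ℝ) + 1) ^ 2 * b ^ (3 / 2 : ℝ) * R := by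
    calc 48 * R * (1 / D) ^ 2 ≤ 48 * R * (10000 * ((k : ℝ) + 1) ^ 2 * b ^ (3 / 2 : ℝ)) := by gcongr
      _ = _ := by ring
  calc 48 * R * (1 / D) ^ 2 + 128 * Real.pi * L * b * R * (1 / D)
      ≤ 480000 * ((k : ℝ) + 1) ^ 2 * b ^ (3 / 2 : ℝ) * R + 50000 * L * ((k : ℝ) + 1) * b ^ (3 / 2 : ℝ) * R :=
        add_le_add hf hs
    _ = R * ((480000 * ((k : ℝ) + 1) ^ 2 + 50000 * L * ((k : ℝ) + 1)) * b ^ (3 / 2 : ℝ)) := by ring

private theorem R3_bet {δ : ℝ} (hδ : 0 < δ) (hδ1 : δ ≤ 1) (j : ℕ) :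
    bet δ j ^ (3 / 2 : ℝ) ≤ δ * (1 / 2 : ℝ) ^ j := by
  have hb := bet_pos hδ j
  have hb1 := bet_le hδ j
  have h1 : bet δ j ^ (3 / 2 : ℝ) ≤ bet δ j ^ (1 : ℝ) :=
    Real.rpow_le_rpow_of_exponent_ge hb (hb1.trans hδ1) (by norm_num)
  rw [Real.rpow_one] at h1
  refine h1.trans ?_
  unfold bet
  apply mul_le_mul_of_nonneg_left _ hδ.le
  have h2 : Real.exp (-(j : ℝ)) = Real.exp (-1) ^ j := by
    rw [← Real.exp_nat_mul]; congr 1; ring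
  rw [h2]
  apply pow_le_pow_left₀ (Real.exp_pos _).le
  rw [Real.exp_neg, one_div]
  apply inv_anti₀ (by norm_num)
  have := Real.add_one_le_exp (1 : ℝ)
  linarith

theorem y_blockR (N k : ℕ) (L ε : ℝ) (hL : 0 ≤ L) (hε : 0 < ε) :
    ∃ δ₁ : ℝ, 0 < δ₁ ∧ ∀ δ : ℝ, 0 < δ → δ ≤ δ₁ → ∀ W : ℝ, 1 ≤ W → ∃ T₀ : ℝ, 2 ≤ T₀ ∧ ∀ T : ℝ, T₀ ≤ T →
      volume {t : ℝ | t ∈ Icc T (3 ^ N * T) ∧ ∃ s : ℝ, |s - t| ≤ L * hT T ∧
        ∃ j ∈ Finset.range (JJ T), (dd δ j : ℝ) / (100 * ((k : ℝ) + 1)) < |YB δ W T j s|} ≤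
          ENNReal.ofReal (ε * T) := by
  have hNp : (0 : ℝ) < 3 ^ N := by positivity
  set A : ℝ := 480000 * ((k : ℝ) + 1) ^ 2 + 50000 * L * ((k : ℝ) + 1) with hA
  have hk : (0 : ℝ) ≤ k := Nat.cast_nonneg k
  have hA0 : 0 < A := by positivity
  refine ⟨min (1 / 100) (ε / (2 * A * 3 ^ N)), lt_min (by norm_num) (by positivity), ?_⟩
  intro δ hδ hδ1 W hW
  have hδ100 : δ ≤ 1 / 100 := hδ1.trans (min_le_left _ _)
  have hδA : δ ≤ ε / (2 * A * 3 ^ N) := hδ1.trans (min_le_right _ _)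
  refine ⟨max 16 (8 * L), le_trans (by norm_num) (le_max_left _ _), ?_⟩
  intro T hTT
  have h16 : 16 ≤ T := (le_max_left _ _).trans hTT
  have h8L : 8 * L ≤ T := (le_max_right _ _).trans hTT
  have hT0 : 0 < T := by linarith
  have hlog : 2 ≤ Real.log T := by
    rw [Real.le_log_iff_exp_le hT0]
    have h1 : Real.exp 1 < 2.7182818286 := Real.exp_one_lt_d9
    have h0 := Real.exp_pos 1
    have h2 : Real.exp 2 = Real.exp 1 * Real.exp 1 := by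
      rw [← Real.exp_add]; norm_num
    rw [h2]
    nlinarith
  have hh : hT T ≤ 4 := by
    unfold hT
    rw [div_le_iff₀ (by linarith)]
    have := Real.pi_lt_d2
    linarith
  have hLT : L * hT T ≤ T / 2 := by
    have := mul_le_mul_of_nonneg_left hh hL
    linarith
  have hsub : {t : ℝ | t ∈ Icc T (3 ^ N * T) ∧ ∃ s : ℝ, |s - t| ≤ L * hT T ∧
        ∃ j ∈ Finset.range (JJ T), (dd δ j : ℝ) / (100 * ((k : ℝ) + 1)) < |YB δ W T j s|} ⊆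
      ⋃ j ∈ Finset.range (JJ T), {t : ℝ | t ∈ Icc T (3 ^ N * T) ∧ ∃ s : ℝ, |s - t| ≤ L * hT T ∧
        (dd δ j : ℝ) / (100 * ((k : ℝ) + 1)) < |YB δ W T j s|} := by
    rintro t ⟨ht, s, hs, j, hj, hlt⟩
    rw [Set.mem_iUnion₂]
    exact ⟨j, hj, ht, s, hs, hlt⟩
  refine (measure_mono hsub).trans ((measure_biUnion_finset_le _ _).trans ?_)
  refine (Finset.sum_le_sum (fun j _ => block_oneR N k hδ hδ100 (by linarith) h16 hL hLT j)).trans ?_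
  rw [← ENNReal.ofReal_sum_of_nonneg (fun j _ => by
    have := bet_pos hδ j
    positivity)]
  apply ENNReal.ofReal_le_ofReal
  have hg : ∑ j ∈ Finset.range (JJ T), (1 / 2 : ℝ) ^ j ≤ 2 := sum_geometric_two_le _
  calc ∑ j ∈ Finset.range (JJ T), 3 ^ N * T * (A * bet δ j ^ (3 / 2 : ℝ))
      ≤ ∑ j ∈ Finset.range (JJ T), 3 ^ N * T * (A * (δ * (1 / 2 : ℝ) ^ j)) := by
        apply Finset.sum_le_sum
        intro j _
        apply mul_le_mul_of_nonneg_left _ (by positivity)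
        exact mul_le_mul_of_nonneg_left (R3_bet hδ (by linarith) j) hA0.le
    _ = 3 ^ N * T * (A * δ) * ∑ j ∈ Finset.range (JJ T), (1 / 2 : ℝ) ^ j := by
        rw [Finset.mul_sum]
        apply Finset.sum_congr rfl
        intro j _
        ring
    _ ≤ 3 ^ N * T * (A * δ) * 2 := mul_le_mul_of_nonneg_left hg (by positivity)
    _ ≤ ε * T := by
        rw [le_div_iff₀ (by positivity)] at hδA
        have hq := mul_le_mul_of_nonneg_right hδA hT0.le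
        linarith

end Pool.Agent.Lib.MP_ec260d_ntB.Y
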