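import Pool.Agent.Lib.MP_ec260d_ntB.Y.SPa

/-!
# Y/SPb: sums over the primes of the blocks

PROOF (complete). By `mem_SP` the primes of `SP δ T` satisfy `10000 < p`, `log p ≤ δ log T`.
* `SP_log`, `SP_logsq`: `a0_log`, `a0_logsq` (BA0) with `b = δ log T`.
* `SP_sq`, `SP_32`: all `p > 10000` and different: `∑ 1/p^2 ≤ ∑_(n > 10000) 1/n^2 ≤ 1` and `∑ 1/p^(3/2) ≤ ∑_(n > 10000) n^(-3/2) ≤ 1`; elementary: `1/n^2 ≤ 1/(n-1) - 1/n` telescopes, and
  `n^(-3/2) ≤ 2/sqrt (n-1) - 2/sqrt n` telescopes to `2/100` (compare with a sum over `Finset.Ioc 10000 M`). (Any other proof, e.g. monotone integral test.)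
* `S2_mem`, `S2_sum`: `n = p^2`, `log n = 2 log p ≤ 2 δ log T ≤ log T / 4`; the map `p ↦ p^2` is injective, `Finset.sum_image`.
* `SP_diff`: `p ∈ SP δ T \ SP δ' T` has `δ' log T < log p ≤ δ log T`: `a0_inv` with `a = δ' log T ≥ 1`, `b = δ log T`: `(b - a + 8)/a ≤ δ/δ' + 8`.
-/

namespace Pool.Agent.Lib.MP_ec260d_ntB.Y

open Complex

theorem SP_log {δ T : ℝ} (hδ : 0 < δ) (hδ1 : δ ≤ 1) (hT : 3 ≤ T) :
    ∑ p ∈ SP δ T, Real.log p / p ≤ δ * Real.log T + 8 := by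
  have hl : 0 ≤ Real.log T := Real.log_nonneg (by linarith)
  exact a0_log _ _ (mul_nonneg hδ.le hl) fun p hp =>
    ⟨((mem_SP hδ hδ1 hT).1 hp).1, ((mem_SP hδ hδ1 hT).1 hp).2.2⟩

theorem SP_logsq {δ T : ℝ} (hδ : 0 < δ) (hδ1 : δ ≤ 1) (hT : 3 ≤ T) :
    ∑ p ∈ SP δ T, Real.log p ^ 2 / p ≤ δ * Real.log T * (δ * Real.log T + 8) := by
  have hl : 0 ≤ Real.log T := Real.log_nonneg (by linarith)
  exact a0_logsq _ _ (mul_nonneg hδ.le hl) fun p hp =>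
    ⟨((mem_SP hδ hδ1 hT).1 hp).1, ((mem_SP hδ hδ1 hT).1 hp).2.2⟩

private theorem spb_tele (g : ℕ → ℝ) (S : Finset ℕ) (a : ℕ) (hS : ∀ n ∈ S, a < n)
    (hg : ∀ n, a ≤ n → g (n + 1) ≤ g n) (h0 : ∀ n, a ≤ n → 0 ≤ g n) :
    ∑ n ∈ S, (g (n - 1) - g n) ≤ g a := by
  have h1 : ∀ M, a ≤ M → ∑ n ∈ Finset.Ioc a M, (g (n - 1) - g n) = g a - g M := by
    intro M hM
    induction M, hM using Nat.le_induction with
    | base => simp
    | succ m hm ih =>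
      rw [Finset.sum_Ioc_succ_top hm, ih, Nat.add_sub_cancel]
      ring
  have h2 : S ⊆ Finset.Ioc a (S.sup id + a) := by
    intro n hn
    rw [Finset.mem_Ioc]
    exact ⟨hS n hn, (Finset.le_sup (f := id) hn).trans (Nat.le_add_right _ _)⟩
  calc ∑ n ∈ S, (g (n - 1) - g n) ≤ ∑ n ∈ Finset.Ioc a (S.sup id + a), (g (n - 1) - g n) := by
        refine Finset.sum_le_sum_of_subset_of_nonneg h2 fun n hn _ => ?_
        rw [Finset.mem_Ioc] at hn
        have h3 := hg (n - 1) (by omega)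
        rw [Nat.sub_add_cancel (by omega)] at h3
        linarith
    _ = g a - g (S.sup id + a) := h1 _ (Nat.le_add_left _ _)
    _ ≤ g a := by linarith [h0 (S.sup id + a) (Nat.le_add_left _ _)]

theorem SP_sq {δ T : ℝ} (hδ : 0 < δ) (hδ1 : δ ≤ 1) (hT : 3 ≤ T) :
    ∑ p ∈ SP δ T, 1 / (p : ℝ) ^ 2 ≤ 1 := by
  have h0 : ∀ n : ℕ, 1 ≤ n → 1 / ((n + 1 : ℕ) : ℝ) ≤ 1 / (n : ℝ) := by
    intro n hn
    have hn0 : (0 : ℝ) < n := by exact_mod_cast hn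
    exact one_div_le_one_div_of_le hn0 (by push_cast; linarith)
  have h1 := spb_tele (fun n => 1 / (n : ℝ)) (SP δ T) 1
    (fun p hp => by have := ((mem_SP hδ hδ1 hT).1 hp).2.1; omega) h0
    (fun n _ => by positivity)
  refine le_trans (Finset.sum_le_sum fun p hp => ?_) (h1.trans (by simp))
  have hp1 := ((mem_SP hδ hδ1 hT).1 hp).2.1
  obtain ⟨m, rfl⟩ : ∃ m, p = m + 1 := ⟨p - 1, by omega⟩
  have hm : (0 : ℝ) < m := by
    have : 0 < m := by omega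
    exact_mod_cast this
  clear hp1 hp h0 h1
  simp only [Nat.add_sub_cancel]
  push_cast
  rw [div_sub_div _ _ hm.ne' (by positivity), div_le_div_iff₀ (by positivity) (by positivity)]
  nlinarith

theorem SP_32 {δ T : ℝ} (hδ : 0 < δ) (hδ1 : δ ≤ 1) (hT : 3 ≤ T) :
    ∑ p ∈ SP δ T, (p : ℝ) ^ (-(3 / 2) : ℝ) ≤ 1 := by
  have h0 : ∀ n : ℕ, 10000 ≤ n → 2 / Real.sqrt ((n + 1 : ℕ) : ℝ) ≤ 2 / Real.sqrt (n : ℝ) := by
    intro n hn
    have hn0 : (0 : ℝ) < n := by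
      have : 0 < n := by omega
      exact_mod_cast this
    exact div_le_div_of_nonneg_left (by norm_num) (Real.sqrt_pos.2 hn0)
      (Real.sqrt_le_sqrt (by push_cast; linarith))
  have h1 := spb_tele (fun n => 2 / Real.sqrt (n : ℝ)) (SP δ T) 10000
    (fun p hp => ((mem_SP hδ hδ1 hT).1 hp).2.1) h0
    (fun n _ => by positivity)
  have h2 : 2 / Real.sqrt ((10000 : ℕ) : ℝ) ≤ 1 := by
    have h3 : ((10000 : ℕ) : ℝ) = 100 ^ 2 := by norm_num
    rw [h3, Real.sqrt_sq (by norm_num)]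
    norm_num
  refine le_trans (Finset.sum_le_sum fun p hp => ?_) (h1.trans h2)
  have hp1 := ((mem_SP hδ hδ1 hT).1 hp).2.1
  obtain ⟨m, rfl⟩ : ∃ m, p = m + 1 := ⟨p - 1, by omega⟩
  have hm : (0 : ℝ) < m := by
    have : 0 < m := by omega
    exact_mod_cast this
  clear hp1 hp h0 h1 h2
  simp only [Nat.add_sub_cancel]
  obtain ⟨x, hx⟩ : ∃ x, x = Real.sqrt (m : ℝ) := ⟨_, rfl⟩
  obtain ⟨y, hy⟩ : ∃ y, y = Real.sqrt ((m + 1 : ℕ) : ℝ) := ⟨_, rfl⟩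
  have hx0 : 0 < x := by
    rw [hx]
    exact Real.sqrt_pos.2 hm
  have hm1 : (0 : ℝ) < ((m + 1 : ℕ) : ℝ) := by
    push_cast
    linarith
  have hy0 : 0 < y := by
    rw [hy]
    exact Real.sqrt_pos.2 hm1
  have hxx : x ^ 2 = m := by
    rw [hx, Real.sq_sqrt hm.le]
  have hyy : y ^ 2 = m + 1 := by
    rw [hy, Real.sq_sqrt hm1.le]
    push_cast
    ring
  have hxy : x ≤ y := by
    nlinarith
  have e1 : ((m + 1 : ℕ) : ℝ) ^ (-(3 / 2) : ℝ) = 1 / y ^ 3 := by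
    rw [Real.rpow_neg hm1.le, hy, Real.sqrt_eq_rpow, ← Real.rpow_natCast, ← Real.rpow_mul hm1.le,
      one_div]
    norm_num
  rw [e1, ← hx, ← hy]
  have e2 : 2 / x - 2 / y = 2 / (x * y * (x + y)) := by
    have h5 : (y - x) * (x + y) = 1 := by nlinarith
    have h6 : x + y ≠ 0 := by positivity
    rw [div_sub_div _ _ hx0.ne' hy0.ne', div_eq_div_iff (by positivity) (by positivity)]
    linear_combination 2 * x * y * h5
  rw [e2, div_le_div_iff₀ (by positivity) (by positivity)]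
  have h7 : x * y * (x + y) ≤ y * y * (y + y) := by
    have h8 : x * y ≤ y * y := mul_le_mul_of_nonneg_right hxy hy0.le
    exact mul_le_mul h8 (by linarith) (by positivity) (by positivity)
  nlinarith

theorem S2_mem {δ T : ℝ} (hδ : 0 < δ) (hδ1 : δ ≤ 1 / 100) (hT : 3 ≤ T) {n : ℕ} (hn : n ∈ S2 δ T) :
    1 ≤ n ∧ Real.log n ≤ Real.log T / 4 := by
  unfold S2 at hn
  rw [Finset.mem_image] at hn
  obtain ⟨p, hp, rfl⟩ := hn
  obtain ⟨h1, h2, h3⟩ := (mem_SP hδ (by linarith) hT).1 hp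
  have hl : 0 ≤ Real.log T := Real.log_nonneg (by linarith)
  refine ⟨Nat.one_le_pow _ _ h1.pos, ?_⟩
  push_cast
  rw [Real.log_pow]
  have h4 : δ * Real.log T ≤ 1 / 100 * Real.log T := mul_le_mul_of_nonneg_right hδ1 hl
  push_cast
  linarith

theorem S2_sum {δ T : ℝ} (hδ : 0 < δ) (hδ1 : δ ≤ 1) (hT : 3 ≤ T) :
    ∑ n ∈ S2 δ T, 1 / (n : ℝ) ≤ 1 := by
  unfold S2
  rw [Finset.sum_image fun a _ b _ h => Nat.pow_left_injective (by norm_num) h]
  refine le_trans (le_of_eq ?_) (SP_sq hδ hδ1 hT)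
  refine Finset.sum_congr rfl fun p _ => ?_
  push_cast
  rfl

theorem SP_diff {δ δ' T : ℝ} (hδ' : 0 < δ') (h : δ' ≤ δ) (hδ : δ ≤ 1) (hT : 3 ≤ T)
    (h1 : 1 ≤ δ' * Real.log T) :
    ∑ p ∈ SP δ T \ SP δ' T, 1 / (p : ℝ) ≤ δ / δ' + 8 := by
  have hl : 0 ≤ Real.log T := Real.log_nonneg (by linarith)
  have hδ0 : 0 < δ := hδ'.trans_le h
  have ha : 0 < δ' * Real.log T := by linarith
  have h2 := a0_inv (SP δ T \ SP δ' T) (δ' * Real.log T) (δ * Real.log T) ha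
    (mul_le_mul_of_nonneg_right h hl) (by
      intro p hp
      rw [Finset.mem_sdiff, mem_SP hδ0 hδ hT, mem_SP hδ' (h.trans hδ) hT] at hp
      obtain ⟨⟨h3, h4, h5⟩, h6⟩ := hp
      refine ⟨h3, ?_, h5⟩
      by_contra h7
      exact h6 ⟨h3, h4, not_lt.1 h7⟩)
  refine h2.trans ?_
  have hl0 : 0 < Real.log T := by
    rcases hl.lt_or_eq with h3 | h3
    · exact h3
    · rw [← h3] at ha
      simp at ha
  have e1 : (δ * Real.log T - δ' * Real.log T + 8) / (δ' * Real.log T) =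
      δ / δ' - 1 + 8 / (δ' * Real.log T) := by
    field_simp
  rw [e1]
  have h3 : 8 / (δ' * Real.log T) ≤ 8 := div_le_self (by norm_num) h1
  linarith

end Pool.Agent.Lib.MP_ec260d_ntB.Y
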