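import Pool.Agent.Lib.MP_ec260d_ntB.Y.Ms
import Pool.Agent.Lib.MP_ec260d_ntB.Y.SPb

/-!
# Y/R1: the estimates of `Y/Ms`, `Y/Sq` on the longer intervals `[T, 3 ^ N T]`

The interval is cut into the pieces `[3 ^ i T, 3 ^ (i+1) T]`. On such a piece the parameter `T` of the Dirichlet
polynomial is changed into `3 ^ i T` by changing `W` (`DP_par`).
-/

namespace Pool.Agent.Lib.MP_ec260d_ntB.Y

open Complex MeasureTheory Set

theorem DP_par {T : ℝ} (hT : Real.log T ≠ 0) (S : Finset ℕ) (c : ℕ → ℂ) (W T' t : ℝ) :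
    DP S c W T' t = DP S c (W * Real.log T / Real.log T') T t := by
  unfold DP sW
  have h : W / Real.log T' = (W * Real.log T / Real.log T') / Real.log T := by
    field_simp
  rw [h]

private theorem R1_split {N : ℕ} {T t : ℝ} (ht : t ∈ Icc T (3 ^ (N + 1) * T)) :
    t ∈ Icc T (3 ^ N * T) ∨ t ∈ Icc (3 ^ N * T) (3 * (3 ^ N * T)) := by
  rcases le_total t (3 ^ N * T) with h | h
  · exact Or.inl ⟨ht.1, h⟩
  · refine Or.inr ⟨h, ?_⟩
    have h2 := ht.2
    rw [pow_succ] at h2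
    linarith

private theorem R1_ge {T : ℝ} (hT : 16 ≤ T) (N : ℕ) : T ≤ 3 ^ N * T := by
  have h : (1 : ℝ) ≤ 3 ^ N := one_le_pow₀ (by norm_num)
  nlinarith

private theorem R1_add {x y z : ℝ} (hx : 0 ≤ x) (hy : 0 ≤ y) (h : x + y ≤ z) {a b c : ENNReal}
    (hab : a ≤ b + c) (hb : b ≤ ENNReal.ofReal x) (hc : c ≤ ENNReal.ofReal y) :
    a ≤ ENNReal.ofReal z := by
  refine hab.trans ((add_le_add hb hc).trans ?_)
  rw [← ENNReal.ofReal_add hx hy]
  exact ENNReal.ofReal_le_ofReal h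

theorem valR {T W A : ℝ} (hT : 16 ≤ T) (hW : 0 ≤ W) (hA : 0 < A) {S : Finset ℕ}
    (hS : ∀ n ∈ S, 1 ≤ n ∧ Real.log n ≤ Real.log T / 4) (c : ℕ → ℂ) {V : ℝ}
    (hV : ∑ n ∈ S, ‖c n‖ ^ 2 / n ≤ V) (N : ℕ) :
    volume {t : ℝ | t ∈ Icc T (3 ^ N * T) ∧ A < ‖DP S c W T t‖} ≤
      ENNReal.ofReal (4 * (3 ^ N * T) * V / A ^ 2) := by
  have hV0 : 0 ≤ V := le_trans (Finset.sum_nonneg fun n _ => by positivity) hV
  induction N with
  | zero =>
    refine (measure_mono ?_).trans ((val hT hW hA hS c hV).trans (le_of_eq ?_))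
    · rintro t ⟨ht, h⟩
      rw [pow_zero, one_mul] at ht
      exact ⟨⟨ht.1, by linarith [ht.2]⟩, h⟩
    · rw [pow_zero, one_mul]
  | succ N ih =>
    have hge := R1_ge hT N
    have hT0 : 0 < T := by linarith
    have hl : 0 < Real.log T := Real.log_pos (by linarith)
    have hll : Real.log T ≤ Real.log (3 ^ N * T) := Real.log_le_log hT0 hge
    have hl' : 0 < Real.log (3 ^ N * T) := by linarith
    have h1 := val (T := 3 ^ N * T) (W := W * Real.log (3 ^ N * T) / Real.log T) (A := A)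
      (hT.trans hge) (by positivity) hA (S := S) (fun n hn => ⟨(hS n hn).1, by linarith [(hS n hn).2]⟩) c hV
    refine R1_add (x := 4 * (3 ^ N * T) * V / A ^ 2) (y := 4 * (3 ^ N * T) * V / A ^ 2)
      (by positivity) (by positivity) ?_ (a := _) ?_ ih h1
    · rw [← add_div]
      refine div_le_div_of_nonneg_right ?_ (by positivity)
      have h2 : 0 ≤ 3 ^ N * T * V := by positivity
      rw [pow_succ]
      nlinarith
    · refine (measure_mono ?_).trans (measure_union_le _ _)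
      rintro t ⟨ht, h⟩
      rcases R1_split ht with h2 | h2
      · exact Or.inl ⟨h2, h⟩
      · refine Or.inr ⟨h2, ?_⟩
        rw [← DP_par (by linarith : Real.log (3 ^ N * T) ≠ 0)]
        exact h

theorem oscR {T W L A B : ℝ} (h16 : 16 ≤ T) (hW : 0 ≤ W) (hL : 0 ≤ L) (hLT : L * hT T ≤ T / 2)
    (hA : 0 < A) (hB : 0 ≤ B) {S : Finset ℕ}
    (hS : ∀ n ∈ S, 1 ≤ n ∧ Real.log n ≤ Real.log T / 4) (c : ℕ → ℂ)
    (hc : 4 * ∑ n ∈ S, ‖c n‖ ^ 2 * Real.log n ^ 2 / n ≤ B ^ 2) (N : ℕ) :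
    volume {t : ℝ | t ∈ Icc T (3 ^ N * T) ∧ ∃ s : ℝ, |s - t| ≤ L * hT T ∧
      A < ‖DP S c W T s - DP S c W T t‖} ≤ ENNReal.ofReal (8 * (L * hT T) * B * (3 ^ N * T) / A) := by
  have hT0 : 0 < T := by linarith
  have hl : 0 < Real.log T := Real.log_pos (by linarith)
  have hh : 0 < hT T := by
    unfold hT
    positivity
  induction N with
  | zero =>
    refine (measure_mono ?_).trans ((osc h16 hW hL hLT hA hB hS c hc).trans (le_of_eq ?_))
    · rintro t ⟨ht, h⟩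
      rw [pow_zero, one_mul] at ht
      exact ⟨⟨ht.1, by linarith [ht.2]⟩, h⟩
    · rw [pow_zero, one_mul]
  | succ N ih =>
    have hge := R1_ge h16 N
    have hll : Real.log T ≤ Real.log (3 ^ N * T) := Real.log_le_log hT0 hge
    have hl' : 0 < Real.log (3 ^ N * T) := by linarith
    have hh' : 0 < hT (3 ^ N * T) := by
      unfold hT
      positivity
    have hLe : L * hT T / hT (3 ^ N * T) * hT (3 ^ N * T) = L * hT T := div_mul_cancel₀ _ hh'.ne'
    have h1 := osc (T := 3 ^ N * T) (W := W * Real.log (3 ^ N * T) / Real.log T)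
      (L := L * hT T / hT (3 ^ N * T)) (A := A) (B := B)
      (h16.trans hge) (by positivity) (by positivity) (by rw [hLe]; linarith) hA hB (S := S)
      (fun n hn => ⟨(hS n hn).1, by linarith [(hS n hn).2]⟩) c hc
    rw [hLe] at h1
    refine R1_add (x := 8 * (L * hT T) * B * (3 ^ N * T) / A) (y := 8 * (L * hT T) * B * (3 ^ N * T) / A)
      (by positivity) (by positivity) ?_ (a := _) ?_ ih h1
    · rw [← add_div]
      refine div_le_div_of_nonneg_right ?_ (by positivity)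
      have h2 : 0 ≤ (L * hT T) * B * (3 ^ N * T) := by positivity
      rw [pow_succ]
      nlinarith
    · refine (measure_mono ?_).trans (measure_union_le _ _)
      rintro t ⟨ht, s, hs, h⟩
      rcases R1_split ht with h2 | h2
      · exact Or.inl ⟨h2, s, hs, h⟩
      · refine Or.inr ⟨h2, s, hs, ?_⟩
        rw [← DP_par (by linarith : Real.log (3 ^ N * T) ≠ 0), ← DP_par (by linarith : Real.log (3 ^ N * T) ≠ 0)]
        exact h

theorem sq_valR {δ W T A : ℝ} (hδ : 0 < δ) (hδ1 : δ ≤ 1 / 100) (hW : 0 ≤ W) (h16 : 16 ≤ T) (hA : 0 < A)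
    (N : ℕ) :
    volume {t : ℝ | t ∈ Icc T (3 ^ N * T) ∧ A < ‖DP (S2 δ T) (fun _ => 1) W T t‖} ≤
      ENNReal.ofReal (4 * (3 ^ N * T) / A ^ 2) := by
  have hT3 : 3 ≤ T := by linarith
  have h := valR (A := A) h16 hW hA (fun n hn => S2_mem hδ hδ1 hT3 hn) (fun _ => (1 : ℂ)) (V := 1)
    (by
      refine le_trans (le_of_eq ?_) (S2_sum hδ (by linarith : δ ≤ 1) hT3)
      apply Finset.sum_congr rfl
      intro n _
      rw [norm_one, one_pow]) N
  rw [mul_one] at h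
  exact h

private theorem R1_log {T : ℝ} (h16 : 16 ≤ T) : 2 ≤ Real.log T := by
  have h1 : Real.log 16 = 4 * Real.log 2 := by
    rw [show (16 : ℝ) = 2 ^ 4 by norm_num, Real.log_pow]
    norm_num
  have h2 := Real.log_two_gt_d9
  have h3 : Real.log 16 ≤ Real.log T := Real.log_le_log (by norm_num) h16
  linarith

theorem sp_oscR {δ W T L A : ℝ} (hδ : 0 < δ) (hδ1 : δ ≤ 1 / 100) (hW : 0 ≤ W) (h16 : 16 ≤ T)
    (hL : 0 ≤ L) (hLT : L * hT T ≤ T / 2) (hA : 0 < A) {S : Finset ℕ} (hS : S ⊆ SP δ T) (N : ℕ) :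
    volume {t : ℝ | t ∈ Icc T (3 ^ N * T) ∧ ∃ s : ℝ, |s - t| ≤ L * hT T ∧
      A < ‖DP S (fun _ => 1) W T s - DP S (fun _ => 1) W T t‖} ≤
        ENNReal.ofReal (16 * Real.pi * L * (3 ^ N * T) / A) := by
  have hT3 : 3 ≤ T := by linarith
  have hl := R1_log h16
  have hl0 : 0 < Real.log T := by linarith
  have hmem : ∀ n ∈ S, 1 ≤ n ∧ Real.log n ≤ Real.log T / 4 := by
    intro n hn
    have h1 := (mem_SP hδ (by linarith) hT3).mp (hS hn)
    refine ⟨h1.1.one_lt.le, h1.2.2.trans ?_⟩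
    nlinarith
  have hc : 4 * ∑ n ∈ S, ‖(1 : ℂ)‖ ^ 2 * Real.log n ^ 2 / n ≤ Real.log T ^ 2 := by
    have h1 : ∑ n ∈ S, ‖(1 : ℂ)‖ ^ 2 * Real.log n ^ 2 / n ≤ ∑ p ∈ SP δ T, Real.log p ^ 2 / p := by
      have h2 : ∑ n ∈ S, ‖(1 : ℂ)‖ ^ 2 * Real.log n ^ 2 / (n : ℝ) =
          ∑ n ∈ S, Real.log n ^ 2 / (n : ℝ) := by
        apply Finset.sum_congr rfl
        intro n _
        rw [norm_one, one_pow, one_mul]
      rw [h2]
      exact Finset.sum_le_sum_of_subset_of_nonneg hS (fun i _ _ => by positivity)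
    have h3 := SP_logsq hδ (by linarith : δ ≤ 1) hT3
    have h4 : δ * Real.log T * (δ * Real.log T + 8) ≤ Real.log T ^ 2 / 4 := by
      have h5 : δ * Real.log T ≤ Real.log T / 100 := by nlinarith
      have h6 : 0 ≤ δ * Real.log T := by positivity
      nlinarith
    linarith
  have h := oscR (B := Real.log T) h16 hW hL hLT hA hl0.le hmem (fun _ => (1 : ℂ)) hc N
  have h7 : 8 * (L * hT T) * Real.log T * (3 ^ N * T) / A = 16 * Real.pi * L * (3 ^ N * T) / A := by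
    unfold hT
    field_simp
    ring
  rw [h7] at h
  exact h

end Pool.Agent.Lib.MP_ec260d_ntB.Y
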