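import Pool.Agent.Lib.MP_ec260d_ntB.Y.Dec
import Pool.Agent.Lib.MP_ec260d_ntB.Y.R1
import Pool.Agent.Lib.MP_ec260d_ntB.Y.SPs

/-!
# Y/R4: `Y/YInc` on the longer intervals `[T, 3 ^ N T]`
-/

namespace Pool.Agent.Lib.MP_ec260d_ntB.Y

open Complex MeasureTheory Set

private theorem R4_shift {S : Finset ℕ} (hS : ∀ n ∈ S, 1 ≤ n) (W T t u : ℝ) :
    DP S (fun _ => 1) W T (t + u) - DP S (fun _ => 1) W T t =
      DP S (fun n => (n : ℂ) ^ (-((u : ℂ) * I)) - 1) W T t := by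
  unfold DP
  rw [← Finset.sum_sub_distrib]
  refine Finset.sum_congr rfl fun n hn => ?_
  have hn0 : (n : ℂ) ≠ 0 := by
    have h := hS n hn
    have h2 : n ≠ 0 := by omega
    exact Nat.cast_ne_zero.2 h2
  have h1 : -(sW W T (t + u)) = -((u : ℂ) * I) + -(sW W T t) := by
    unfold sW
    push_cast
    ring
  rw [h1, Complex.cpow_add _ _ hn0]
  ring

private theorem R4_norm {n : ℕ} (hn : 1 ≤ n) (u : ℝ) :
    ‖(n : ℂ) ^ (-((u : ℂ) * I)) - 1‖ ^ 2 ≤ 4 := by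
  have h1 : ‖(n : ℂ) ^ (-((u : ℂ) * I))‖ = 1 := by
    rw [Complex.norm_natCast_cpow_of_pos (by omega)]
    have h2 : (-((u : ℂ) * I)).re = 0 := by simp
    rw [h2, Real.rpow_zero]
  have h3 : ‖(n : ℂ) ^ (-((u : ℂ) * I)) - 1‖ ≤ 2 := by
    refine (norm_sub_le _ _).trans ?_
    rw [h1, norm_one]
    norm_num
  have h4 := norm_nonneg ((n : ℂ) ^ (-((u : ℂ) * I)) - 1)
  nlinarith

private theorem R4_diff {δ W T : ℝ} (hδ : 0 < δ) (hδ1 : δ ≤ 1 / 100) (hW : 0 ≤ W) (hT : 3 ≤ T)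
    (t u : ℝ) :
    |YY δ W T (t + u) - YY δ W T t| ≤
      ‖DP (SP δ T) (fun n => (n : ℂ) ^ (-((u : ℂ) * I)) - 1) W T t‖ +
        (1 / 2) * ‖DP (S2 δ T) (fun n => (n : ℂ) ^ (-((u : ℂ) * I)) - 1) W T t‖ + 40006 := by
  have hSP : ∀ n ∈ SP δ T, 1 ≤ n := fun n hn => by
    have h := ((mem_SP hδ (by linarith) hT).1 hn).2.1
    omega
  have hS2 : ∀ n ∈ S2 δ T, 1 ≤ n := fun n hn => (S2_mem hδ hδ1 hT hn).1
  have e1 := R4_shift hSP W T t u
  have e2 := R4_shift hS2 W T t u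
  have d1 := yy_dec (δ := δ) (W := W) (T := T) hδ (by linarith) hW hT (t + u)
  have d2 := yy_dec (δ := δ) (W := W) (T := T) hδ (by linarith) hW hT t
  rw [← e1, ← e2]
  generalize DP (SP δ T) (fun _ => 1) W T (t + u) = a at *
  generalize DP (SP δ T) (fun _ => 1) W T t = a' at *
  generalize DP (S2 δ T) (fun _ => 1) W T (t + u) = b at *
  generalize DP (S2 δ T) (fun _ => 1) W T t = b' at *
  have hpi : 0 ≤ 1 / Real.pi := by positivity
  have hpi1 : 1 / Real.pi ≤ 1 := by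
    rw [div_le_one Real.pi_pos]
    linarith [Real.pi_gt_three]
  have h1 : |(a - a' + 1 / 2 * (b - b')).im| ≤ ‖a - a'‖ + 1 / 2 * ‖b - b'‖ := by
    refine (Complex.abs_im_le_norm _).trans ((norm_add_le _ _).trans ?_)
    have h2 : ‖(1 / 2 : ℂ) * (b - b')‖ = 1 / 2 * ‖b - b'‖ := by
      rw [norm_mul]
      norm_num
    rw [h2]
  have h3 : |(1 / Real.pi) * (a + 1 / 2 * b).im - (1 / Real.pi) * (a' + 1 / 2 * b').im| ≤
      ‖a - a'‖ + 1 / 2 * ‖b - b'‖ := by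
    have h4 : (1 / Real.pi) * (a + 1 / 2 * b).im - (1 / Real.pi) * (a' + 1 / 2 * b').im =
        (1 / Real.pi) * (a - a' + 1 / 2 * (b - b')).im := by
      have h5 : a - a' + 1 / 2 * (b - b') = (a + 1 / 2 * b) - (a' + 1 / 2 * b') := by ring
      rw [h5, Complex.sub_im]
      ring
    rw [h4, abs_mul, abs_of_nonneg hpi]
    have h6 := abs_nonneg ((a - a' + 1 / 2 * (b - b')).im)
    have h7 : 1 / Real.pi * |(a - a' + 1 / 2 * (b - b')).im| ≤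
        1 * |(a - a' + 1 / 2 * (b - b')).im| := mul_le_mul_of_nonneg_right hpi1 h6
    linarith
  rw [abs_le] at d1 d2 h3 ⊢
  constructor <;> linarith [d1.1, d1.2, d2.1, d2.2, h3.1, h3.2]

private theorem R4_sub {x y q A' : ℝ} (hq : 1 / 2 ≤ q)
    (h : (4 * A' + 80012) * q < x + (1 / 2) * y + 40006) (hA' : 1 ≤ A') :
    A' * q < x ∨ A' * q < y := by
  by_contra hcon
  rw [not_or, not_lt, not_lt] at hcon
  obtain ⟨h1, h2⟩ := hcon
  have h3 : 0 ≤ A' * q := by positivity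
  nlinarith

theorem y_incR (N : ℕ) (δ W C ε : ℝ) (hδ : 0 < δ) (hδ1 : δ ≤ 1 / 100) (hW : 1 ≤ W) (_hC : 0 ≤ C) (hε : 0 < ε) :
    ∃ A T₀ : ℝ, 1 ≤ A ∧ 2 ≤ T₀ ∧ ∀ T : ℝ, T₀ ≤ T → ∀ u : ℝ, 0 ≤ u → u ≤ C →
      volume {t : ℝ | t ∈ Icc T (3 ^ N * T) ∧
        A * Real.sqrt (Real.log (2 + u * Real.log T)) < |YY δ W T (t + u) - YY δ W T t|} ≤
          ENNReal.ofReal (ε * T) := by
  obtain ⟨A', hA'⟩ : ∃ A' : ℝ, A' = 1 + 3200 * 3 ^ N / ε + 200 / ε := ⟨_, rfl⟩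
  have hp1 : 0 < 3200 * 3 ^ N / ε := by positivity
  have hp2 : 0 < 200 / ε := by positivity
  have hA1 : 1 ≤ A' := by linarith
  have hA0 : 0 < A' := by linarith
  refine ⟨4 * A' + 80012, 16, by linarith, by norm_num, ?_⟩
  intro T hT16 u hu huC
  have hT0 : 0 < T := by linarith
  have hT3 : 3 ≤ T := by linarith
  have hlT : 0 ≤ Real.log T := Real.log_nonneg (by linarith)
  have hW0 : 0 ≤ W := by linarith
  obtain ⟨l, hl⟩ : ∃ l : ℝ, l = Real.log (2 + u * Real.log T) := ⟨_, rfl⟩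
  have hl2 : 1 / 2 ≤ l := by
    rw [hl]
    have h1 : Real.log 2 ≤ Real.log (2 + u * Real.log T) :=
      Real.log_le_log (by norm_num) (by nlinarith [mul_nonneg hu hlT])
    linarith [Real.log_two_gt_d9]
  have hl0 : 0 < l := by linarith
  have hq0 : 0 < Real.sqrt l := Real.sqrt_pos.2 hl0
  have hqq : Real.sqrt l ^ 2 = l := Real.sq_sqrt hl0.le
  have hqh : 1 / 2 ≤ Real.sqrt l := by
    refine Real.le_sqrt_of_sq_le ?_
    linarith
  rw [← hl]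
  have hsub : {t : ℝ | t ∈ Icc T (3 ^ N * T) ∧
      (4 * A' + 80012) * Real.sqrt l < |YY δ W T (t + u) - YY δ W T t|} ⊆
      {t : ℝ | t ∈ Icc T (3 ^ N * T) ∧ A' * Real.sqrt l <
        ‖DP (SP δ T) (fun n => (n : ℂ) ^ (-((u : ℂ) * I)) - 1) W T t‖} ∪
      {t : ℝ | t ∈ Icc T (3 ^ N * T) ∧ A' * Real.sqrt l <
        ‖DP (S2 δ T) (fun n => (n : ℂ) ^ (-((u : ℂ) * I)) - 1) W T t‖} := by
    rintro t ⟨ht, h⟩
    have hd := R4_diff hδ hδ1 hW0 hT3 t u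
    rcases R4_sub hqh (h.trans_le hd) hA1 with h1 | h1
    · exact Or.inl ⟨ht, h1⟩
    · exact Or.inr ⟨ht, h1⟩
  have hSP : ∀ n ∈ SP δ T, 1 ≤ n ∧ Real.log n ≤ Real.log T / 4 := fun n hn => by
    obtain ⟨-, h1, h2⟩ := (mem_SP hδ (by linarith) hT3).1 hn
    exact ⟨by omega, by nlinarith⟩
  have hS2 : ∀ n ∈ S2 δ T, 1 ≤ n ∧ Real.log n ≤ Real.log T / 4 :=
    fun n hn => S2_mem hδ hδ1 hT3 hn
  have hA'q : 0 < A' * Real.sqrt l := by positivity
  have v1 := valR (T := T) (W := W) (A := A' * Real.sqrt l) hT16 hW0 hA'q hSP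
    (fun n => (n : ℂ) ^ (-((u : ℂ) * I)) - 1) (V := 400 * l) (by
      rw [hl]
      exact SP_shift hδ (by linarith) hT3 hu) N
  have v2 := valR (T := T) (W := W) (A := A' * Real.sqrt l) hT16 hW0 hA'q hS2
    (fun n => (n : ℂ) ^ (-((u : ℂ) * I)) - 1) (V := 4) (by
      calc ∑ n ∈ S2 δ T, ‖(n : ℂ) ^ (-((u : ℂ) * I)) - 1‖ ^ 2 / (n : ℝ)
          ≤ ∑ n ∈ S2 δ T, 4 * (1 / (n : ℝ)) := by
            refine Finset.sum_le_sum fun n hn => ?_
            have h1 := R4_norm (hS2 n hn).1 u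
            rw [div_eq_mul_one_div]
            exact mul_le_mul_of_nonneg_right h1 (by positivity)
        _ = 4 * ∑ n ∈ S2 δ T, 1 / (n : ℝ) := by rw [Finset.mul_sum]
        _ ≤ 4 := by linarith [S2_sum (δ := δ) (T := T) hδ (by linarith) hT3]) N
  refine (measure_mono hsub).trans ((measure_union_le _ _).trans ((add_le_add v1 v2).trans ?_))
  rw [← ENNReal.ofReal_add (by positivity) (by positivity)]
  refine ENNReal.ofReal_le_ofReal ?_
  have hden : (A' * Real.sqrt l) ^ 2 = A' ^ 2 * l := by rw [mul_pow, hqq]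
  rw [hden]
  have hA2 : A' ≤ A' ^ 2 := by nlinarith
  have hεA : 3200 * 3 ^ N ≤ ε * A' ^ 2 := by
    have h1 : 3200 * 3 ^ N / ε ≤ A' ^ 2 := by linarith
    have h2 := mul_le_mul_of_nonneg_left h1 hε.le
    have h3 : ε * (3200 * 3 ^ N / ε) = 3200 * 3 ^ N := by field_simp
    linarith
  have b1 : 4 * (3 ^ N * T) * (400 * l) / (A' ^ 2 * l) ≤ ε * T / 2 := by
    rw [div_le_iff₀ (by positivity)]
    have h1 : 3200 * 3 ^ N * (T * l) ≤ (ε * A' ^ 2) * (T * l) :=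
      mul_le_mul_of_nonneg_right hεA (by positivity)
    nlinarith
  have b2 : 4 * (3 ^ N * T) * 4 / (A' ^ 2 * l) ≤ ε * T / 2 := by
    rw [div_le_iff₀ (by positivity)]
    have h1 : 3200 * 3 ^ N * (T * l) ≤ (ε * A' ^ 2) * (T * l) :=
      mul_le_mul_of_nonneg_right hεA (by positivity)
    have h2 : (3 ^ N * T) * (1 / 2) ≤ (3 ^ N * T) * l := mul_le_mul_of_nonneg_left hl2 (by positivity)
    have h3 : 0 ≤ 3 ^ N * T := by positivity
    nlinarith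
  linarith

end Pool.Agent.Lib.MP_ec260d_ntB.Y
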