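import Pool.Agent.Lib.MP_ec260d_ntB.Y.Dec
import Pool.Agent.Lib.MP_ec260d_ntB.Y.R1

/-!
# Y/R5: size of `YY` on `[T, 3 ^ N T]`
-/

namespace Pool.Agent.Lib.MP_ec260d_ntB.Y

open Complex MeasureTheory Set

private theorem R5_dec {δ W T : ℝ} (hδ : 0 < δ) (hδ1 : δ ≤ 1) (hW : 0 ≤ W) (hT : 3 ≤ T) (t : ℝ) :
    |YY δ W T t| ≤ ‖DP (SP δ T) (fun _ => 1) W T t‖ + (1 / 2) * ‖DP (S2 δ T) (fun _ => 1) W T t‖ +
      20003 := by
  have h := yy_dec hδ hδ1 hW hT t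
  generalize DP (SP δ T) (fun _ => 1) W T t = a at *
  generalize DP (S2 δ T) (fun _ => 1) W T t = b at *
  have hpi : 0 ≤ 1 / Real.pi := by positivity
  have hpi1 : 1 / Real.pi ≤ 1 := by
    rw [div_le_one Real.pi_pos]
    linarith [Real.pi_gt_three]
  have h1 : |(a + 1 / 2 * b).im| ≤ ‖a‖ + 1 / 2 * ‖b‖ := by
    refine (Complex.abs_im_le_norm _).trans ((norm_add_le _ _).trans ?_)
    have h2 : ‖(1 / 2 : ℂ) * b‖ = 1 / 2 * ‖b‖ := by
      rw [norm_mul]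
      norm_num
    rw [h2]
  have h3 : |(1 / Real.pi) * (a + 1 / 2 * b).im| ≤ ‖a‖ + 1 / 2 * ‖b‖ := by
    rw [abs_mul, abs_of_nonneg hpi]
    have h7 : 1 / Real.pi * |(a + 1 / 2 * b).im| ≤ 1 * |(a + 1 / 2 * b).im| :=
      mul_le_mul_of_nonneg_right hpi1 (abs_nonneg _)
    linarith
  have h4 := abs_add_le (YY δ W T t - (1 / Real.pi) * (a + 1 / 2 * b).im)
    ((1 / Real.pi) * (a + 1 / 2 * b).im)
  rw [sub_add_cancel] at h4
  linarith

private theorem R5_var {δ T : ℝ} (hδ : 0 < δ) (hδ1 : δ ≤ 1) (hT : 3 ≤ T)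
    (hll : 1 ≤ Real.log (Real.log T)) :
    ∑ p ∈ SP δ T, 1 / (p : ℝ) ≤ 57 * Real.log (Real.log T) := by
  have hl : 1 ≤ Real.log T := by
    by_contra hcon
    rw [not_le] at hcon
    have h1 : Real.log (Real.log T) ≤ 0 :=
      Real.log_nonpos (Real.log_nonneg (by linarith)) hcon.le
    linarith
  have h := a0_inv_log (SP δ T) 1 (Real.log T) (by norm_num) hl fun p hp => by
    obtain ⟨h1, h2, h3⟩ := (mem_SP hδ hδ1 hT).1 hp
    refine ⟨h1, ?_, h3.trans (by nlinarith)⟩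
    have h4 : Real.log 10000 ≤ Real.log p :=
      Real.log_le_log (by norm_num) (by exact_mod_cast h2.le)
    linarith [log10000]
  rw [div_one] at h
  linarith

theorem y_absR (N : ℕ) (δ W ε : ℝ) (hδ : 0 < δ) (hδ1 : δ ≤ 1 / 100) (hW : 1 ≤ W) (hε : 0 < ε) :
    ∃ A T₀ : ℝ, 1 ≤ A ∧ 2 ≤ T₀ ∧ ∀ T : ℝ, T₀ ≤ T →
      volume {t : ℝ | t ∈ Icc T (3 ^ N * T) ∧
        A * Real.sqrt (Real.log (Real.log T)) < |YY δ W T t|} ≤ ENNReal.ofReal (ε * T) := by
  obtain ⟨R, hR⟩ : ∃ R : ℝ, R = 3 ^ N := ⟨_, rfl⟩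
  have hR0 : 0 < R := by
    rw [hR]
    positivity
  obtain ⟨A', hA'⟩ : ∃ A' : ℝ, A' = 1 + 232 * R / ε := ⟨_, rfl⟩
  have hA'1 : 1 ≤ A' := by
    have : 0 < 232 * R / ε := by positivity
    linarith
  have hA'0 : 0 < A' := by linarith
  refine ⟨2 * A' + 20003, max 16 (Real.exp (Real.exp 1)), by linarith,
    le_trans (by norm_num) (le_max_left _ _), ?_⟩
  intro T hTT
  have h16 : 16 ≤ T := (le_max_left _ _).trans hTT
  have hexp : Real.exp (Real.exp 1) ≤ T := (le_max_right _ _).trans hTT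
  have hT3 : 3 ≤ T := by linarith
  have hT0 : 0 < T := by linarith
  have hW0 : 0 ≤ W := by linarith
  have hδ1' : δ ≤ 1 := by linarith
  have hl : Real.exp 1 ≤ Real.log T := by
    rw [Real.le_log_iff_exp_le hT0]
    exact hexp
  have hll : 1 ≤ Real.log (Real.log T) := by
    rw [Real.le_log_iff_exp_le (by linarith [Real.exp_pos 1])]
    exact hl
  obtain ⟨l, hl'⟩ : ∃ l : ℝ, l = Real.log (Real.log T) := ⟨_, rfl⟩
  rw [← hl'] at hll
  have hl0 : 0 < l := by linarith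
  have hqq : Real.sqrt l ^ 2 = l := Real.sq_sqrt hl0.le
  have hq1 : 1 ≤ Real.sqrt l := by
    refine Real.le_sqrt_of_sq_le ?_
    linarith
  rw [← hl']
  have hsub : {t : ℝ | t ∈ Icc T (3 ^ N * T) ∧ (2 * A' + 20003) * Real.sqrt l < |YY δ W T t|} ⊆
      {t : ℝ | t ∈ Icc T (3 ^ N * T) ∧ A' * Real.sqrt l < ‖DP (SP δ T) (fun _ => 1) W T t‖} ∪
      {t : ℝ | t ∈ Icc T (3 ^ N * T) ∧ A' * Real.sqrt l < ‖DP (S2 δ T) (fun _ => 1) W T t‖} := by
    rintro t ⟨ht, h⟩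
    have hd := R5_dec hδ hδ1' hW0 hT3 t
    by_contra hnot
    rw [mem_union, not_or] at hnot
    obtain ⟨n1, n2⟩ := hnot
    have b1 : ‖DP (SP δ T) (fun _ => 1) W T t‖ ≤ A' * Real.sqrt l := by
      by_contra hh
      exact n1 ⟨ht, not_le.1 hh⟩
    have b2 : ‖DP (S2 δ T) (fun _ => 1) W T t‖ ≤ A' * Real.sqrt l := by
      by_contra hh
      exact n2 ⟨ht, not_le.1 hh⟩
    nlinarith
  have hSP : ∀ n ∈ SP δ T, 1 ≤ n ∧ Real.log n ≤ Real.log T / 4 := fun n hn => by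
    obtain ⟨-, h1, h2⟩ := (mem_SP hδ hδ1' hT3).1 hn
    have h3 : 0 ≤ Real.log T := by linarith [Real.exp_pos 1]
    exact ⟨by omega, by nlinarith⟩
  have hA'q : 0 < A' * Real.sqrt l := by positivity
  have v1 := valR (T := T) (W := W) (A := A' * Real.sqrt l) h16 hW0 hA'q hSP
    (fun _ => 1) (V := 57 * l) (by
      rw [hl']
      rw [hl'] at hll
      refine le_trans (le_of_eq ?_) (R5_var hδ hδ1' hT3 hll)
      refine Finset.sum_congr rfl fun n _ => ?_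
      rw [norm_one, one_pow]) N
  have v2 := sq_valR (A := A' * Real.sqrt l) hδ hδ1 hW0 h16 hA'q N
  refine (measure_mono hsub).trans ((measure_union_le _ _).trans ((add_le_add v1 v2).trans ?_))
  rw [← ENNReal.ofReal_add (by positivity) (by positivity)]
  refine ENNReal.ofReal_le_ofReal ?_
  have hden : (A' * Real.sqrt l) ^ 2 = A' ^ 2 * l := by rw [mul_pow, hqq]
  rw [hden, ← hR]
  have hεA : 232 * R ≤ ε * A' ^ 2 := by
    have h1 : 232 * R / ε ≤ A' ^ 2 := by nlinarith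
    have h2 := mul_le_mul_of_nonneg_left h1 hε.le
    have h3 : ε * (232 * R / ε) = 232 * R := by field_simp
    linarith
  rw [← add_div, div_le_iff₀ (by positivity)]
  have h1 : 232 * R * (T * l) ≤ (ε * A' ^ 2) * (T * l) :=
    mul_le_mul_of_nonneg_right hεA (by positivity)
  have h2 : R * T * 1 ≤ R * T * l := mul_le_mul_of_nonneg_left hll (by positivity)
  nlinarith

end Pool.Agent.Lib.MP_ec260d_ntB.Y
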