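import Pool.Agent.Lib.MP_ec260d_ntB.Y.Dec
import Pool.Agent.Lib.MP_ec260d_ntB.Y.R1

/-!
# Y/R6: dependence of `YY` on the parameter `T`

For `T ≤ T' ≤ 3 ^ N T` the functions `YY δ W T'` and `YY δ W T` differ by a bounded amount outside a small set: the
primes in `(T ^ δ, T' ^ δ]` have bounded variance, and so has the change of the weight `p ^ (-W / log T)`.
-/

namespace Pool.Agent.Lib.MP_ec260d_ntB.Y

open Complex MeasureTheory Set

private theorem R6_dec {δ W T T' : ℝ} (hδ : 0 < δ) (hδ1 : δ ≤ 1) (hW : 0 ≤ W) (hT : 3 ≤ T)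
    (hT' : 3 ≤ T') (t : ℝ) :
    |YY δ W T' t - YY δ W T t| ≤
      ‖DP (SP δ T') (fun _ => 1) W T' t - DP (SP δ T) (fun _ => 1) W T t‖ +
      (1 / 2) * (‖DP (S2 δ T') (fun _ => 1) W T' t‖ + ‖DP (S2 δ T) (fun _ => 1) W T t‖) + 40006 := by
  have d1 := yy_dec hδ hδ1 hW hT' t
  have d2 := yy_dec hδ hδ1 hW hT t
  generalize DP (SP δ T') (fun _ => 1) W T' t = a at *
  generalize DP (S2 δ T') (fun _ => 1) W T' t = b at *
  generalize DP (SP δ T) (fun _ => 1) W T t = a' at *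
  generalize DP (S2 δ T) (fun _ => 1) W T t = b' at *
  have hpi : 0 ≤ 1 / Real.pi := by positivity
  have hpi1 : 1 / Real.pi ≤ 1 := by
    rw [div_le_one Real.pi_pos]
    linarith [Real.pi_gt_three]
  have h1 : |(a - a' + 1 / 2 * (b - b')).im| ≤ ‖a - a'‖ + 1 / 2 * (‖b‖ + ‖b'‖) := by
    refine (Complex.abs_im_le_norm _).trans ((norm_add_le _ _).trans ?_)
    have h2 : ‖(1 / 2 : ℂ) * (b - b')‖ = 1 / 2 * ‖b - b'‖ := by
      rw [norm_mul]
      norm_num
    rw [h2]
    linarith [norm_sub_le b b']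
  have h3 : |(1 / Real.pi) * (a + 1 / 2 * b).im - (1 / Real.pi) * (a' + 1 / 2 * b').im| ≤
      ‖a - a'‖ + 1 / 2 * (‖b‖ + ‖b'‖) := by
    have h4 : (1 / Real.pi) * (a + 1 / 2 * b).im - (1 / Real.pi) * (a' + 1 / 2 * b').im =
        (1 / Real.pi) * (a - a' + 1 / 2 * (b - b')).im := by
      have h5 : a - a' + 1 / 2 * (b - b') = (a + 1 / 2 * b) - (a' + 1 / 2 * b') := by ring
      rw [h5, Complex.sub_im]
      ring
    rw [h4, abs_mul, abs_of_nonneg hpi]
    have h7 : 1 / Real.pi * |(a - a' + 1 / 2 * (b - b')).im| ≤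
        1 * |(a - a' + 1 / 2 * (b - b')).im| := mul_le_mul_of_nonneg_right hpi1 (abs_nonneg _)
    linarith
  rw [abs_le] at d1 d2 h3 ⊢
  constructor <;> linarith [d1.1, d1.2, d2.1, d2.2, h3.1, h3.2]

private theorem R6_mono {δ T T' : ℝ} (hδ : 0 < δ) (hδ1 : δ ≤ 1) (hT : 3 ≤ T) (hTT : T ≤ T') :
    SP δ T ⊆ SP δ T' := by
  intro p hp
  rw [mem_SP hδ hδ1 hT] at hp
  rw [mem_SP hδ hδ1 (hT.trans hTT)]
  refine ⟨hp.1, hp.2.1, hp.2.2.trans (mul_le_mul_of_nonneg_left ?_ hδ.le)⟩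
  exact Real.log_le_log (by linarith) hTT

/-- the change of the weights -/
private noncomputable def R6c (W T T' : ℝ) (n : ℕ) : ℂ :=
  (n : ℂ) ^ (((W / Real.log T - W / Real.log T' : ℝ)) : ℂ) - 1

private theorem R6_shift {S : Finset ℕ} (hS : ∀ n ∈ S, 1 ≤ n) (W T T' t : ℝ) :
    DP S (fun _ => 1) W T' t - DP S (fun _ => 1) W T t = DP S (R6c W T T') W T t := by
  unfold DP R6c
  rw [← Finset.sum_sub_distrib]
  refine Finset.sum_congr rfl fun n hn => ?_
  have hn0 : (n : ℂ) ≠ 0 := by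
    have h := hS n hn
    have h2 : n ≠ 0 := by omega
    exact Nat.cast_ne_zero.2 h2
  have h1 : -(sW W T' t) = (((W / Real.log T - W / Real.log T' : ℝ)) : ℂ) + -(sW W T t) := by
    unfold sW
    push_cast
    ring
  rw [h1, Complex.cpow_add _ _ hn0]
  ring

private theorem R6_norm {W T T' : ℝ} (hW : 0 ≤ W) (hT : 3 ≤ T) (hTT : T ≤ T') {n : ℕ} (hn : 1 ≤ n)
    (hnl : Real.log n ≤ Real.log T) :
    ‖R6c W T T' n‖ ^ 2 ≤ (Real.exp W * W) ^ 2 / Real.log T ^ 2 * Real.log n ^ 2 := by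
  have hl : 0 < Real.log T := Real.log_pos (by linarith)
  have hll : Real.log T ≤ Real.log T' := Real.log_le_log (by linarith) hTT
  have hl' : 0 < Real.log T' := by linarith
  have hln : 0 ≤ Real.log n := Real.log_natCast_nonneg n
  obtain ⟨κ, hκ⟩ : ∃ κ : ℝ, κ = W / Real.log T - W / Real.log T' := ⟨_, rfl⟩
  have hκ0 : 0 ≤ κ := by
    rw [hκ, sub_nonneg]
    exact div_le_div_of_nonneg_left hW hl hll
  have hκ1 : κ ≤ W / Real.log T := by
    rw [hκ]
    have : 0 ≤ W / Real.log T' := by positivity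
    linarith
  have hnp : (0 : ℝ) < n := by exact_mod_cast hn
  have h1 : R6c W T T' n = ((Real.exp (Real.log n * κ) - 1 : ℝ) : ℂ) := by
    unfold R6c
    rw [← hκ, ← Complex.ofReal_natCast, ← Complex.ofReal_cpow hnp.le, Real.rpow_def_of_pos hnp]
    push_cast
    rfl
  have h2 : 1 ≤ Real.exp (Real.log n * κ) := Real.one_le_exp (by positivity)
  have hx : Real.log n * κ ≤ Real.log n * W / Real.log T := by
    calc Real.log n * κ ≤ Real.log n * (W / Real.log T) := mul_le_mul_of_nonneg_left hκ1 hln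
      _ = _ := by ring
  have hxW : Real.log n * W / Real.log T ≤ W := by
    rw [div_le_iff₀ hl]
    nlinarith
  have h3 : Real.exp (Real.log n * κ) - 1 ≤ Real.exp W * W / Real.log T * Real.log n := by
    have h4 : Real.exp (Real.log n * κ) - 1 ≤ (Real.log n * κ) * Real.exp (Real.log n * κ) := by
      have h5 := Real.add_one_le_exp (-(Real.log n * κ))
      have h6 : Real.exp (-(Real.log n * κ)) * Real.exp (Real.log n * κ) = 1 := by
        rw [← Real.exp_add]
        simp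
      nlinarith [mul_le_mul_of_nonneg_right h5 (Real.exp_pos (Real.log n * κ)).le]
    have h5 : Real.exp (Real.log n * κ) ≤ Real.exp W := Real.exp_le_exp.2 (hx.trans hxW)
    calc Real.exp (Real.log n * κ) - 1 ≤ (Real.log n * κ) * Real.exp (Real.log n * κ) := h4
      _ ≤ (Real.log n * W / Real.log T) * Real.exp W :=
        mul_le_mul hx h5 (Real.exp_pos _).le (by positivity)
      _ = _ := by ring
  rw [h1, Complex.norm_real, Real.norm_eq_abs, abs_of_nonneg (by linarith)]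
  calc (Real.exp (Real.log n * κ) - 1) ^ 2 ≤ (Real.exp W * W / Real.log T * Real.log n) ^ 2 :=
        pow_le_pow_left₀ (by linarith) h3 2
    _ = _ := by ring

theorem y_parR (N : ℕ) (δ W ε : ℝ) (hδ : 0 < δ) (hδ1 : δ ≤ 1 / 100) (hW : 1 ≤ W) (hε : 0 < ε) :
    ∃ A T₀ : ℝ, 1 ≤ A ∧ 2 ≤ T₀ ∧ ∀ T : ℝ, T₀ ≤ T → ∀ T' : ℝ, T ≤ T' → T' ≤ 3 ^ N * T →
      volume {t : ℝ | t ∈ Icc T (3 ^ N * T) ∧ A < |YY δ W T' t - YY δ W T t|} ≤
        ENNReal.ofReal (ε * T) := by
  obtain ⟨R, hR⟩ : ∃ R : ℝ, R = 3 ^ N := ⟨_, rfl⟩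
  have hR1 : 1 ≤ R := by
    rw [hR]
    exact one_le_pow₀ (by norm_num)
  have hR0 : 0 < R := by linarith
  obtain ⟨V, hV⟩ : ∃ V : ℝ, V = (Real.exp W * W) ^ 2 := ⟨_, rfl⟩
  have hV0 : 0 ≤ V := by
    rw [hV]
    positivity
  obtain ⟨A', hA'⟩ : ∃ A' : ℝ, A' = 1 + 4 * R * (11 + V) / ε := ⟨_, rfl⟩
  have hA'1 : 1 ≤ A' := by
    have : 0 < 4 * R * (11 + V) / ε := by positivity
    linarith
  have hA'0 : 0 < A' := by linarith
  refine ⟨3 * A' + 40006, max (max 16 R) (Real.exp (1 / δ)), by linarith,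
    le_trans (by norm_num) ((le_max_left _ _).trans (le_max_left _ _)), ?_⟩
  intro T hTT T' hT1 hT2
  have h16 : 16 ≤ T := ((le_max_left _ _).trans (le_max_left _ _)).trans hTT
  have hRT : R ≤ T := ((le_max_right _ _).trans (le_max_left _ _)).trans hTT
  have hexp : Real.exp (1 / δ) ≤ T := (le_max_right _ _).trans hTT
  have hT3 : 3 ≤ T := by linarith
  have hT3' : 3 ≤ T' := by linarith
  have hT0 : 0 < T := by linarith
  have hW0 : 0 ≤ W := by linarith
  have hδ1' : δ ≤ 1 := by linarith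
  have hl : 1 ≤ δ * Real.log T := by
    have h5 : 1 / δ ≤ Real.log T := by
      rw [Real.le_log_iff_exp_le hT0]
      exact hexp
    rw [div_le_iff₀ hδ] at h5
    linarith
  have hlT : 0 < Real.log T := Real.log_pos (by linarith)
  have hlT1 : Real.log T ≤ Real.log T' := Real.log_le_log hT0 hT1
  have hlT0' : 0 < Real.log T' := by linarith
  have hlT2 : Real.log T' ≤ 2 * Real.log T := by
    have h5 : Real.log T' ≤ Real.log (T * T) := by
      refine Real.log_le_log (by linarith) (hT2.trans ?_)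
      rw [← hR]
      exact mul_le_mul_of_nonneg_right hRT hT0.le
    rw [Real.log_mul hT0.ne' hT0.ne'] at h5
    linarith
  obtain ⟨W', hW'⟩ : ∃ W' : ℝ, W' = W * Real.log T / Real.log T' := ⟨_, rfl⟩
  have hW'0 : 0 ≤ W' := by
    rw [hW']
    positivity
  have hpar : ∀ (S : Finset ℕ) (t : ℝ), DP S (fun _ => 1) W T' t = DP S (fun _ => 1) W' T t := by
    intro S t
    rw [hW']
    exact DP_par hlT.ne' S _ W T' t
  have hS1 : SP δ T ⊆ SP δ T' := R6_mono hδ hδ1' hT3 hT1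
  have hsplit : ∀ t, DP (SP δ T') (fun _ => 1) W T' t - DP (SP δ T) (fun _ => 1) W T t =
      DP (SP δ T' \ SP δ T) (fun _ => 1) W' T t + DP (SP δ T) (R6c W T T') W T t := by
    intro t
    rw [← R6_shift (fun n hn => by
      have h := ((mem_SP hδ hδ1' hT3).1 hn).2.1
      omega), ← hpar]
    have h1 : DP (SP δ T') (fun _ => 1) W T' t = DP (SP δ T' \ SP δ T) (fun _ => 1) W T' t +
        DP (SP δ T) (fun _ => 1) W T' t := by
      unfold DP
      rw [Finset.sum_sdiff hS1]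
    rw [h1]
    ring
  have hsub : {t : ℝ | t ∈ Icc T (3 ^ N * T) ∧ 3 * A' + 40006 < |YY δ W T' t - YY δ W T t|} ⊆
      ({t : ℝ | t ∈ Icc T (3 ^ N * T) ∧ A' < ‖DP (SP δ T' \ SP δ T) (fun _ => 1) W' T t‖} ∪
      {t : ℝ | t ∈ Icc T (3 ^ N * T) ∧ A' < ‖DP (SP δ T) (R6c W T T') W T t‖}) ∪
      ({t : ℝ | t ∈ Icc T (3 ^ N * T) ∧ A' < ‖DP (S2 δ T') (fun _ => 1) W' T t‖} ∪
      {t : ℝ | t ∈ Icc T (3 ^ N * T) ∧ A' < ‖DP (S2 δ T) (fun _ => 1) W T t‖}) := by
    rintro t ⟨ht, h⟩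
    have hd := R6_dec hδ hδ1' hW0 hT3 hT3' t
    rw [hsplit, hpar (S2 δ T')] at hd
    have hn := norm_add_le (DP (SP δ T' \ SP δ T) (fun _ => 1) W' T t) (DP (SP δ T) (R6c W T T') W T t)
    by_contra hnot
    rw [mem_union, mem_union, mem_union, not_or, not_or, not_or] at hnot
    obtain ⟨⟨n1, n2⟩, n3, n4⟩ := hnot
    have b1 : ‖DP (SP δ T' \ SP δ T) (fun _ => 1) W' T t‖ ≤ A' := by
      by_contra hh
      exact n1 ⟨ht, not_le.1 hh⟩
    have b2 : ‖DP (SP δ T) (R6c W T T') W T t‖ ≤ A' := by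
      by_contra hh
      exact n2 ⟨ht, not_le.1 hh⟩
    have b3 : ‖DP (S2 δ T') (fun _ => 1) W' T t‖ ≤ A' := by
      by_contra hh
      exact n3 ⟨ht, not_le.1 hh⟩
    have b4 : ‖DP (S2 δ T) (fun _ => 1) W T t‖ ≤ A' := by
      by_contra hh
      exact n4 ⟨ht, not_le.1 hh⟩
    linarith
  have hm : ∀ p ∈ SP δ T', 10000 < p ∧ Real.log p ≤ 2 * (δ * Real.log T) := fun p hp => by
    obtain ⟨-, h1, h2⟩ := (mem_SP hδ hδ1' hT3').1 hp
    refine ⟨h1, h2.trans ?_⟩
    have := mul_le_mul_of_nonneg_left hlT2 hδ.le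
    linarith
  have hδl : δ * Real.log T ≤ Real.log T / 100 := by
    have := mul_le_mul_of_nonneg_right hδ1 hlT.le
    linarith
  have v1 := valR (T := T) (W := W') (A := A') h16 hW'0 hA'0 (S := SP δ T' \ SP δ T)
    (fun n hn => by
      obtain ⟨h1, h2⟩ := hm n (Finset.sdiff_subset hn)
      exact ⟨by omega, by linarith⟩) (fun _ => 1) (V := 9) (by
      have h1 := a0_inv (SP δ T' \ SP δ T) (δ * Real.log T) (2 * (δ * Real.log T)) (by linarith)
        (by linarith) (fun p hp => by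
          have hp1 := Finset.mem_sdiff.1 hp
          obtain ⟨h1, h2⟩ := hm p hp1.1
          have h3 := (mem_SP hδ hδ1' hT3').1 hp1.1
          refine ⟨h3.1, ?_, h2⟩
          by_contra hcon
          exact hp1.2 ((mem_SP hδ hδ1' hT3).2 ⟨h3.1, h1, not_lt.1 hcon⟩))
      have h2 : (2 * (δ * Real.log T) - δ * Real.log T + 8) / (δ * Real.log T) ≤ 9 := by
        rw [div_le_iff₀ (by linarith)]
        linarith
      refine le_trans (le_of_eq ?_) (h1.trans h2)
      refine Finset.sum_congr rfl fun n _ => ?_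
      rw [norm_one, one_pow]) N
  have v2 := valR (T := T) (W := W) (A := A') h16 hW0 hA'0 (S := SP δ T)
    (fun n hn => by
      obtain ⟨-, h1, h2⟩ := (mem_SP hδ hδ1' hT3).1 hn
      exact ⟨by omega, by linarith⟩) (R6c W T T') (V := V) (by
      have h1 := SP_logsq hδ hδ1' hT3
      have h2 : δ * Real.log T * (δ * Real.log T + 8) ≤ Real.log T ^ 2 := by
        have h5 : 0 ≤ δ * Real.log T := by linarith
        have h6 : 1 ≤ Real.log T / 100 := by linarith
        nlinarith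
      calc ∑ n ∈ SP δ T, ‖R6c W T T' n‖ ^ 2 / (n : ℝ)
          ≤ ∑ n ∈ SP δ T, V / Real.log T ^ 2 * (Real.log n ^ 2 / (n : ℝ)) := by
            refine Finset.sum_le_sum fun n hn => ?_
            obtain ⟨-, h3, h4⟩ := (mem_SP hδ hδ1' hT3).1 hn
            have h5 := R6_norm (T' := T') hW0 hT3 hT1 (n := n) (by omega) (by linarith)
            rw [← hV] at h5
            rw [← mul_div_assoc]
            exact div_le_div_of_nonneg_right h5 (Nat.cast_nonneg n)
        _ = V / Real.log T ^ 2 * ∑ n ∈ SP δ T, Real.log n ^ 2 / (n : ℝ) := by rw [Finset.mul_sum]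
        _ ≤ V / Real.log T ^ 2 * Real.log T ^ 2 :=
            mul_le_mul_of_nonneg_left (h1.trans h2) (by positivity)
        _ = V := by field_simp) N
  have v3 := valR (T := T) (W := W') (A := A') h16 hW'0 hA'0 (S := S2 δ T')
    (fun n hn => by
      unfold S2 at hn
      rw [Finset.mem_image] at hn
      obtain ⟨p, hp, rfl⟩ := hn
      obtain ⟨h1, h2⟩ := hm p hp
      refine ⟨Nat.one_le_pow _ _ (by omega), ?_⟩
      push_cast
      rw [Real.log_pow]
      push_cast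
      linarith) (fun _ => 1) (V := 1) (by
      refine le_trans (le_of_eq ?_) (S2_sum hδ hδ1' hT3')
      refine Finset.sum_congr rfl fun n _ => ?_
      rw [norm_one, one_pow]) N
  have v4 := sq_valR (A := A') hδ hδ1 hW0 h16 hA'0 N
  refine (measure_mono hsub).trans ((measure_union_le _ _).trans ((add_le_add
    ((measure_union_le _ _).trans (add_le_add v1 v2))
    ((measure_union_le _ _).trans (add_le_add v3 v4))).trans ?_))
  rw [← ENNReal.ofReal_add (by positivity) (by positivity),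
    ← ENNReal.ofReal_add (by positivity) (by positivity),
    ← ENNReal.ofReal_add (by positivity) (by positivity)]
  refine ENNReal.ofReal_le_ofReal ?_
  rw [← hR, ← add_div, ← add_div, ← add_div, div_le_iff₀ (by positivity)]
  have hεA : 4 * R * (11 + V) ≤ ε * A' ^ 2 := by
    have h1 : 4 * R * (11 + V) / ε ≤ A' ^ 2 := by nlinarith
    have h2 := mul_le_mul_of_nonneg_left h1 hε.le
    have h3 : ε * (4 * R * (11 + V) / ε) = 4 * R * (11 + V) := by field_simp
    linarith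
  have h1 := mul_le_mul_of_nonneg_right hεA hT0.le
  linarith

end Pool.Agent.Lib.MP_ec260d_ntB.Y
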