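import Pool.Agent.Lib.MP_ec260d_ntB.Y.SPb

/-!
# Y/Dec: decomposition of `YY`

PROOF (complete). Put `z_p = (p : ℂ)^(-(sW W T t))`, `‖z_p‖ = p^(-(1/2 + W / log T)) ≤ p^(-1/2)` (`Complex.norm_natCast_cpow_of_pos`, `W ≥ 0`, `log T > 0`, `(sW ..).re = 1/2 + W/log T`).
* `z_sq`: `(p^2)^(-s) = (p^(-s))^2` (`Complex.natCast_mul_natCast_cpow`, `pow_two`, `Nat.cast_mul`). `DP_S2`: `Finset.sum_image` (`p ↦ p^2` injective).
* `yy_dec`: `π YY = Im (∑_(P0) -log (1 - z_p)) + Im (∑_j ∑_(Pr) -log (1 - z_p))`, `sum_SP`. For `p ∈ P0`: `p ≥ 2`, `‖z_p‖ ≤ 2^(-1/2) ≤ 0.7072`, `‖log (1 - z)‖ ≤ ‖z‖^2 (1 - ‖z‖)⁻¹/2 + ‖z‖ ≤ 2` (`Complex.norm_log_one_add_le` with `-z`);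
  `P0.card ≤ 10001`. So the first sum is at most `20002`. For `p ∈ SP`: `‖z_p‖ ≤ 1/100`, `‖-log (1 - z) - z - z^2/2‖ ≤ ‖z‖^3 (1 - ‖z‖)⁻¹/3 ≤ ‖z‖^3 ≤ p^(-3/2)` (`Complex.norm_log_sub_logTaylor_le` with `n = 2` and `-z`: `logTaylor 3 (-z) = -z - z^2/2`),
  the sum is at most `1` (`SP_32`). Hence `|π YY - Im (DP SP 1 + 1/2 DP S2 1)| ≤ 20003`, and `1/π ≤ 1`.
-/

namespace Pool.Agent.Lib.MP_ec260d_ntB.Y

open Complex

theorem norm_z {T W t : ℝ} (hT : 3 ≤ T) (hW : 0 ≤ W) {n : ℕ} (hn : 1 ≤ n) :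
    ‖(n : ℂ) ^ (-(sW W T t))‖ ≤ (n : ℝ) ^ (-(1 / 2) : ℝ) := by
  have hL : 0 < Real.log T := Real.log_pos (by linarith)
  have hWL : 0 ≤ W / Real.log T := div_nonneg hW hL.le
  rw [Complex.norm_natCast_cpow_of_pos (by omega)]
  have hn1 : (1 : ℝ) ≤ (n : ℝ) := by exact_mod_cast hn
  refine Real.rpow_le_rpow_of_exponent_le hn1 ?_
  have h1 : (-(sW W T t)).re = -(1 / 2 + W / Real.log T) := by
    unfold sW
    simp only [Complex.neg_re, Complex.add_re, Complex.ofReal_re, Complex.mul_re, Complex.I_re,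
      Complex.I_im, Complex.ofReal_im]
    ring
  rw [h1]
  linarith

private theorem Dec_inj : Function.Injective (fun p : ℕ => p ^ 2) := by
  intro a b h
  exact Nat.pow_left_injective (by norm_num : (2 : ℕ) ≠ 0) h

private theorem Dec_sq (p : ℕ) (s : ℂ) : (((p ^ 2 : ℕ) : ℂ)) ^ s = ((p : ℂ) ^ s) ^ 2 := by
  rw [pow_two, Nat.cast_mul, Complex.natCast_mul_natCast_cpow, ← pow_two]

theorem DP_S2 (δ W T t : ℝ) :
    DP (S2 δ T) (fun _ => 1) W T t = ∑ p ∈ SP δ T, ((p : ℂ) ^ (-(sW W T t))) ^ 2 := by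
  unfold DP S2
  rw [Finset.sum_image (fun a _ b _ h => Dec_inj h)]
  refine Finset.sum_congr rfl fun p _ => ?_
  rw [one_mul, Dec_sq]

private theorem Dec_half_sq {p : ℕ} (hp : 1 ≤ p) :
    ((p : ℝ) ^ (-(1 / 2) : ℝ)) ^ 2 = 1 / (p : ℝ) := by
  have hp0 : (0 : ℝ) < p := by exact_mod_cast hp
  rw [← Real.rpow_natCast, ← Real.rpow_mul hp0.le]
  rw [show (-(1 / 2) : ℝ) * ((2 : ℕ) : ℝ) = -1 by norm_num, Real.rpow_neg_one, one_div]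

private theorem Dec_half_cube {p : ℕ} (hp : 1 ≤ p) :
    ((p : ℝ) ^ (-(1 / 2) : ℝ)) ^ 3 = (p : ℝ) ^ (-(3 / 2) : ℝ) := by
  have hp0 : (0 : ℝ) < p := by exact_mod_cast hp
  rw [← Real.rpow_natCast, ← Real.rpow_mul hp0.le]
  congr 1
  norm_num

private theorem Dec_small {T W t : ℝ} (hT : 3 ≤ T) (hW : 0 ≤ W) {p : ℕ} (hp : 2 ≤ p) :
    ‖-Complex.log (1 - (p : ℂ) ^ (-(sW W T t)))‖ ≤ 2 := by
  set z : ℂ := (p : ℂ) ^ (-(sW W T t)) with hz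
  have h1 : ‖z‖ ≤ (p : ℝ) ^ (-(1 / 2) : ℝ) := norm_z hT hW (by omega)
  have hp0 : (0 : ℝ) < p := by exact_mod_cast (by omega : 0 < p)
  have hp2 : (2 : ℝ) ≤ p := by exact_mod_cast hp
  have h2 : ((p : ℝ) ^ (-(1 / 2) : ℝ)) ^ 2 ≤ 1 / 2 := by
    rw [Dec_half_sq (by omega)]
    exact one_div_le_one_div_of_le (by norm_num) hp2
  have h3 : 0 < (p : ℝ) ^ (-(1 / 2) : ℝ) := Real.rpow_pos_of_pos hp0 _
  have h4 : ‖z‖ ^ 2 ≤ 1 / 2 := by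
    refine le_trans ?_ h2
    exact pow_le_pow_left₀ (norm_nonneg z) h1 2
  have h0 : 0 ≤ ‖z‖ := norm_nonneg z
  have h5 : ‖z‖ ≤ 71 / 100 := by nlinarith
  have h6 : ‖-z‖ < 1 := by rw [norm_neg]; linarith
  have h7 := Complex.norm_log_one_add_le h6
  rw [norm_neg z] at h7
  rw [norm_neg, sub_eq_add_neg]
  refine le_trans h7 ?_
  have h8 : (1 - ‖z‖)⁻¹ ≤ 100 / 29 := by
    rw [inv_le_comm₀ (by linarith) (by norm_num)]
    norm_num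
    linarith
  have h9 : 0 ≤ (1 - ‖z‖)⁻¹ := inv_nonneg.2 (by linarith)
  have h10 : ‖z‖ ^ 2 * (1 - ‖z‖)⁻¹ ≤ 1 / 2 * (100 / 29) :=
    mul_le_mul h4 h8 h9 (by norm_num)
  linarith

private theorem Dec_big {T W t : ℝ} (hT : 3 ≤ T) (hW : 0 ≤ W) {p : ℕ} (hp : 10000 < p) :
    ‖-Complex.log (1 - (p : ℂ) ^ (-(sW W T t))) - (p : ℂ) ^ (-(sW W T t)) -
      (1 / 2) * ((p : ℂ) ^ (-(sW W T t))) ^ 2‖ ≤ (p : ℝ) ^ (-(3 / 2) : ℝ) := by
  set z : ℂ := (p : ℂ) ^ (-(sW W T t)) with hz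
  have h1 : ‖z‖ ≤ (p : ℝ) ^ (-(1 / 2) : ℝ) := norm_z hT hW (by omega)
  have hp0 : (0 : ℝ) < p := by exact_mod_cast (by omega : 0 < p)
  have hp2 : (10000 : ℝ) ≤ p := by exact_mod_cast hp.le
  have h3 : 0 < (p : ℝ) ^ (-(1 / 2) : ℝ) := Real.rpow_pos_of_pos hp0 _
  have h2 : ((p : ℝ) ^ (-(1 / 2) : ℝ)) ^ 2 ≤ 1 / 10000 := by
    rw [Dec_half_sq (by omega)]
    exact one_div_le_one_div_of_le (by norm_num) hp2
  have h0 : 0 ≤ ‖z‖ := norm_nonneg z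
  have h5 : ‖z‖ ≤ 1 / 100 := by
    refine le_trans h1 ?_
    nlinarith
  have h6 : ‖-z‖ < 1 := by rw [norm_neg]; linarith
  have h7 := Complex.norm_log_sub_logTaylor_le 2 h6
  have h8 : Complex.logTaylor (2 + 1) (-z) = -z - z ^ 2 / 2 := by
    rw [Complex.logTaylor_succ, Complex.logTaylor_succ, Complex.logTaylor_succ,
      Complex.logTaylor_zero]
    simp only [Pi.add_apply]
    push_cast
    ring
  have h9 : -Complex.log (1 - z) - z - (1 / 2) * z ^ 2 =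
      -(Complex.log (1 + -z) - Complex.logTaylor (2 + 1) (-z)) := by
    rw [h8, ← sub_eq_add_neg]
    ring
  rw [h9, norm_neg]
  refine le_trans h7 ?_
  rw [norm_neg]
  have h10 : (1 - ‖z‖)⁻¹ ≤ 3 := by
    rw [inv_le_comm₀ (by linarith) (by norm_num)]
    norm_num
    linarith
  have h11 : ‖z‖ ^ 3 ≤ (p : ℝ) ^ (-(3 / 2) : ℝ) := by
    rw [← Dec_half_cube (by omega : 1 ≤ p)]
    exact pow_le_pow_left₀ h0 h1 3
  have h12 : 0 ≤ ‖z‖ ^ 3 := by positivity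
  have h13 : ‖z‖ ^ 3 * (1 - ‖z‖)⁻¹ ≤ ‖z‖ ^ 3 * 3 := mul_le_mul_of_nonneg_left h10 h12
  have h14 : ‖z‖ ^ (2 + 1) * (1 - ‖z‖)⁻¹ / ((2 : ℕ) + 1 : ℝ) ≤ ‖z‖ ^ 3 := by
    rw [div_le_iff₀ (by norm_num)]
    norm_num
    linarith
  exact le_trans h14 h11

private theorem Dec_P0 {T W t : ℝ} (hT : 3 ≤ T) (hW : 0 ≤ W) :
    ‖∑ p ∈ P0, -Complex.log (1 - (p : ℂ) ^ (-(sW W T t)))‖ ≤ 20002 := by
  have h1 : ∀ p ∈ P0, ‖-Complex.log (1 - (p : ℂ) ^ (-(sW W T t)))‖ ≤ 2 := by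
    intro p hp
    unfold P0 at hp
    exact Dec_small hT hW (Finset.mem_filter.1 hp).2.two_le
  refine le_trans (norm_sum_le_of_le _ h1) ?_
  rw [Finset.sum_const, nsmul_eq_mul]
  have h2 : P0.card ≤ 10001 := by
    unfold P0
    refine le_trans (Finset.card_filter_le _ _) ?_
    rw [Finset.card_range]
  have h3 : (P0.card : ℝ) ≤ 10001 := by exact_mod_cast h2
  linarith

theorem yy_dec {δ W T : ℝ} (hδ : 0 < δ) (hδ1 : δ ≤ 1) (hW : 0 ≤ W) (hT : 3 ≤ T) (t : ℝ) :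
    |YY δ W T t - (1 / Real.pi) * (DP (SP δ T) (fun _ => 1) W T t +
      (1 / 2) * DP (S2 δ T) (fun _ => 1) W T t).im| ≤ 20003 := by
  have hD : DP (SP δ T) (fun _ => 1) W T t = ∑ p ∈ SP δ T, (p : ℂ) ^ (-(sW W T t)) := by
    unfold DP
    exact Finset.sum_congr rfl fun p _ => one_mul _
  have hPP : PP δ T (sW W T t) - (DP (SP δ T) (fun _ => 1) W T t +
      (1 / 2) * DP (S2 δ T) (fun _ => 1) W T t) =
      (∑ p ∈ P0, -Complex.log (1 - (p : ℂ) ^ (-(sW W T t)))) +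
      ∑ p ∈ SP δ T, (-Complex.log (1 - (p : ℂ) ^ (-(sW W T t))) - (p : ℂ) ^ (-(sW W T t)) -
        (1 / 2) * ((p : ℂ) ^ (-(sW W T t))) ^ 2) := by
    rw [hD, DP_S2]
    unfold PP
    rw [sum_SP hδ (by linarith), Finset.sum_sub_distrib, Finset.sum_sub_distrib,
      Finset.mul_sum]
    ring
  have hS : ‖∑ p ∈ SP δ T, (-Complex.log (1 - (p : ℂ) ^ (-(sW W T t))) -
      (p : ℂ) ^ (-(sW W T t)) - (1 / 2) * ((p : ℂ) ^ (-(sW W T t))) ^ 2)‖ ≤ 1 := by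
    refine le_trans (norm_sum_le_of_le _ fun p hp => ?_) (SP_32 hδ hδ1 hT)
    exact Dec_big hT hW ((mem_SP hδ hδ1 hT).1 hp).2.1
  have hN : ‖PP δ T (sW W T t) - (DP (SP δ T) (fun _ => 1) W T t +
      (1 / 2) * DP (S2 δ T) (fun _ => 1) W T t)‖ ≤ 20003 := by
    rw [hPP]
    refine le_trans (norm_add_le _ _) ?_
    linarith [Dec_P0 (t := t) hT hW]
  have hpi : 1 / Real.pi ≤ 1 := by
    rw [div_le_one Real.pi_pos]
    linarith [Real.pi_gt_three]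
  have hpi0 : 0 ≤ 1 / Real.pi := by positivity
  unfold YY
  rw [← mul_sub, ← Complex.sub_im, abs_mul, abs_of_nonneg hpi0]
  calc 1 / Real.pi * |(PP δ T (sW W T t) - (DP (SP δ T) (fun _ => 1) W T t +
      (1 / 2) * DP (S2 δ T) (fun _ => 1) W T t)).im| ≤ 1 * 20003 :=
        mul_le_mul hpi (le_trans (Complex.abs_im_le_norm _) hN) (abs_nonneg _) (by norm_num)
    _ = 20003 := by norm_num

end Pool.Agent.Lib.MP_ec260d_ntB.Y
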