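import Pool.Agent.Lib.MP_ec260d_ntB.BA0
import Pool.Agent.Lib.MP_ec260d_ntB.Y.Ms

/-!
# Y/YBlockA: one block (only `block_one` here)

PROOF (complete). Let `b_j = bet δ j = δ exp (-j)`, `D_j = dd δ j / (100 (k+1)) ≥ b_j^(-3/4) / (100 (k+1))` (`Nat.le_ceil`), `T ≥ 16`, `L hT T ≤ T/2`. `YB δ W T j t = (1/π) Im (DP (Pr δ T j) 1 W T t)` (by definition), so `|YB| ≤ (1/3) ‖DP‖` and in particular `|YB| ≤ ‖DP‖`.
* one block (`block_one`): if `∃ s, |s - t| ≤ L hT T` with `D_j < |YB j s|` then `D_j / 2 < ‖DP (Pr j) 1 t‖` or `D_j / 2 < ‖DP (Pr j) 1 s - DP (Pr j) 1 t‖`. First event: `val` with `V = 3` (`a0_block`): `≤ 48 T / D_j^2`.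
  Second event: `osc` with `B = 4 b_j log T`: `4 ∑_(Pr j) (log p)^2/p ≤ 4 (b_j log T)^2 ∑ 1/p ≤ 12 (b_j log T)^2 ≤ B^2` (`log p ≤ b_j log T` by `mem_Pr`, `log_xs`): `≤ 8 L hT 4 b_j log T T 2 / D_j = 128 π L b_j T / D_j`.
  Members of `Pr δ T j`: `1 ≤ p`, `log p ≤ δ log T ≤ log T / 4` (`δ ≤ 1/100`).
  So the measure for the block `j` is `≤ T (48 · 10^4 (k+1)^2 b_j^(3/2) + 12800 π L (k+1) b_j^(7/4)) ≤ T (480000 (k+1)^2 + 50000 L (k+1)) b_j^(3/2)` (`b_j ≤ 1`).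
* sum over `j < JJ T` (`measure_biUnion_finset_le`): `∑_j b_j^(3/2) ≤ δ^(3/2) ∑_j exp (-3j/2) ≤ 2 δ^(3/2)` (geometric series, ratio `exp (-3/2) ≤ 1/4`... `≤ 1/2` is enough). Choose `δ₁ ≤ 1/100` with `(480000 (k+1)^2 + 50000 L (k+1)) 2 δ₁^(3/2) ≤ ε`
  (for instance `δ₁ = min (1/100) (ε / (2 (480000 (k+1)^2 + 50000 L (k+1))))`, as `δ^(3/2) ≤ δ`).
-/

namespace Pool.Agent.Lib.MP_ec260d_ntB.Y

open Complex MeasureTheory Set

private theorem YBlockA_yb (δ W T : ℝ) (j : ℕ) (t : ℝ) : |YB δ W T j t| ≤ ‖DP (Pr δ T j) (fun _ => 1) W T t‖ := by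
  have h1 : YB δ W T j t = (1 / Real.pi) * (DP (Pr δ T j) (fun _ => 1) W T t).im := by
    unfold YB Pj DP
    simp only [one_mul]
  rw [h1, abs_mul]
  have h2 := Complex.abs_im_le_norm (DP (Pr δ T j) (fun _ => 1) W T t)
  have h3 : |1 / Real.pi| ≤ 1 := by
    rw [abs_of_pos (by positivity), div_le_one Real.pi_pos]
    linarith [Real.pi_gt_three]
  calc |1 / Real.pi| * |(DP (Pr δ T j) (fun _ => 1) W T t).im|
      ≤ 1 * ‖DP (Pr δ T j) (fun _ => 1) W T t‖ := by gcongr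
    _ = _ := one_mul _

private theorem YBlockA_mem {δ T : ℝ} (hT : 0 < Real.log T) (hδ : 0 < δ) (hδ1 : δ ≤ 1 / 100) {j n : ℕ}
    (hn : n ∈ Pr δ T j) : (1 ≤ n ∧ Real.log n ≤ Real.log T / 4) ∧ 0 ≤ Real.log n ∧ Real.log n ≤ bet δ j * Real.log T := by
  obtain ⟨h1, h2, h3, h4⟩ := mem_Pr.1 hn
  have h5 : 1 ≤ n := h1.one_lt.le
  have h6 : (0 : ℝ) < n := by exact_mod_cast h5
  have h7 : Real.log n ≤ Real.log T * bet δ j := by
    rw [← log_xs]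
    exact Real.log_le_log h6 h4
  have h8 := bet_le hδ j
  refine ⟨⟨h5, ?_⟩, Real.log_natCast_nonneg n, by linarith⟩
  nlinarith

theorem block_one (k : ℕ) {δ W T L : ℝ} (hδ : 0 < δ) (hδ1 : δ ≤ 1 / 100) (hW : 0 ≤ W) (h16 : 16 ≤ T)
    (hL : 0 ≤ L) (hLT : L * hT T ≤ T / 2) (j : ℕ) :
    volume {t : ℝ | t ∈ Icc T (3 * T) ∧ ∃ s : ℝ, |s - t| ≤ L * hT T ∧
        (dd δ j : ℝ) / (100 * ((k : ℝ) + 1)) < |YB δ W T j s|} ≤
      ENNReal.ofReal (T * ((480000 * ((k : ℝ) + 1) ^ 2 + 50000 * L * ((k : ℝ) + 1)) *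
        bet δ j ^ (3 / 2 : ℝ))) := by
  have hl : 0 < Real.log T := Real.log_pos (by linarith)
  have hT0 : 0 < T := by linarith
  set b := bet δ j with hb
  have hb0 : 0 < b := bet_pos hδ j
  have hb1 : b ≤ 1 := (bet_le hδ j).trans (by linarith)
  have hk : (0 : ℝ) < (k : ℝ) + 1 := by positivity
  set D : ℝ := (dd δ j : ℝ) / (100 * ((k : ℝ) + 1)) with hD
  have hdd : b ^ (-(3 / 4) : ℝ) ≤ (dd δ j : ℝ) := by
    unfold dd
    exact Nat.le_ceil _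
  have hbp : 0 < b ^ (-(3 / 4) : ℝ) := Real.rpow_pos_of_pos hb0 _
  have hdd0 : (0 : ℝ) < (dd δ j : ℝ) := hbp.trans_le hdd
  have hD0 : 0 < D := div_pos hdd0 (by positivity)
  have hDinv : 1 / D ≤ 100 * ((k : ℝ) + 1) * b ^ (3 / 4 : ℝ) := by
    rw [hD, one_div_div, div_le_iff₀ hdd0]
    have h1 : 1 ≤ b ^ (3 / 4 : ℝ) * (dd δ j : ℝ) := by
      have h2 : b ^ (3 / 4 : ℝ) * b ^ (-(3 / 4) : ℝ) = 1 := by
        rw [← Real.rpow_add hb0]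
        norm_num
      rw [← h2]
      exact mul_le_mul_of_nonneg_left hdd (Real.rpow_nonneg hb0.le _)
    calc 100 * ((k : ℝ) + 1) = 100 * ((k : ℝ) + 1) * 1 := (mul_one _).symm
      _ ≤ 100 * ((k : ℝ) + 1) * (b ^ (3 / 4 : ℝ) * (dd δ j : ℝ)) := by gcongr
      _ = 100 * ((k : ℝ) + 1) * b ^ (3 / 4 : ℝ) * (dd δ j : ℝ) := by ring
  have hD2 : 0 < D / 2 := by positivity
  have hmem : ∀ n ∈ Pr δ T j, 1 ≤ n ∧ Real.log n ≤ Real.log T / 4 := fun n hn => (YBlockA_mem hl hδ hδ1 hn).1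
  have hA := a0_block δ (by linarith : 1 ≤ T) j
  have hV : ∑ n ∈ Pr δ T j, ‖(fun _ : ℕ => (1 : ℂ)) n‖ ^ 2 / (n : ℝ) ≤ 3 := by
    refine le_trans (le_of_eq ?_) hA
    refine Finset.sum_congr rfl fun n _ => ?_
    simp
  have hc : 4 * ∑ n ∈ Pr δ T j, ‖(fun _ : ℕ => (1 : ℂ)) n‖ ^ 2 * Real.log n ^ 2 / (n : ℝ) ≤ (4 * b * Real.log T) ^ 2 := by
    have h1 : ∑ n ∈ Pr δ T j, ‖(fun _ : ℕ => (1 : ℂ)) n‖ ^ 2 * Real.log n ^ 2 / (n : ℝ) ≤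
        ∑ n ∈ Pr δ T j, (b * Real.log T) ^ 2 * (1 / (n : ℝ)) := by
      refine Finset.sum_le_sum fun n hn => ?_
      obtain ⟨h2, h3, h4⟩ := YBlockA_mem hl hδ hδ1 hn
      have h5 : (0 : ℝ) < n := by exact_mod_cast h2.1
      have h6 : Real.log n ^ 2 ≤ (b * Real.log T) ^ 2 := pow_le_pow_left₀ h3 h4 2
      rw [norm_one, one_pow, one_mul, div_eq_mul_one_div]
      exact mul_le_mul_of_nonneg_right h6 (by positivity)
    rw [← Finset.mul_sum] at h1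
    have h7 : (b * Real.log T) ^ 2 * ∑ n ∈ Pr δ T j, (1 / (n : ℝ)) ≤ (b * Real.log T) ^ 2 * 3 :=
      mul_le_mul_of_nonneg_left hA (by positivity)
    nlinarith [sq_nonneg (b * Real.log T)]
  have hval := val h16 hW hD2 hmem (fun _ => 1) hV
  have hosc := osc h16 hW hL hLT hD2 (by positivity : (0 : ℝ) ≤ 4 * b * Real.log T) hmem (fun _ => 1) hc
  have hsub : {t : ℝ | t ∈ Icc T (3 * T) ∧ ∃ s : ℝ, |s - t| ≤ L * hT T ∧ D < |YB δ W T j s|} ⊆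
      {t : ℝ | t ∈ Icc T (3 * T) ∧ D / 2 < ‖DP (Pr δ T j) (fun _ => 1) W T t‖} ∪
      {t : ℝ | t ∈ Icc T (3 * T) ∧ ∃ s : ℝ, |s - t| ≤ L * hT T ∧
        D / 2 < ‖DP (Pr δ T j) (fun _ => 1) W T s - DP (Pr δ T j) (fun _ => 1) W T t‖} := by
    rintro t ⟨ht, s, hs, hs2⟩
    by_cases h1 : D / 2 < ‖DP (Pr δ T j) (fun _ => 1) W T t‖
    · exact Or.inl ⟨ht, h1⟩
    · right
      refine ⟨ht, s, hs, ?_⟩
      rw [not_lt] at h1
      have h2 := YBlockA_yb δ W T j s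
      have h3 : ‖DP (Pr δ T j) (fun _ => 1) W T s‖ ≤ ‖DP (Pr δ T j) (fun _ => 1) W T s - DP (Pr δ T j) (fun _ => 1) W T t‖ +
          ‖DP (Pr δ T j) (fun _ => 1) W T t‖ := by
        have h4 := norm_add_le (DP (Pr δ T j) (fun _ => 1) W T s - DP (Pr δ T j) (fun _ => 1) W T t)
          (DP (Pr δ T j) (fun _ => 1) W T t)
        rw [sub_add_cancel] at h4
        exact h4
      linarith
  refine (measure_mono hsub).trans ((measure_union_le _ _).trans ((add_le_add hval hosc).trans ?_))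
  rw [← ENNReal.ofReal_add (by positivity) (by
    have : 0 ≤ hT T := by
      unfold hT
      positivity
    positivity)]
  refine ENNReal.ofReal_le_ofReal ?_
  have e1 : 4 * T * 3 / (D / 2) ^ 2 = 48 * T * (1 / D) ^ 2 := by
    field_simp
    ring
  have e2 : 8 * (L * hT T) * (4 * b * Real.log T) * T / (D / 2) = 128 * Real.pi * L * b * T * (1 / D) := by
    unfold hT
    field_simp
    ring
  rw [e1, e2]
  have hDp : 0 < 1 / D := by positivity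
  have hb32 : (b ^ (3 / 4 : ℝ)) ^ 2 = b ^ (3 / 2 : ℝ) := by
    rw [← Real.rpow_natCast, ← Real.rpow_mul hb0.le]
    norm_num
  have hq : (1 / D) ^ 2 ≤ 10000 * ((k : ℝ) + 1) ^ 2 * b ^ (3 / 2 : ℝ) := by
    calc (1 / D) ^ 2 ≤ (100 * ((k : ℝ) + 1) * b ^ (3 / 4 : ℝ)) ^ 2 := pow_le_pow_left₀ hDp.le hDinv 2
      _ = 10000 * ((k : ℝ) + 1) ^ 2 * (b ^ (3 / 4 : ℝ)) ^ 2 := by ring
      _ = _ := by rw [hb32]
  have hb74 : b * b ^ (3 / 4 : ℝ) ≤ b ^ (3 / 2 : ℝ) := by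
    have h1 : b ≤ b ^ (3 / 4 : ℝ) := by
      calc b = b ^ (1 : ℝ) := (Real.rpow_one b).symm
        _ ≤ b ^ (3 / 4 : ℝ) := Real.rpow_le_rpow_of_exponent_ge hb0 hb1 (by norm_num)
    rw [← hb32, sq]
    exact mul_le_mul_of_nonneg_right h1 (Real.rpow_nonneg hb0.le _)
  have hpi : Real.pi < 3.15 := Real.pi_lt_d2
  have hb32n : 0 ≤ b ^ (3 / 2 : ℝ) := Real.rpow_nonneg hb0.le _
  have hs : 128 * Real.pi * L * b * T * (1 / D) ≤ 50000 * L * ((k : ℝ) + 1) * b ^ (3 / 2 : ℝ) * T := by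
    calc 128 * Real.pi * L * b * T * (1 / D)
        ≤ 128 * Real.pi * L * b * T * (100 * ((k : ℝ) + 1) * b ^ (3 / 4 : ℝ)) := by gcongr
      _ = (12800 * Real.pi) * (L * ((k : ℝ) + 1) * T) * (b * b ^ (3 / 4 : ℝ)) := by ring
      _ ≤ (12800 * Real.pi) * (L * ((k : ℝ) + 1) * T) * b ^ (3 / 2 : ℝ) := by gcongr
      _ ≤ 50000 * (L * ((k : ℝ) + 1) * T) * b ^ (3 / 2 : ℝ) := by
        gcongr
        linarith
      _ = _ := by ring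
  have hf : 48 * T * (1 / D) ^ 2 ≤ 480000 * ((k : ℝ) + 1) ^ 2 * b ^ (3 / 2 : ℝ) * T := by
    calc 48 * T * (1 / D) ^ 2 ≤ 48 * T * (10000 * ((k : ℝ) + 1) ^ 2 * b ^ (3 / 2 : ℝ)) := by gcongr
      _ = _ := by ring
  calc 48 * T * (1 / D) ^ 2 + 128 * Real.pi * L * b * T * (1 / D)
      ≤ 480000 * ((k : ℝ) + 1) ^ 2 * b ^ (3 / 2 : ℝ) * T + 50000 * L * ((k : ℝ) + 1) * b ^ (3 / 2 : ℝ) * T :=
        add_le_add hf hs
    _ = T * ((480000 * ((k : ℝ) + 1) ^ 2 + 50000 * L * ((k : ℝ) + 1)) * b ^ (3 / 2 : ℝ)) := by ring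

end Pool.Agent.Lib.MP_ec260d_ntB.Y
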